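import Mathlib
import Pool.Agent.Helper44.QA.Defs
import Pool.Agent.Helper44.QA.Rules
import Pool.Agent.Helper44.QA.Calc
import Pool.Agent.Helper44.QA.Coef

/-!
PROJECT QB (MP_6cd5f1_al, Quillen's conjecture over graded Cohen-Macaulay rings). Definitions.

`AA R O b`: the free graded commutative algebra with odd generators `O`, even generators `Fin b`
(`BB R b (O → R)` of the project QA: exterior algebra tensor polynomial ring).
`gg g`: the generator `g : O ⊕ Fin b`, `dd g`: the partial derivative (contraction, `pderiv`).
`DD`: the values of a differential on the generators, `DD.d` the differential.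
`Mo O b`: monomials, `mon m`, `co m w` the coefficient of `mon m` in `w`.
`Pc C`: the elements with coefficients in `C m`.
-/

set_option autoImplicit false

open scoped TensorProduct
open Pool.Agent.Helper44.QA

namespace Pool.Agent.Helper44.QB

noncomputable section

universe u

/-- The free graded commutative algebra with odd generators `O`, even generators `Fin b`. -/
abbrev AA (R : Type u) [CommRing R] (O : Type) (b : ℕ) : Type u := BB R b (O → R)

section

variable {R : Type u} [CommRing R] {O : Type} [Fintype O] [LinearOrder O] {b : ℕ}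

/-- The generators. -/
def gg (g : O ⊕ Fin b) : AA R O b :=
  Sum.elim (fun i => xx (Pi.single i 1)) (fun j => XX j) g

/-- The partial derivatives. -/
def dd (g : O ⊕ Fin b) : AA R O b →ₗ[R] AA R O b :=
  Sum.elim (fun i => con (LinearMap.proj i)) (fun j => par j) g

/-- The values of a differential on the generators. -/
abbrev DD (R : Type u) [CommRing R] (O : Type) (b : ℕ) : Type u := O ⊕ Fin b → AA R O b

/-- The derivation with the given values on the generators. -/
def DD.d (T : DD R O b) : AA R O b →ₗ[R] AA R O b :=
  ∑ g, LinearMap.mulLeft R (T g) ∘ₗ dd g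

/-- The integration operator. -/
def intM (b : ℕ) (R : Type u) [CommRing R] [Algebra ℚ R] (j : Fin b) :
    MvPolynomial (Fin b) R →ₗ[R] MvPolynomial (Fin b) R :=
  (MvPolynomial.basisMonomials (Fin b) R).constr R
    (fun m => MvPolynomial.monomial (m + Finsupp.single j 1)
      (algebraMap ℚ R (1 / ((m j : ℚ) + 1))))

/-- The integration operator. -/
def int [Algebra ℚ R] (j : Fin b) : AA R O b →ₗ[R] AA R O b :=
  TensorProduct.map LinearMap.id (intM b R j)

/-- The basis of the exterior algebra. -/
def bas (R : Type u) [CommRing R] (O : Type) [Fintype O] [LinearOrder O] :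
    Module.Basis (Finset O) R (ExteriorAlgebra R (O → R)) :=
  (Pi.basisFun R O).ExteriorAlgebra

/-- Monomials. -/
abbrev Mo (O : Type) (b : ℕ) : Type := Finset O × (Fin b →₀ ℕ)

/-- The element of a monomial. -/
def mon (m : Mo O b) : AA R O b := tm (bas R O m.1) (MvPolynomial.monomial m.2 1)

/-- The coefficient of a monomial. -/
def co (m : Mo O b) : AA R O b →ₗ[R] R := (bas R O).coord m.1 ∘ₗ cf m.2

/-- `BB R b V` as a vector space over a field `k`, `R` a `k`-algebra. -/
instance (priority := 50) instModuleBB {k : Type u} [Field k] [Algebra k R] {V : Type u}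
    [AddCommGroup V] [Module R V] : Module k (BB R b V) :=
  Module.compHom (BB R b V) (algebraMap k R)

theorem k_smul_def {k : Type u} [Field k] [Algebra k R] {V : Type u}
    [AddCommGroup V] [Module R V] (c : k) (w : BB R b V) : c • w = (algebraMap k R c) • w := rfl

/-- Elements with coefficients in `C m`. -/
def Pc {k : Type u} [Field k] [Algebra k R] (C : Mo O b → Submodule k R) :
    Submodule k (AA R O b) where
  carrier := {w | ∀ m, co m w ∈ C m}
  add_mem' := by
    intro w w' hw hw' m
    rw [map_add]
    exact (C m).add_mem (hw m) (hw' m)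
  zero_mem' := by
    intro m
    rw [map_zero]
    exact (C m).zero_mem
  smul_mem' := by
    intro c w hw m
    rw [k_smul_def, map_smul, smul_eq_mul, ← Algebra.smul_def]
    exact (C m).smul_mem c (hw m)

/-- The additive function with given values on the generators. -/
def lin (δ : O ⊕ Fin b → ℤ) (m : Mo O b) : ℤ :=
  ∑ i ∈ m.1, δ (Sum.inl i) + ∑ j, (m.2 j : ℤ) * δ (Sum.inr j)

/-- The monomial involves only generators in `T`. -/
def SuppIn (T : Set (O ⊕ Fin b)) (m : Mo O b) : Prop :=
  (∀ i ∈ m.1, Sum.inl i ∈ T) ∧ ∀ j, m.2 j ≠ 0 → Sum.inr j ∈ T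

open Classical in
/-- The condition: generators in `T`, degree `n`, coefficient of `m` in `φ m`. -/
def Cd {k : Type u} [Field k] [Algebra k R] (δ : O ⊕ Fin b → ℤ) (T : Set (O ⊕ Fin b)) (n : ℤ)
    (φ : Mo O b → Submodule k R) (m : Mo O b) : Submodule k R :=
  if SuppIn T m ∧ lin δ m = n then φ m else ⊥

end

end

end Pool.Agent.Helper44.QB
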