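import Mathlib
import Pool.Agent.Helper44.QB.Defs

/-!
PROJECT QB. Monomials: the coordinates, the values of the operators on monomials.
-/

set_option autoImplicit false

open scoped TensorProduct
open Pool.Agent.Helper44.QA

namespace Pool.Agent.Helper44.QB

universe u

variable {R : Type u} [CommRing R] {O : Type} [Fintype O] [LinearOrder O] {b : ℕ}

theorem co_tm (m : Mo O b) (x : ExteriorAlgebra R (O → R)) (p : MvPolynomial (Fin b) R) :
    co m (tm x p) = p.coeff m.2 * (bas R O).coord m.1 x := by
  unfold co
  rw [LinearMap.comp_apply, cf_tm, map_smul, smul_eq_mul]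

theorem co_mon (m m' : Mo O b) : co (R := R) m (mon m') = if m' = m then 1 else 0 := by
  unfold mon
  rw [co_tm, MvPolynomial.coeff_monomial, Module.Basis.coord_apply, Module.Basis.repr_self,
    Finsupp.single_apply]
  by_cases h1 : m'.2 = m.2
  · by_cases h2 : m'.1 = m.1
    · rw [if_pos h1, if_pos h2, if_pos (Prod.ext h2 h1), one_mul]
    · rw [if_neg h2, mul_zero, if_neg]
      rintro rfl
      exact h2 rfl
  · rw [if_neg h1, zero_mul, if_neg]
    rintro rfl
    exact h1 rfl

/-- Every element is a finite combination of monomials. -/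
theorem exists_sum (w : AA R O b) :
    ∃ s : Finset (Mo O b), w = ∑ m ∈ s, co m w • mon m ∧ ∀ m ∉ s, co m w = 0 := by
  classical
  obtain ⟨s, hs, hs0⟩ := cf_sum w
  refine ⟨Finset.univ ×ˢ s, ?_, ?_⟩
  · rw [Finset.sum_product_right]
    nth_rewrite 1 [hs]
    refine Finset.sum_congr rfl fun α _ => ?_
    nth_rewrite 1 [← (bas R O).sum_repr (cf α w)]
    have h : ∀ t : Finset (Finset O), tm (∑ i ∈ t, (bas R O).repr (cf α w) i • (bas R O) i)
        (MvPolynomial.monomial α (1 : R)) =
        ∑ x ∈ t, co (x, α) w • mon (x, α) := by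
      intro t
      induction t using Finset.induction_on with
      | empty => rw [Finset.sum_empty, Finset.sum_empty, zero_tm]
      | insert a t ha ih =>
        rw [Finset.sum_insert ha, Finset.sum_insert ha, add_tm, ih, smul_tm]
        rfl
    exact h Finset.univ
  · intro m hm
    have : m.2 ∉ s := fun h => hm (Finset.mem_product.2 ⟨Finset.mem_univ _, h⟩)
    unfold co
    rw [LinearMap.comp_apply, hs0 _ this, map_zero]

theorem co_ext {w w' : AA R O b} (h : ∀ m, co m w = co m w') : w = w' := by
  rw [← sub_eq_zero]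
  obtain ⟨s, hs, -⟩ := exists_sum (w - w')
  rw [hs]
  refine Finset.sum_eq_zero fun m _ => ?_
  rw [map_sub, h m, sub_self, zero_smul]

end Pool.Agent.Helper44.QB
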