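import Mathlib
import Pool.Agent.Helper44.QB.Mon

/-!
PROJECT QB. Monomials: products and the values of the operators on monomials.
-/

set_option autoImplicit false

open scoped TensorProduct
open Pool.Agent.Helper44.QA

namespace Pool.Agent.Helper44.QB

universe u

variable {R : Type u} [CommRing R] {O : Type} [Fintype O] [LinearOrder O] {b : ℕ}

theorem bas_mul_of_not_disjoint (S T : Finset O) (h : ¬ Disjoint S T) :
    bas R O S * bas R O T = 0 :=
  ExteriorAlgebra.basis_mul_of_not_disjoint (Pi.basisFun R O)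
    (⟨S, rfl⟩ : Set.powersetCard O S.card) (⟨T, rfl⟩ : Set.powersetCard O T.card) h

theorem bas_mul_of_disjoint (S T : Finset O) (h : Disjoint S T) :
    ∃ u : ℤˣ, bas R O S * bas R O T = u • bas R O (S ∪ T) := by
  have h1 := ExteriorAlgebra.basis_mul_of_disjoint (Pi.basisFun R O)
    (⟨S, rfl⟩ : Set.powersetCard O S.card) (⟨T, rfl⟩ : Set.powersetCard O T.card) h
  have h2 : (↑(Set.powersetCard.disjUnion (s := (⟨S, rfl⟩ : Set.powersetCard O S.card))
      (t := (⟨T, rfl⟩ : Set.powersetCard O T.card)) h) : Finset O) = S ∪ T := by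
    rw [Set.powersetCard.coe_disjUnion]
    exact Finset.disjUnion_eq_union _ _ _
  rw [h2] at h1
  exact ⟨_, h1⟩

theorem bas_empty : bas R O ∅ = 1 := by
  have h1 := ExteriorAlgebra.basis_apply_ofCard (Pi.basisFun R O) (s := (∅ : Finset O)) (n := 0)
    rfl
  refine h1.trans ?_
  simp [ExteriorAlgebra.ιMulti_family]

theorem bas_singleton (i : O) : bas R O {i} = ExteriorAlgebra.ι R (Pi.single i 1) := by
  have h1 := ExteriorAlgebra.basis_apply_ofCard (Pi.basisFun R O) (s := ({i} : Finset O)) (n := 1)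
    rfl
  refine h1.trans ?_
  have h2 : ∀ a : Fin 1, Set.powersetCard.ofFinEmbEquiv.symm
      (Set.powersetCard.ofCard (s := ({i} : Finset O)) (n := 1) rfl) a = i := by
    intro a
    have h3 : Set.powersetCard.ofFinEmbEquiv.symm
      (Set.powersetCard.ofCard (s := ({i} : Finset O)) (n := 1) rfl) a ∈
        Set.range (Set.powersetCard.ofFinEmbEquiv.symm
      (Set.powersetCard.ofCard (s := ({i} : Finset O)) (n := 1) rfl)) := ⟨a, rfl⟩
    rw [Set.powersetCard.mem_range_ofFinEmbEquiv_symm_iff_mem] at h3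
    exact Finset.mem_singleton.1 h3
  simp [ExteriorAlgebra.ιMulti_family, ExteriorAlgebra.ιMulti_apply, h2]

omit [Fintype O] [LinearOrder O] in
theorem units_smul_tm (u : ℤˣ) (x : ExteriorAlgebra R (O → R)) (p : MvPolynomial (Fin b) R) :
    tm (u • x) p = u • tm x p := by
  rcases Int.units_eq_one_or u with rfl | rfl
  · rw [one_smul, one_smul]
  · rw [Units.neg_smul, one_smul, Units.neg_smul, one_smul, neg_tm]

/-- The sum of two monomials. -/
noncomputable def madd (m m' : Mo O b) : Mo O b := (m.1 ∪ m'.1, m.2 + m'.2)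

theorem mon_mul (m m' : Mo O b) : (¬ Disjoint m.1 m'.1 ∧ mon (R := R) m * mon m' = 0) ∨
    (Disjoint m.1 m'.1 ∧ ∃ u : ℤˣ, mon (R := R) m * mon m' = u • mon (madd m m')) := by
  unfold mon
  rw [tm_mul, MvPolynomial.monomial_mul, one_mul]
  by_cases h : Disjoint m.1 m'.1
  · right
    refine ⟨h, ?_⟩
    obtain ⟨u, hu⟩ := bas_mul_of_disjoint (R := R) _ _ h
    refine ⟨u, ?_⟩
    rw [hu, units_smul_tm]
    rfl
  · left
    refine ⟨h, ?_⟩
    rw [bas_mul_of_not_disjoint _ _ h, zero_tm]

theorem mon_zero : mon (R := R) ((∅, 0) : Mo O b) = 1 := by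
  unfold mon
  rw [bas_empty, ← tm_one]
  rfl

theorem gg_inl (i : O) : gg (R := R) (b := b) (Sum.inl i) = mon ({i}, 0) := by
  unfold gg mon
  rw [bas_singleton]
  rfl

theorem gg_inr (j : Fin b) : gg (R := R) (O := O) (Sum.inr j) = mon (∅, Finsupp.single j 1) := by
  unfold gg mon
  rw [bas_empty]
  rfl

theorem dd_inl_mon (i : O) (m : Mo O b) : (i ∉ m.1 ∧ dd (R := R) (Sum.inl i) (mon m) = 0) ∨
    (i ∈ m.1 ∧ ∃ u : ℤˣ, dd (R := R) (Sum.inl i) (mon m) = u • mon (m.1.erase i, m.2)) := by
  have h0 : ∀ m : Mo O b, i ∉ m.1 → dd (R := R) (Sum.inl i) (mon m) = 0 := by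
    rintro ⟨S, α⟩
    induction S using Finset.induction_on with
    | empty =>
      intro _
      change con _ (tm _ _) = 0
      rw [con_tm, bas_empty, CliffordAlgebra.contractLeft_one, zero_tm]
    | insert a S ha ih =>
      intro hi
      rw [Finset.mem_insert, not_or] at hi
      have hd : Disjoint ({a} : Finset O) S := Finset.disjoint_singleton_left.2 ha
      rcases mon_mul (R := R) (({a}, 0) : Mo O b) (S, α) with ⟨h, -⟩ | ⟨-, u, hu⟩
      · exact absurd hd h
      · have h1 : mon (R := R) ((insert a S, α) : Mo O b) = u • (gg (Sum.inl a) * mon (S, α)) := by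
          rw [gg_inl, hu, smul_smul, Int.units_mul_self, one_smul]
          unfold madd
          rw [zero_add, ← Finset.insert_eq]
        rw [h1]
        have h2 : dd (R := R) (Sum.inl i) (gg (Sum.inl a) * mon (S, α)) = 0 := by
          change con _ (xx _ * _) = 0
          have h3 : con (LinearMap.proj i : (O → R) →ₗ[R] R) (mon (R := R) (S, α)) = 0 := ih hi.2
          rw [con_xx_mul, h3, mul_zero, sub_zero]
          change (Pi.single a (1 : R) : O → R) i • _ = _
          rw [Pi.single_eq_of_ne (Ne.symm (Ne.symm hi.1)), zero_smul]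
        rcases Int.units_eq_one_or u with rfl | rfl
        · rw [one_smul, h2]
        · rw [Units.neg_smul, one_smul, map_neg, h2, neg_zero]
  by_cases hi : i ∈ m.1
  · right
    refine ⟨hi, ?_⟩
    have hd : Disjoint ({i} : Finset O) (m.1.erase i) :=
      Finset.disjoint_singleton_left.2 (Finset.notMem_erase i _)
    rcases mon_mul (R := R) (({i}, 0) : Mo O b) (m.1.erase i, m.2) with ⟨h, -⟩ | ⟨-, u, hu⟩
    · exact absurd hd h
    · refine ⟨u, ?_⟩
      have h1 : mon (R := R) m = u • (gg (Sum.inl i) * mon (m.1.erase i, m.2)) := by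
        rw [gg_inl, hu, smul_smul, Int.units_mul_self, one_smul]
        unfold madd
        rw [zero_add, ← Finset.insert_eq, Finset.insert_erase hi]
      have h2 : dd (R := R) (Sum.inl i) (gg (Sum.inl i) * mon (m.1.erase i, m.2)) =
          mon (m.1.erase i, m.2) := by
        change con _ (xx _ * _) = _
        have h3 : con (LinearMap.proj i : (O → R) →ₗ[R] R) (mon (R := R) (m.1.erase i, m.2)) = 0 :=
          h0 _ (Finset.notMem_erase i _)
        rw [con_xx_mul, h3, mul_zero, sub_zero]
        change (Pi.single i (1 : R) : O → R) i • _ = _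
        rw [Pi.single_eq_same, one_smul]
      rw [h1]
      rcases Int.units_eq_one_or u with rfl | rfl
      · rw [one_smul, h2, one_smul]
      · rw [Units.neg_smul, one_smul, map_neg, h2, Units.neg_smul, one_smul]
  · exact Or.inl ⟨hi, h0 m hi⟩

theorem gg_inl_mul_mon (i : O) (m : Mo O b) : (i ∈ m.1 ∧ gg (R := R) (Sum.inl i) * mon m = 0) ∨
    (i ∉ m.1 ∧ ∃ u : ℤˣ, gg (R := R) (Sum.inl i) * mon m = u • mon (insert i m.1, m.2)) := by
  rw [gg_inl]
  rcases mon_mul (R := R) (({i}, 0) : Mo O b) m with ⟨h, h1⟩ | ⟨h, u, h1⟩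
  · exact Or.inl ⟨by simpa using h, h1⟩
  · refine Or.inr ⟨by simpa using h, u, ?_⟩
    rw [h1]
    unfold madd
    rw [zero_add, ← Finset.insert_eq]

theorem gg_inr_mul_mon (j : Fin b) (m : Mo O b) :
    gg (R := R) (Sum.inr j) * mon m = mon (m.1, m.2 + Finsupp.single j 1) := by
  change XX j * tm _ _ = tm _ _
  rw [XX_mul_tm]
  congr 1
  change MvPolynomial.monomial (Finsupp.single j 1) 1 * _ = _
  rw [MvPolynomial.monomial_mul, one_mul, add_comm]

theorem dd_inr_mon (j : Fin b) (m : Mo O b) :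
    dd (R := R) (Sum.inr j) (mon m) = m.2 j • mon (m.1, m.2 - Finsupp.single j 1) := by
  change par j (tm _ _) = _ • tm _ _
  rw [par_tm, MvPolynomial.pderiv_monomial, one_mul, ← Nat.cast_smul_eq_nsmul R, ← tm_smul,
    MvPolynomial.smul_monomial, smul_eq_mul, mul_one]

theorem int_mon [Algebra ℚ R] (j : Fin b) (m : Mo O b) :
    int (R := R) j (mon m) =
      algebraMap ℚ R (1 / ((m.2 j : ℚ) + 1)) • mon (m.1, m.2 + Finsupp.single j 1) := by
  have h : intM b R j (MvPolynomial.monomial m.2 1) = MvPolynomial.monomial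
      (m.2 + Finsupp.single j 1) (algebraMap ℚ R (1 / ((m.2 j : ℚ) + 1))) := by
    unfold intM
    have := (MvPolynomial.basisMonomials (Fin b) R).constr_basis R (fun m =>
      MvPolynomial.monomial (m + Finsupp.single j 1) (algebraMap ℚ R (1 / ((m j : ℚ) + 1)))) m.2
    rwa [MvPolynomial.coe_basisMonomials] at this
  have h2 : int (R := R) j (mon m) = tm (bas R O m.1) (intM b R j (MvPolynomial.monomial m.2 1)) :=
    rfl
  rw [h2, h]
  unfold mon
  rw [← tm_smul, MvPolynomial.smul_monomial, smul_eq_mul, mul_one]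

end Pool.Agent.Helper44.QB
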