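import Mathlib
import Pool.Agent.Helper44.QB.Mul

/-!
PROJECT QB. The coordinates of the values of the operators.
-/

set_option autoImplicit false

open scoped TensorProduct
open Pool.Agent.Helper44.QA

namespace Pool.Agent.Helper44.QB

universe u

variable {R : Type u} [CommRing R] {O : Type} [Fintype O] [LinearOrder O] {b : ℕ}

theorem lin_ext {N : Type*} [AddCommGroup N] [Module R N] {f g : AA R O b →ₗ[R] N}
    (h : ∀ m, f (mon m) = g (mon m)) (w : AA R O b) : f w = g w := by
  obtain ⟨s, hs, -⟩ := exists_sum w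
  rw [hs, map_sum, map_sum]
  refine Finset.sum_congr rfl fun m _ => ?_
  rw [map_smul, map_smul, h]

theorem co_units (m : Mo O b) (u : ℤˣ) (w : AA R O b) : co m (u • w) = u • co m w := by
  rcases Int.units_eq_one_or u with rfl | rfl
  · rw [one_smul, one_smul]
  · rw [Units.neg_smul, one_smul, Units.neg_smul, one_smul, map_neg]

/-- `g` may be added to the monomial `m`. -/
def Fre (g : O ⊕ Fin b) (m : Mo O b) : Prop := ∀ i, g = Sum.inl i → i ∉ m.1

/-- The monomial `m` times `g`. -/
noncomputable def ins (g : O ⊕ Fin b) (m : Mo O b) : Mo O b :=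
  Sum.elim (fun i => (insert i m.1, m.2)) (fun j => (m.1, m.2 + Finsupp.single j 1)) g

theorem co_dd_inl (i : O) (m : Mo O b) (hi : i ∉ m.1) :
    ∃ u : ℤˣ, ∀ w : AA R O b, co m (dd (Sum.inl i) w) = u • co (ins (Sum.inl i) m) w := by
  rcases dd_inl_mon (R := R) i (insert i m.1, m.2) with ⟨h, -⟩ | ⟨-, u, hu⟩
  · exact absurd (Finset.mem_insert_self i m.1) h
  · have hu' : dd (R := R) (Sum.inl i) (mon (ins (Sum.inl i) m)) = u • mon m := by
      refine hu.trans ?_
      rw [Finset.erase_insert hi]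
    refine ⟨u, fun w => ?_⟩
    refine lin_ext (f := co m ∘ₗ dd (Sum.inl i)) (g := (u : ℤ) • co (ins (Sum.inl i) m)) ?_ w
    intro m'
    rw [LinearMap.comp_apply, LinearMap.smul_apply]
    change co m (dd (Sum.inl i) (mon m')) = u • co (ins (Sum.inl i) m) (mon (R := R) m')
    by_cases h : m' = ins (Sum.inl i) m
    · subst h
      rw [hu', co_units, co_mon, if_pos rfl, co_mon, if_pos rfl]
    · rw [co_mon, if_neg h, smul_zero]
      rcases dd_inl_mon (R := R) i m' with ⟨-, h1⟩ | ⟨h1, u', hu1⟩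
      · rw [h1, map_zero]
      · rw [hu1, co_units, co_mon, if_neg, smul_zero]
        rintro rfl
        apply h
        exact Prod.ext (Finset.insert_erase h1).symm rfl

theorem co_dd_inl_zero (i : O) (m : Mo O b) (hi : i ∈ m.1) (w : AA R O b) :
    co m (dd (Sum.inl i) w) = 0 := by
  refine lin_ext (f := co m ∘ₗ dd (Sum.inl i)) (g := 0) ?_ w
  intro m'
  rw [LinearMap.comp_apply, LinearMap.zero_apply]
  rcases dd_inl_mon (R := R) i m' with ⟨-, h1⟩ | ⟨h1, u', hu1⟩
  · rw [h1, map_zero]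
  · rw [hu1, co_units, co_mon, if_neg, smul_zero]
    rintro rfl
    exact absurd hi (Finset.notMem_erase i _)

theorem co_dd_inr (j : Fin b) (m : Mo O b) (w : AA R O b) :
    co m (dd (Sum.inr j) w) = (m.2 j + 1) • co (ins (Sum.inr j) m) w := by
  refine lin_ext (f := co m ∘ₗ dd (Sum.inr j)) (g := (m.2 j + 1) • co (ins (Sum.inr j) m)) ?_ w
  intro m'
  rw [LinearMap.comp_apply, LinearMap.smul_apply, dd_inr_mon, map_nsmul, co_mon, co_mon]
  by_cases h : m' = ins (Sum.inr j) m
  · subst h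
    have h1 : (ins (Sum.inr j) m).2 j = m.2 j + 1 := by
      change (m.2 + Finsupp.single j 1 : Fin b →₀ ℕ) j = _
      rw [Finsupp.add_apply, Finsupp.single_eq_same]
    rw [h1, if_pos rfl, if_pos]
    refine Prod.ext rfl ?_
    change m.2 + Finsupp.single j 1 - Finsupp.single j 1 = m.2
    rw [add_tsub_cancel_right]
  · rw [if_neg h, smul_zero]
    by_cases h2 : m'.2 j = 0
    · rw [h2, zero_smul]
    · rw [if_neg, smul_zero]
      rintro rfl
      apply h
      refine Prod.ext rfl ?_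
      change m'.2 = m'.2 - Finsupp.single j 1 + Finsupp.single j 1
      rw [tsub_add_cancel_of_le]
      rw [Finsupp.single_le_iff]
      omega

theorem co_gg_inl (i : O) (m : Mo O b) (hi : i ∉ m.1) :
    ∃ u : ℤˣ, ∀ w : AA R O b, co (ins (Sum.inl i) m) (gg (Sum.inl i) * w) = u • co m w := by
  rcases gg_inl_mul_mon (R := R) i m with ⟨h, -⟩ | ⟨-, u, hu⟩
  · exact absurd h hi
  · refine ⟨u, fun w => ?_⟩
    refine lin_ext (f := co (ins (Sum.inl i) m) ∘ₗ LinearMap.mulLeft R (gg (Sum.inl i)))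
      (g := (u : ℤ) • co m) ?_ w
    intro m'
    rw [LinearMap.comp_apply, LinearMap.smul_apply, LinearMap.mulLeft_apply]
    change co (ins (Sum.inl i) m) (gg (Sum.inl i) * mon m') = u • co m (mon (R := R) m')
    by_cases h : m' = m
    · subst h
      rw [hu, co_units, co_mon, if_pos, co_mon, if_pos rfl]
      rfl
    · rw [co_mon, if_neg h, smul_zero]
      rcases gg_inl_mul_mon (R := R) i m' with ⟨-, h1⟩ | ⟨h1, u', hu1⟩
      · rw [h1, map_zero]
      · rw [hu1, co_units, co_mon, if_neg, smul_zero]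
        intro h2
        apply h
        obtain ⟨h3, h4⟩ := Prod.ext_iff.1 h2
        change insert i m'.1 = insert i m.1 at h3
        change m'.2 = m.2 at h4
        refine Prod.ext ?_ h4
        rw [← Finset.erase_insert h1, h3, Finset.erase_insert hi]

theorem co_gg_inl_zero (i : O) (m : Mo O b) (hi : i ∉ m.1) (w : AA R O b) :
    co m (gg (Sum.inl i) * w) = 0 := by
  refine lin_ext (f := co m ∘ₗ LinearMap.mulLeft R (gg (Sum.inl i))) (g := 0) ?_ w
  intro m'
  rw [LinearMap.comp_apply, LinearMap.zero_apply, LinearMap.mulLeft_apply]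
  rcases gg_inl_mul_mon (R := R) i m' with ⟨-, h1⟩ | ⟨h1, u', hu1⟩
  · rw [h1, map_zero]
  · rw [hu1, co_units, co_mon, if_neg, smul_zero]
    rintro rfl
    exact absurd (Finset.mem_insert_self i m'.1) hi

theorem co_gg_inr (j : Fin b) (m : Mo O b) (w : AA R O b) :
    co (ins (Sum.inr j) m) (gg (Sum.inr j) * w) = co m w := by
  refine lin_ext (f := co (ins (Sum.inr j) m) ∘ₗ LinearMap.mulLeft R (gg (Sum.inr j)))
    (g := co m) ?_ w
  intro m'
  rw [LinearMap.comp_apply, LinearMap.mulLeft_apply, gg_inr_mul_mon, co_mon, co_mon]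
  by_cases h : m' = m
  · subst h
    rw [if_pos rfl, if_pos]
    rfl
  · rw [if_neg h, if_neg]
    intro h2
    apply h
    obtain ⟨h3, h4⟩ := Prod.ext_iff.1 h2
    change m'.1 = m.1 at h3
    change m'.2 + Finsupp.single j 1 = m.2 + Finsupp.single j 1 at h4
    exact Prod.ext h3 (add_right_cancel h4)

theorem co_gg_inr_zero (j : Fin b) (m : Mo O b) (hj : m.2 j = 0) (w : AA R O b) :
    co m (gg (Sum.inr j) * w) = 0 := by
  refine lin_ext (f := co m ∘ₗ LinearMap.mulLeft R (gg (Sum.inr j))) (g := 0) ?_ w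
  intro m'
  rw [LinearMap.comp_apply, LinearMap.zero_apply, LinearMap.mulLeft_apply, gg_inr_mul_mon, co_mon,
    if_neg]
  rintro rfl
  rw [Finsupp.add_apply, Finsupp.single_eq_same] at hj
  omega

theorem co_int [Algebra ℚ R] (j : Fin b) (m : Mo O b) (w : AA R O b) :
    co (ins (Sum.inr j) m) (int j w) = algebraMap ℚ R (1 / ((m.2 j : ℚ) + 1)) * co m w := by
  refine lin_ext (f := co (ins (Sum.inr j) m) ∘ₗ int j)
    (g := algebraMap ℚ R (1 / ((m.2 j : ℚ) + 1)) • co m) ?_ w
  intro m'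
  rw [LinearMap.comp_apply, LinearMap.smul_apply, int_mon, map_smul, co_mon, co_mon]
  by_cases h : m' = m
  · subst h
    rw [if_pos rfl, if_pos]
    rfl
  · rw [if_neg h, if_neg, smul_zero, smul_zero]
    intro h2
    apply h
    obtain ⟨h3, h4⟩ := Prod.ext_iff.1 h2
    change m'.1 = m.1 at h3
    change m'.2 + Finsupp.single j 1 = m.2 + Finsupp.single j 1 at h4
    exact Prod.ext h3 (add_right_cancel h4)

theorem co_int_zero [Algebra ℚ R] (j : Fin b) (m : Mo O b) (hj : m.2 j = 0) (w : AA R O b) :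
    co m (int j w) = 0 := by
  refine lin_ext (f := co m ∘ₗ int j) (g := 0) ?_ w
  intro m'
  rw [LinearMap.comp_apply, LinearMap.zero_apply, int_mon, map_smul, co_mon, if_neg, smul_zero]
  rintro rfl
  rw [Finsupp.add_apply, Finsupp.single_eq_same] at hj
  omega

theorem dd_int [Algebra ℚ R] (j : Fin b) (w : AA R O b) : dd (Sum.inr j) (int j w) = w := by
  apply co_ext
  intro m
  rw [co_dd_inr, co_int, ← mul_smul_comm, nsmul_eq_mul, ← mul_assoc, mul_comm _ ((_ : ℕ) : R),
    mul_assoc, ← mul_assoc]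
  have h : (((m.2 j + 1 : ℕ) : R)) * algebraMap ℚ R (1 / ((m.2 j : ℚ) + 1)) = 1 := by
    rw [← map_natCast (algebraMap ℚ R), ← map_mul]
    have : ((m.2 j + 1 : ℕ) : ℚ) * (1 / ((m.2 j : ℚ) + 1)) = 1 := by
      push_cast
      field_simp
    rw [this, map_one]
  rw [h, one_mul]

end Pool.Agent.Helper44.QB
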