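import Mathlib
import Pool.Agent.Helper44.QB.Co

/-!
PROJECT QB. The subspaces `Pc (Cd δ T n φ)` and the operators.
-/

set_option autoImplicit false

open scoped TensorProduct
open Pool.Agent.Helper44.QA

namespace Pool.Agent.Helper44.QB

universe u

variable {k R : Type u} [Field k] [CommRing R] [Algebra k R]
  {O : Type} [Fintype O] [LinearOrder O] {b : ℕ}

theorem mem_Pc {C : Mo O b → Submodule k R} {w : AA R O b} : w ∈ Pc C ↔ ∀ m, co m w ∈ C m :=
  Iff.rfl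

theorem smul_mon_mem {C : Mo O b → Submodule k R} {m : Mo O b} {r : R} (hr : r ∈ C m) :
    r • mon m ∈ Pc C := by
  intro m'
  rw [map_smul, co_mon, smul_eq_mul]
  by_cases h : m = m'
  · subst h
    rwa [if_pos rfl, mul_one]
  · rw [if_neg h, mul_zero]
    exact (C m').zero_mem

theorem units_mem {C : Submodule k R} {r : R} (u : ℤˣ) (hr : r ∈ C) : u • r ∈ C := by
  rcases Int.units_eq_one_or u with rfl | rfl
  · rwa [one_smul]
  · rw [Units.neg_smul, one_smul]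
    exact C.neg_mem hr

theorem Pc_mul {C C' C'' : Mo O b → Submodule k R}
    (h : ∀ m m', Disjoint m.1 m'.1 → ∀ r ∈ C m, ∀ r' ∈ C' m', r * r' ∈ C'' (madd m m'))
    {w w' : AA R O b} (hw : w ∈ Pc C) (hw' : w' ∈ Pc C') : w * w' ∈ Pc C'' := by
  obtain ⟨s, hs, -⟩ := exists_sum w
  obtain ⟨t, ht, -⟩ := exists_sum w'
  rw [hs, ht, Finset.sum_mul_sum]
  refine Submodule.sum_mem _ fun m _ => Submodule.sum_mem _ fun m' _ => ?_
  rw [smul_mul_smul_comm]
  rcases mon_mul (R := R) m m' with ⟨-, h1⟩ | ⟨hd, u, h1⟩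
  · rw [h1, smul_zero]
    exact Submodule.zero_mem _
  · have h2 := smul_mon_mem (C := C'') (h m m' hd _ (hw m) _ (hw' m'))
    rw [h1]
    rcases Int.units_eq_one_or u with rfl | rfl
    · rwa [one_smul]
    · rw [Units.neg_smul, one_smul, smul_neg]
      exact Submodule.neg_mem _ h2

section Lin

omit [Fintype O] in
theorem lin_ins (δ : O ⊕ Fin b → ℤ) {g : O ⊕ Fin b} {m : Mo O b} (h : Fre g m) :
    lin δ (ins g m) = lin δ m + δ g := by
  cases g with
  | inl i =>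
    change ∑ i ∈ insert i m.1, δ (Sum.inl i) + _ = _
    rw [Finset.sum_insert (h i rfl)]
    unfold lin
    ring_nf
    rfl
  | inr j =>
    unfold lin
    change ∑ i ∈ m.1, δ (Sum.inl i) + ∑ j', ((m.2 + Finsupp.single j 1 : Fin b →₀ ℕ) j' : ℤ) *
      δ (Sum.inr j') = _
    have h1 : ∀ j', ((m.2 + Finsupp.single j 1 : Fin b →₀ ℕ) j' : ℤ) * δ (Sum.inr j') =
        (m.2 j' : ℤ) * δ (Sum.inr j') + (if j = j' then δ (Sum.inr j') else 0) := by
      intro j'
      rw [Finsupp.add_apply, Finsupp.single_apply]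
      split_ifs
      · push_cast
        ring
      · push_cast
        ring
    rw [Finset.sum_congr rfl fun j' _ => h1 j', Finset.sum_add_distrib, Finset.sum_ite_eq,
      if_pos (Finset.mem_univ _)]
    ring

omit [Fintype O] in
theorem lin_madd (δ : O ⊕ Fin b → ℤ) {m m' : Mo O b} (h : Disjoint m.1 m'.1) :
    lin δ (madd m m') = lin δ m + lin δ m' := by
  unfold lin madd
  rw [Finset.sum_union h]
  have h1 : ∀ j, ((m.2 + m'.2 : Fin b →₀ ℕ) j : ℤ) * δ (Sum.inr j) =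
      (m.2 j : ℤ) * δ (Sum.inr j) + (m'.2 j : ℤ) * δ (Sum.inr j) := by
    intro j
    rw [Finsupp.add_apply]
    push_cast
    ring
  rw [Finset.sum_congr rfl fun j _ => h1 j, Finset.sum_add_distrib]
  ring

omit [Fintype O] [LinearOrder O] in
theorem lin_nonneg {δ : O ⊕ Fin b → ℤ} (h : ∀ g, 0 ≤ δ g) (m : Mo O b) : 0 ≤ lin δ m :=
  add_nonneg (Finset.sum_nonneg fun i _ => h _)
    (Finset.sum_nonneg fun j _ => mul_nonneg (by positivity) (h _))

omit [Fintype O] in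
theorem suppIn_ins {T : Set (O ⊕ Fin b)} {g : O ⊕ Fin b} {m : Mo O b} :
    SuppIn T (ins g m) ↔ g ∈ T ∧ SuppIn T m := by
  cases g with
  | inl i =>
    unfold SuppIn ins
    simp only [Sum.elim_inl, Finset.mem_insert, forall_eq_or_imp]
    tauto
  | inr j =>
    unfold SuppIn ins
    simp only [Sum.elim_inr, Finsupp.add_apply]
    constructor
    · rintro ⟨h1, h2⟩
      refine ⟨h2 j ?_, h1, fun j' hj' => h2 j' ?_⟩
      · rw [Finsupp.single_eq_same]
        omega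
      · omega
    · rintro ⟨h0, h1, h2⟩
      refine ⟨h1, fun j' hj' => ?_⟩
      by_cases h : j = j'
      · subst h
        exact h0
      · rw [Finsupp.single_eq_of_ne' h, add_zero] at hj'
        exact h2 j' hj'

omit [Fintype O] in
theorem suppIn_madd {T : Set (O ⊕ Fin b)} {m m' : Mo O b} (h : SuppIn T m) (h' : SuppIn T m') :
    SuppIn T (madd m m') := by
  refine ⟨fun i hi => ?_, fun j hj => ?_⟩
  · rcases Finset.mem_union.1 hi with h1 | h1
    · exact h.1 i h1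
    · exact h'.1 i h1
  · change (m.2 + m'.2 : Fin b →₀ ℕ) j ≠ 0 at hj
    rw [Finsupp.add_apply] at hj
    by_cases h0 : m.2 j = 0
    · exact h'.2 j (by omega)
    · exact h.2 j h0

omit [Fintype O] [LinearOrder O] in
theorem SuppIn.mono {T T' : Set (O ⊕ Fin b)} (hT : T ⊆ T') {m : Mo O b} (h : SuppIn T m) :
    SuppIn T' m :=
  ⟨fun i hi => hT (h.1 i hi), fun j hj => hT (h.2 j hj)⟩

end Lin

section Cd

omit [Fintype O] [LinearOrder O] in
theorem mem_Cd {δ : O ⊕ Fin b → ℤ} {T : Set (O ⊕ Fin b)} {n : ℤ} {φ : Mo O b → Submodule k R}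
    {m : Mo O b} {r : R} : r ∈ Cd δ T n φ m ↔ (r ≠ 0 → SuppIn T m ∧ lin δ m = n) ∧ r ∈ φ m := by
  unfold Cd
  by_cases h : SuppIn T m ∧ lin δ m = n
  · rw [if_pos h]
    exact ⟨fun h1 => ⟨fun _ => h, h1⟩, fun h1 => h1.2⟩
  · rw [if_neg h, Submodule.mem_bot]
    constructor
    · rintro rfl
      exact ⟨fun h0 => absurd rfl h0, (φ m).zero_mem⟩
    · rintro ⟨h1, -⟩
      by_contra h2
      exact h (h1 h2)

variable {δ : O ⊕ Fin b → ℤ} {T T' : Set (O ⊕ Fin b)} {n n' : ℤ} {φ φ' φ'' : Mo O b → Submodule k R}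

theorem Pc_mono (hT : T ⊆ T') (hφ : ∀ m, SuppIn T m → lin δ m = n → φ m ≤ φ' m) {w : AA R O b}
    (hw : w ∈ Pc (Cd δ T n φ)) : w ∈ Pc (Cd δ T' n φ') := by
  intro m
  obtain ⟨h1, h2⟩ := mem_Cd.1 (hw m)
  refine mem_Cd.2 ⟨fun h0 => ⟨(h1 h0).1.mono hT, (h1 h0).2⟩, ?_⟩
  by_cases h0 : co m w = 0
  · rw [h0]
    exact (φ' m).zero_mem
  · exact hφ m (h1 h0).1 (h1 h0).2 h2

theorem mul_mem (h : ∀ m m', Disjoint m.1 m'.1 → ∀ r ∈ φ m, ∀ r' ∈ φ' m', r * r' ∈ φ'' (madd m m'))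
    {w w' : AA R O b} (hw : w ∈ Pc (Cd δ T n φ)) (hw' : w' ∈ Pc (Cd δ T n' φ')) :
    w * w' ∈ Pc (Cd δ T (n + n') φ'') := by
  refine Pc_mul ?_ hw hw'
  intro m m' hd r hr r' hr'
  obtain ⟨h1, h2⟩ := mem_Cd.1 hr
  obtain ⟨h3, h4⟩ := mem_Cd.1 hr'
  refine mem_Cd.2 ⟨fun h0 => ?_, h m m' hd r h2 r' h4⟩
  have h5 := h1 (left_ne_zero_of_mul h0)
  have h6 := h3 (right_ne_zero_of_mul h0)
  refine ⟨suppIn_madd h5.1 h6.1, ?_⟩
  rw [lin_madd δ hd, h5.2, h6.2]

theorem one_mem (h : (1 : R) ∈ φ (∅, 0)) : (1 : AA R O b) ∈ Pc (Cd δ T 0 φ) := by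
  rw [← mon_zero, ← one_smul R (mon (R := R) ((∅, 0) : Mo O b))]
  refine smul_mon_mem (mem_Cd.2 ⟨fun _ => ⟨⟨fun i hi => absurd hi (Finset.notMem_empty i),
    fun j hj => absurd rfl hj⟩, ?_⟩, h⟩)
  unfold lin
  simp

theorem gg_mem {g : O ⊕ Fin b} (hg : g ∈ T) (h : (1 : R) ∈ φ (ins g (∅, 0))) :
    (gg g : AA R O b) ∈ Pc (Cd δ T (δ g) φ) := by
  have h1 : (gg g : AA R O b) = mon (ins g (∅, 0)) := by
    cases g with
    | inl i => exact gg_inl i
    | inr j =>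
      rw [gg_inr]
      unfold ins
      simp
  rw [h1, ← one_smul R (mon (R := R) (ins g (∅, 0)))]
  have h2 : SuppIn T ((∅, 0) : Mo O b) := ⟨fun i hi => absurd hi (Finset.notMem_empty i),
    fun j hj => absurd rfl hj⟩
  refine smul_mon_mem (mem_Cd.2 ⟨fun _ => ⟨suppIn_ins.2 ⟨hg, h2⟩, ?_⟩, h⟩)
  rw [lin_ins δ (fun i _ => Finset.notMem_empty i)]
  unfold lin
  simp

/-- Membership of a coordinate after a partial derivative. -/
theorem dd_mem {g : O ⊕ Fin b} (h : ∀ m, Fre g m → φ (ins g m) ≤ φ' m) {w : AA R O b}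
    (hw : w ∈ Pc (Cd δ T n φ)) : dd g w ∈ Pc (Cd δ T (n - δ g) φ') := by
  intro m
  have key : Fre g m → ∀ r ∈ Cd δ T n φ (ins g m), r ∈ Cd δ T (n - δ g) φ' m := by
    intro hf r hr
    obtain ⟨h1, h2⟩ := mem_Cd.1 hr
    refine mem_Cd.2 ⟨fun h0 => ?_, h m hf h2⟩
    obtain ⟨h3, h4⟩ := h1 h0
    rw [lin_ins δ hf] at h4
    exact ⟨(suppIn_ins.1 h3).2, by omega⟩
  cases g with
  | inl i =>
    by_cases hi : i ∈ m.1
    · rw [co_dd_inl_zero i m hi]
      exact Submodule.zero_mem _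
    · have hf : Fre (Sum.inl i) m := fun i' h' => by
        cases h'
        exact hi
      obtain ⟨u, hu⟩ := co_dd_inl (R := R) i m hi
      rw [hu]
      exact units_mem u (key hf _ (hw _))
  | inr j =>
    have hf : Fre (Sum.inr j) m := fun i' h' => by cases h'
    rw [co_dd_inr]
    exact Submodule.smul_of_tower_mem _ _ (key hf _ (hw _))

theorem dd_eq_zero {g : O ⊕ Fin b} (hg : g ∉ T) {w : AA R O b}
    (hw : w ∈ Pc (Cd δ T n φ)) : dd g w = 0 := by
  apply co_ext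
  intro m
  rw [map_zero]
  have key : co (ins g m) w = 0 := by
    by_contra h0
    exact hg (suppIn_ins.1 ((mem_Cd.1 (hw (ins g m))).1 h0).1).1
  cases g with
  | inl i =>
    by_cases hi : i ∈ m.1
    · rw [co_dd_inl_zero i m hi]
    · obtain ⟨u, hu⟩ := co_dd_inl (R := R) i m hi
      rw [hu, key, smul_zero]
  | inr j => rw [co_dd_inr, key, smul_zero]

omit [Fintype O] in
theorem suppIn_diff {T : Set (O ⊕ Fin b)} {m : Mo O b} {g : O ⊕ Fin b} (h : SuppIn T m)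
    (h' : ∀ m', Fre g m' → m ≠ ins g m') : SuppIn (T \ {g}) m := by
  refine ⟨fun i hi => ⟨h.1 i hi, ?_⟩, fun j hj => ⟨h.2 j hj, ?_⟩⟩
  · rintro rfl
    refine h' (m.1.erase i, m.2) ?_ ?_
    · intro i' hi'
      cases hi'
      exact Finset.notMem_erase i _
    · exact Prod.ext (Finset.insert_erase hi).symm rfl
  · rintro rfl
    refine h' (m.1, m.2 - Finsupp.single j 1) (fun i' hi' => by cases hi') ?_
    refine Prod.ext rfl ?_
    change m.2 = m.2 - Finsupp.single j 1 + Finsupp.single j 1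
    rw [tsub_add_cancel_of_le]
    rw [Finsupp.single_le_iff]
    omega

/-- The kernel of a partial derivative. -/
theorem ker_dd [CharZero k] {g : O ⊕ Fin b} {w : AA R O b} (hw : w ∈ Pc (Cd δ T n φ))
    (h : dd g w = 0) : w ∈ Pc (Cd δ (T \ {g}) n φ) := by
  intro m
  obtain ⟨h1, h2⟩ := mem_Cd.1 (hw m)
  refine mem_Cd.2 ⟨fun h0 => ⟨suppIn_diff (h1 h0).1 ?_, (h1 h0).2⟩, h2⟩
  rintro m' hf rfl
  apply h0
  have h3 : co m' (dd g w) = 0 := by rw [h, map_zero]
  cases g with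
  | inl i =>
    obtain ⟨u, hu⟩ := co_dd_inl (R := R) i m' (hf i rfl)
    rw [hu] at h3
    rcases Int.units_eq_one_or u with rfl | rfl
    · rwa [one_smul] at h3
    · rw [Units.neg_smul, one_smul, neg_eq_zero] at h3
      exact h3
  | inr j =>
    rw [co_dd_inr] at h3
    have h4 : ((m'.2 j + 1 : ℕ) : k) ≠ 0 := Nat.cast_ne_zero.2 (Nat.succ_ne_zero (m'.2 j))
    have h5 : ((m'.2 j + 1 : ℕ) : k) • co (ins (Sum.inr j) m') w = 0 := by
      rw [Nat.cast_smul_eq_nsmul, h3]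
    exact (smul_eq_zero_iff_right h4).1 h5

theorem gg_mul_mem {g : O ⊕ Fin b} (hg : g ∈ T) (h : ∀ m, Fre g m → φ m ≤ φ' (ins g m))
    {w : AA R O b} (hw : w ∈ Pc (Cd δ T n φ)) : gg g * w ∈ Pc (Cd δ T (n + δ g) φ') := by
  intro m
  have key : ∀ m', Fre g m' → ∀ r ∈ Cd δ T n φ m', r ∈ Cd δ T (n + δ g) φ' (ins g m') := by
    intro m' hf r hr
    obtain ⟨h1, h2⟩ := mem_Cd.1 hr
    refine mem_Cd.2 ⟨fun h0 => ?_, h m' hf h2⟩
    obtain ⟨h3, h4⟩ := h1 h0
    rw [lin_ins δ hf, h4]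
    exact ⟨suppIn_ins.2 ⟨hg, h3⟩, rfl⟩
  cases g with
  | inl i =>
    by_cases hi : i ∈ m.1
    · have hm : m = ins (Sum.inl i) (m.1.erase i, m.2) :=
        Prod.ext (Finset.insert_erase hi).symm rfl
      have hf : Fre (Sum.inl i) (m.1.erase i, m.2) := fun i' h' => by
        cases h'
        exact Finset.notMem_erase i _
      obtain ⟨u, hu⟩ := co_gg_inl (R := R) i (m.1.erase i, m.2) (hf i rfl)
      rw [hm, hu]
      exact units_mem u (key _ hf _ (hw _))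
    · rw [co_gg_inl_zero i m hi]
      exact Submodule.zero_mem _
  | inr j =>
    by_cases hj : m.2 j = 0
    · rw [co_gg_inr_zero j m hj]
      exact Submodule.zero_mem _
    · have hm : m = ins (Sum.inr j) (m.1, m.2 - Finsupp.single j 1) := by
        refine Prod.ext rfl ?_
        change m.2 = m.2 - Finsupp.single j 1 + Finsupp.single j 1
        rw [tsub_add_cancel_of_le]
        rw [Finsupp.single_le_iff]
        omega
      rw [hm, co_gg_inr]
      exact key _ (fun i' hi' => by cases hi') _ (hw _)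

theorem int_mem [CharZero k] [Algebra ℚ R] {j : Fin b} (hg : Sum.inr j ∈ T)
    (h : ∀ m, φ m ≤ φ' (ins (Sum.inr j) m))
    {w : AA R O b} (hw : w ∈ Pc (Cd δ T n φ)) :
    int j w ∈ Pc (Cd δ T (n + δ (Sum.inr j)) φ') := by
  intro m
  by_cases hj : m.2 j = 0
  · rw [co_int_zero j m hj]
    exact Submodule.zero_mem _
  · have hm : m = ins (Sum.inr j) (m.1, m.2 - Finsupp.single j 1) := by
      refine Prod.ext rfl ?_
      change m.2 = m.2 - Finsupp.single j 1 + Finsupp.single j 1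
      rw [tsub_add_cancel_of_le]
      rw [Finsupp.single_le_iff]
      omega
    rw [hm, co_int]
    generalize ((m.1, m.2 - Finsupp.single j 1) : Mo O b) = m'
    have hf : Fre (Sum.inr j) m' := fun i' hi' => by cases hi'
    obtain ⟨h1, h2⟩ := mem_Cd.1 (hw m')
    have h5 : algebraMap ℚ R (1 / ((m'.2 j : ℚ) + 1)) * co m' w =
        (((1 / ((m'.2 j : ℚ) + 1) : ℚ) : k)) • co m' w := by
      rw [Algebra.smul_def]
      congr 1
      have : (algebraMap k R).comp (Rat.castHom k) = algebraMap ℚ R := Subsingleton.elim _ _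
      rw [← this]
      rfl
    rw [h5]
    refine Submodule.smul_mem _ _ (mem_Cd.2 ⟨fun h0 => ?_, h m' h2⟩)
    obtain ⟨h3, h4⟩ := h1 h0
    rw [lin_ins δ hf, h4]
    exact ⟨suppIn_ins.2 ⟨hg, h3⟩, rfl⟩

end Cd

end Pool.Agent.Helper44.QB
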