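import Mathlib
import Pool.Agent.Helper44.QB.PcL

/-!
PROJECT QB. Parity, supercommutation, the Leibniz rule, commutation with the partial derivatives.
-/

set_option autoImplicit false

open scoped TensorProduct
open Pool.Agent.Helper44.QA

namespace Pool.Agent.Helper44.QB

universe u

variable {R : Type u} [CommRing R] {O : Type} [Fintype O] [LinearOrder O] {b : ℕ}

/-- Even elements. -/
def EvenEl (w : AA R O b) : Prop := ∀ m, co m w ≠ 0 → Even m.1.card

/-- Odd elements. -/
def OddEl (w : AA R O b) : Prop := ∀ m, co m w ≠ 0 → Odd m.1.card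

/-- `eps` or the identity. -/
noncomputable def epn (n : ℕ) (w : AA R O b) : AA R O b :=
  if Even n then w else eps R b (O → R) w

omit [Fintype O] [LinearOrder O] in
theorem eps_epn (n : ℕ) (w : AA R O b) : eps R b (O → R) (epn n w) = epn (n + 1) w := by
  unfold epn
  by_cases h : Even n
  · rw [if_pos h, if_neg]
    simpa [Nat.even_add_one] using h
  · rw [if_neg h, if_pos, eps_eps]
    simpa [Nat.even_add_one] using h

omit [Fintype O] [LinearOrder O] in
theorem units_mul (u : ℤˣ) (x y : AA R O b) : (u • x) * y = u • (x * y) := by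
  rcases Int.units_eq_one_or u with rfl | rfl
  · rw [one_smul, one_smul]
  · rw [Units.neg_smul, one_smul, Units.neg_smul, one_smul, neg_mul]

omit [Fintype O] [LinearOrder O] in
theorem mul_units (u : ℤˣ) (x y : AA R O b) : x * (u • y) = u • (x * y) := by
  rcases Int.units_eq_one_or u with rfl | rfl
  · rw [one_smul, one_smul]
  · rw [Units.neg_smul, one_smul, Units.neg_smul, one_smul, mul_neg]

theorem mon_insert (a : O) (S : Finset O) (α : Fin b →₀ ℕ) (ha : a ∉ S) :
    ∃ u : ℤˣ, mon (R := R) ((insert a S, α) : Mo O b) = u • (gg (Sum.inl a) * mon (S, α)) := by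
  rcases gg_inl_mul_mon (R := R) a (S, α) with ⟨h, -⟩ | ⟨-, u, hu⟩
  · exact absurd h ha
  · exact ⟨u, by rw [hu, smul_smul, Int.units_mul_self, one_smul]⟩

theorem mon_even_comm (α : Fin b →₀ ℕ) (u : AA R O b) :
    mon (R := R) ((∅, α) : Mo O b) * u = u * mon (∅, α) := by
  have h : mon (R := R) ((∅, α) : Mo O b) = inP R b (O → R) (MvPolynomial.monomial α 1) := by
    unfold mon
    rw [bas_empty]
    rfl
  rw [h]
  exact (inP_even (V := O → R) (MvPolynomial.monomial α 1)).2 u

theorem mon_mul_comm (m : Mo O b) (u : AA R O b) : mon m * u = epn m.1.card u * mon m := by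
  obtain ⟨S, α⟩ := m
  induction S using Finset.induction_on with
  | empty =>
    unfold epn
    rw [if_pos (by simp), mon_even_comm]
  | insert a S ha ih =>
    obtain ⟨v, hv⟩ := mon_insert (R := R) a S α ha
    change _ = epn (insert a S).card u * _
    change mon (S, α) * u = epn S.card u * _ at ih
    rw [hv, units_mul, mul_units, mul_assoc, ih, Finset.card_insert_of_notMem ha, ← eps_epn,
      ← mul_assoc, ← mul_assoc]
    congr 2
    have := mul_xx (b := b) (Pi.single a (1 : R) : O → R) (eps R b (O → R) (epn S.card u))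
    rw [eps_eps] at this
    exact this.symm

theorem eps_mon (m : Mo O b) : eps R b (O → R) (mon m) = if Even m.1.card then mon m else -mon m := by
  obtain ⟨S, α⟩ := m
  induction S using Finset.induction_on with
  | empty =>
    have h : mon (R := R) ((∅, α) : Mo O b) = inP R b (O → R) (MvPolynomial.monomial α 1) := by
      unfold mon
      rw [bas_empty]
      rfl
    rw [if_pos (by simp), h, (inP_even (V := O → R) (MvPolynomial.monomial α 1)).1]
  | insert a S ha ih =>
    obtain ⟨v, hv⟩ := mon_insert (R := R) a S α ha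
    have h1 : eps R b (O → R) (gg (Sum.inl a) * mon (S, α)) =
        if Even (insert a S).card then gg (Sum.inl a) * mon (S, α)
          else -(gg (Sum.inl a) * mon (S, α)) := by
      have h2 : eps R b (O → R) (gg (Sum.inl a)) = -gg (Sum.inl a) := eps_xx _
      rw [map_mul, h2, ih, Finset.card_insert_of_notMem ha]
      simp only [Nat.even_add_one]
      by_cases h : Even S.card
      · rw [if_pos h, if_neg (not_not.2 h), neg_mul]
      · rw [if_neg h, if_pos h, neg_mul_neg]
    change _ = if Even (insert a S).card then _ else _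
    rw [hv]
    rcases Int.units_eq_one_or v with rfl | rfl
    · rw [one_smul, h1]
    · rw [Units.neg_smul, one_smul, map_neg, h1]
      split_ifs
      · rfl
      · rfl

theorem co_eps (m : Mo O b) (w : AA R O b) :
    co m (eps R b (O → R) w) = if Even m.1.card then co m w else -co m w := by
  by_cases h : Even m.1.card
  · rw [if_pos h]
    refine lin_ext (f := co m ∘ₗ (eps R b (O → R)).toLinearMap) (g := co m) (fun m' => ?_) w
    rw [LinearMap.comp_apply, AlgHom.toLinearMap_apply, eps_mon]
    by_cases h1 : m' = m
    · subst h1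
      rw [if_pos h]
    · split_ifs
      · rfl
      · rw [map_neg, co_mon, if_neg h1, neg_zero]
  · rw [if_neg h]
    refine lin_ext (f := co m ∘ₗ (eps R b (O → R)).toLinearMap) (g := -co m) (fun m' => ?_) w
    rw [LinearMap.comp_apply, AlgHom.toLinearMap_apply, eps_mon, LinearMap.neg_apply]
    by_cases h1 : m' = m
    · subst h1
      rw [if_neg h, map_neg]
    · split_ifs
      · rw [co_mon, if_neg h1, neg_zero]
      · rw [map_neg]

theorem EvenEl.eps {w : AA R O b} (h : EvenEl w) : eps R b (O → R) w = w := by
  apply co_ext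
  intro m
  rw [co_eps]
  by_cases h0 : co m w = 0
  · rw [h0]
    simp
  · rw [if_pos (h m h0)]

theorem OddEl.eps {w : AA R O b} (h : OddEl w) : QA.eps R b (O → R) w = -w := by
  apply co_ext
  intro m
  rw [co_eps, map_neg]
  by_cases h0 : co m w = 0
  · rw [h0]
    simp
  · rw [if_neg (Nat.not_even_iff_odd.2 (h m h0))]

theorem EvenEl.comm {w : AA R O b} (h : EvenEl w) (u : AA R O b) : w * u = u * w := by
  obtain ⟨s, hs, -⟩ := exists_sum w
  rw [hs, Finset.sum_mul, Finset.mul_sum]
  refine Finset.sum_congr rfl fun m _ => ?_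
  rw [smul_mul_assoc, mul_smul_comm, mon_mul_comm]
  by_cases h0 : co m w = 0
  · rw [h0, zero_smul, zero_smul]
  · unfold epn
    rw [if_pos (h m h0)]

theorem OddEl.comm {w : AA R O b} (h : OddEl w) (u : AA R O b) :
    w * u = QA.eps R b (O → R) u * w := by
  obtain ⟨s, hs, -⟩ := exists_sum w
  rw [hs, Finset.sum_mul, Finset.mul_sum]
  refine Finset.sum_congr rfl fun m _ => ?_
  rw [smul_mul_assoc, mul_smul_comm, mon_mul_comm]
  by_cases h0 : co m w = 0
  · rw [h0, zero_smul, zero_smul]
  · unfold epn
    rw [if_neg (Nat.not_even_iff_odd.2 (h m h0))]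

omit [Fintype O] [LinearOrder O] in
theorem par_par (i j : Fin b) (w : AA R O b) :
    par i (par j w) = par j (par i w) := by
  induction w using BB_ind with
  | h1 => rw [par_one, par_one, map_zero, map_zero]
  | hadd u w hu hw => rw [map_add, map_add, hu, hw, map_add, map_add]
  | hsmul r w hw => rw [map_smul, map_smul, hw, map_smul, map_smul]
  | hx v w hw => rw [par_xx_mul, par_xx_mul, hw, par_xx_mul, par_xx_mul]
  | hX l w hw =>
    rw [par_XX_mul, map_add, par_XX_mul, hw, par_XX_mul, map_add, par_XX_mul]
    by_cases h1 : l = j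
    · by_cases h2 : l = i
      · rw [if_pos h1, if_pos h2, if_pos h1, if_pos h2]
        subst h1
        subst h2
        abel
      · rw [if_pos h1, if_neg h2, if_neg h2, map_zero, if_pos h1]
        abel
    · by_cases h2 : l = i
      · rw [if_neg h1, if_pos h2, if_pos h2, if_neg h1, map_zero]
        abel
      · rw [if_neg h1, if_neg h2, if_neg h2, if_neg h1, map_zero, map_zero]

/-- The values have the right parity. -/
structure DD.Par (T : DD R O b) : Prop where
  ev : ∀ i, EvenEl (T (Sum.inl i))
  od : ∀ j, OddEl (T (Sum.inr j))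

variable {T : DD R O b}

omit [LinearOrder O] in
theorem d_apply (T : DD R O b) (w : AA R O b) :
    T.d w = ∑ i, T (Sum.inl i) * con (LinearMap.proj i) w + ∑ j, T (Sum.inr j) * par j w := by
  unfold DD.d
  rw [LinearMap.sum_apply, Fintype.sum_sum_type]
  rfl

omit [LinearOrder O] in
theorem d_one (T : DD R O b) : T.d 1 = 0 := by
  rw [d_apply, Finset.sum_eq_zero, Finset.sum_eq_zero, add_zero]
  · intro j _
    rw [par_one, mul_zero]
  · intro j _
    rw [con_one, mul_zero]

theorem d_gg (T : DD R O b) (g : O ⊕ Fin b) : T.d (gg g) = T g := by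
  rw [d_apply]
  cases g with
  | inl i =>
    have h1 : ∀ i', T (Sum.inl i') * con (LinearMap.proj i') (gg (Sum.inl i)) =
        if i = i' then T (Sum.inl i') else 0 := by
      intro i'
      change T (Sum.inl i') * con _ (xx _) = _
      rw [← mul_one (xx _), con_xx_mul, con_one, mul_zero, sub_zero]
      change T (Sum.inl i') * ((Pi.single i (1 : R) : O → R) i' • (1 : AA R O b)) = _
      by_cases h : i = i'
      · subst h
        rw [Pi.single_eq_same, one_smul, mul_one, if_pos rfl]
      · rw [Pi.single_eq_of_ne' h, zero_smul, mul_zero, if_neg h]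
    have h2 : ∀ j, T (Sum.inr j) * par j (gg (Sum.inl i)) = 0 := by
      intro j
      change T (Sum.inr j) * par j (xx _) = _
      rw [← mul_one (xx _), par_xx_mul, par_one, mul_zero, mul_zero]
    rw [Finset.sum_congr rfl fun i' _ => h1 i', Finset.sum_ite_eq, if_pos (Finset.mem_univ _),
      Finset.sum_eq_zero fun j _ => h2 j, add_zero]
  | inr j =>
    have h1 : ∀ j', T (Sum.inr j') * par j' (gg (Sum.inr j)) =
        if j = j' then T (Sum.inr j') else 0 := by
      intro j'
      change T (Sum.inr j') * par j' (XX j) = _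
      rw [← mul_one (XX j), par_XX_mul, par_one, mul_zero, add_zero]
      by_cases h : j = j'
      · subst h
        rw [if_pos rfl, if_pos rfl, mul_one]
      · rw [if_neg h, mul_zero, if_neg h]
    have h2 : ∀ i, T (Sum.inl i) * con (LinearMap.proj i) (gg (Sum.inr j)) = 0 := by
      intro i
      change T (Sum.inl i) * con _ (XX j) = _
      rw [← mul_one (XX j), con_XX_mul, con_one, mul_zero, mul_zero]
    rw [Finset.sum_congr rfl fun i' _ => h1 i', Finset.sum_ite_eq, if_pos (Finset.mem_univ _),
      Finset.sum_eq_zero fun j _ => h2 j, zero_add]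

/-- The Leibniz rule. -/
theorem d_mul (hT : T.Par) (u w : AA R O b) :
    T.d (u * w) = T.d u * w + eps R b (O → R) u * T.d w := by
  rw [d_apply, d_apply, d_apply, add_mul, mul_add, Finset.sum_mul, Finset.sum_mul, Finset.mul_sum,
    Finset.mul_sum, add_add_add_comm, ← Finset.sum_add_distrib, ← Finset.sum_add_distrib]
  congr 1
  · refine Finset.sum_congr rfl fun i _ => ?_
    rw [con_mul, mul_add, ← mul_assoc, ← mul_assoc, (hT.ev i).comm (eps R b (O → R) u), mul_assoc,
      mul_assoc]
  · refine Finset.sum_congr rfl fun j _ => ?_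
    rw [par_mul, mul_add, ← mul_assoc, ← mul_assoc, (hT.od j).comm u, mul_assoc, mul_assoc]

theorem d_eps (hT : T.Par) (w : AA R O b) :
    T.d (eps R b (O → R) w) = -eps R b (O → R) (T.d w) := by
  rw [d_apply, d_apply, map_add, map_sum, map_sum, neg_add, ← Finset.sum_neg_distrib,
    ← Finset.sum_neg_distrib]
  congr 1
  · refine Finset.sum_congr rfl fun i _ => ?_
    rw [con_eps, map_mul, (hT.ev i).eps, mul_neg]
  · refine Finset.sum_congr rfl fun j _ => ?_
    rw [par_eps, map_mul, (hT.od j).eps, neg_mul, neg_neg]

theorem d_gg_inl_mul (hT : T.Par) (i : O) (w : AA R O b) :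
    T.d (gg (Sum.inl i) * w) = T (Sum.inl i) * w - gg (Sum.inl i) * T.d w := by
  have h2 : eps R b (O → R) (gg (Sum.inl i)) = -gg (Sum.inl i) := eps_xx _
  rw [d_mul hT, d_gg, h2, neg_mul, ← sub_eq_add_neg]

theorem d_gg_inr_mul (hT : T.Par) (j : Fin b) (w : AA R O b) :
    T.d (gg (Sum.inr j) * w) = T (Sum.inr j) * w + gg (Sum.inr j) * T.d w := by
  have h2 : eps R b (O → R) (gg (Sum.inr j)) = gg (Sum.inr j) := eps_XX _
  rw [d_mul hT, d_gg, h2]

theorem d_sq (hT : T.Par) (h : ∀ g, T.d (T g) = 0) (w : AA R O b) : T.d (T.d w) = 0 := by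
  have hm : ∀ m : Mo O b, T.d (T.d (mon m)) = 0 := by
    rintro ⟨S, α⟩
    induction S using Finset.induction_on with
    | empty =>
      induction α using Finsupp.induction_linear with
      | zero =>
        rw [mon_zero, d_one, map_zero]
      | add α β hα hβ =>
        have h1 : mon (R := R) ((∅, α + β) : Mo O b) = mon (∅, α) * mon (∅, β) := by
          unfold mon
          rw [tm_mul, bas_empty, one_mul, MvPolynomial.monomial_mul, one_mul]
        have h2 : ∀ α : Fin b →₀ ℕ, EvenEl (mon (R := R) ((∅, α) : Mo O b)) := by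
          intro α m h0
          rw [co_mon] at h0
          have h3 : ((∅, α) : Mo O b) = m := by
            by_contra h4
            rw [if_neg h4] at h0
            exact h0 rfl
          rw [← h3]
          simp
        have h5 : QA.eps R b (O → R) (T.d (mon (∅, α))) = -T.d (mon (∅, α)) := by
          have := d_eps hT (mon (R := R) ((∅, α) : Mo O b))
          rw [(h2 α).eps] at this
          exact (neg_eq_iff_eq_neg.2 this).symm
        rw [h1, d_mul hT, (h2 α).eps, map_add, d_mul hT, d_mul hT, hα, hβ, (h2 α).eps, h5, zero_mul,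
          mul_zero]
        rw [neg_mul]
        abel
      | single j n =>
        induction n with
        | zero =>
          rw [Finsupp.single_zero, mon_zero, d_one, map_zero]
        | succ n ih =>
          have h1 : mon (R := R) ((∅, Finsupp.single j (n + 1)) : Mo O b) =
              gg (Sum.inr j) * mon (∅, Finsupp.single j n) := by
            rw [gg_inr_mul_mon]
            congr 2
            rw [← Finsupp.single_add]
          rw [h1, d_gg_inr_mul hT, map_add, d_mul hT, h, d_gg_inr_mul hT, ih, (hT.od j).eps]
          rw [mul_zero, zero_mul, neg_mul]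
          abel
    | insert a S ha ih =>
      obtain ⟨v, hv⟩ := mon_insert (R := R) a S α ha
      have h1 : T.d (T.d (gg (Sum.inl a) * mon (S, α))) = 0 := by
        rw [d_gg_inl_mul hT, map_sub, d_mul hT, h, d_gg_inl_mul hT, ih, (hT.ev a).eps, zero_mul,
          mul_zero]
        abel
      rw [hv]
      rcases Int.units_eq_one_or v with rfl | rfl
      · rw [one_smul, h1]
      · rw [Units.neg_smul, one_smul, map_neg, map_neg, h1, neg_zero]
  exact lin_ext (f := T.d ∘ₗ T.d) (g := 0) hm w

/-- The contraction anticommutes with `d`. -/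
theorem dd_d_inl (hT : T.Par) (i : O) (w : AA R O b)
    (h : ∀ g, dd (Sum.inl i) (T g) = 0 ∨ dd g w = 0) :
    dd (Sum.inl i) (T.d w) = -T.d (dd (Sum.inl i) w) := by
  change con (LinearMap.proj i) _ = -T.d (con (LinearMap.proj i) w)
  rw [d_apply, d_apply, map_add, map_sum, map_sum, neg_add, ← Finset.sum_neg_distrib,
    ← Finset.sum_neg_distrib]
  congr 1
  · refine Finset.sum_congr rfl fun i' _ => ?_
    have h1 : con (LinearMap.proj i) (T (Sum.inl i')) * con (LinearMap.proj i') w = 0 := by
      rcases h (Sum.inl i') with h | h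
      · change con (LinearMap.proj i) (T (Sum.inl i')) = 0 at h
        rw [h, zero_mul]
      · change con (LinearMap.proj i') w = 0 at h
        rw [h, mul_zero]
    rw [con_mul, h1, zero_add, (hT.ev i').eps, con_con, mul_neg]
  · refine Finset.sum_congr rfl fun j _ => ?_
    have h1 : con (LinearMap.proj i) (T (Sum.inr j)) * par j w = 0 := by
      rcases h (Sum.inr j) with h | h
      · change con (LinearMap.proj i) (T (Sum.inr j)) = 0 at h
        rw [h, zero_mul]
      · change par j w = 0 at h
        rw [h, mul_zero]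
    rw [con_mul, h1, zero_add, (hT.od j).eps, con_par, neg_mul]

omit [LinearOrder O] in
/-- The partial derivative commutes with `d`. -/
theorem dd_d_inr (j : Fin b) (w : AA R O b)
    (h : ∀ g, dd (Sum.inr j) (T g) = 0 ∨ dd g w = 0) :
    dd (Sum.inr j) (T.d w) = T.d (dd (Sum.inr j) w) := by
  change par j _ = T.d (par j w)
  rw [d_apply, d_apply, map_add, map_sum, map_sum]
  congr 1
  · refine Finset.sum_congr rfl fun i' _ => ?_
    have h1 : par j (T (Sum.inl i')) * con (LinearMap.proj i') w = 0 := by
      rcases h (Sum.inl i') with h | h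
      · change par j (T (Sum.inl i')) = 0 at h
        rw [h, zero_mul]
      · change con (LinearMap.proj i') w = 0 at h
        rw [h, mul_zero]
    rw [par_mul, h1, zero_add, con_par]
  · refine Finset.sum_congr rfl fun j' _ => ?_
    have h1 : par j (T (Sum.inr j')) * par j' w = 0 := by
      rcases h (Sum.inr j') with h | h
      · change par j (T (Sum.inr j')) = 0 at h
        rw [h, zero_mul]
      · change par j' w = 0 at h
        rw [h, mul_zero]
    rw [par_mul, h1, zero_add, par_par]

end Pool.Agent.Helper44.QB
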