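import Mathlib
import Pool.Agent.Helper44.QB.Der

/-!
PROJECT QB. The families of subspaces of the ambient algebra.

`𝒜` the grading of `R`, `δ` the degrees, `w` the weights, `κ` the `K`-weights of the generators
(`κ g = w g` if `δ g = 1` and `0` otherwise), all extended additively to monomials by `lin`.
`Ft k δ T n`: degree `n`, generators in `T`.
`Fw 𝒜 δ w T n p`: degree `n`, weight `p`, generators in `T`.
`Fq 𝒜 δ κ T n q`: degree `n`, `K`-weight `≥ q`, generators in `T`.
`Gr 𝒜 δ w T`: `T` are the values of a bihomogeneous differential.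
`Cl k δ T S`: the set of generators `S` is closed under the differential.
-/

set_option autoImplicit false

open scoped TensorProduct
open Pool.Agent.Helper44.QA

namespace Pool.Agent.Helper44.QB

noncomputable section

universe u

variable {k R : Type u} [Field k] [CommRing R] [Algebra k R]
  {O : Type} [Fintype O] [LinearOrder O] {b : ℕ}

/-- The homogeneous part of degree `p`, zero for negative `p`. -/
def AZ (𝒜 : ℕ → Submodule k R) (p : ℤ) : Submodule k R := if 0 ≤ p then 𝒜 p.toNat else ⊥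

/-- The elements all of whose components have degree `≥ p`. -/
def AGe (𝒜 : ℕ → Submodule k R) (p : ℤ) : Submodule k R := ⨆ s : ℕ, ⨆ _ : p ≤ (s : ℤ), 𝒜 s

/-- Degree `n`, generators in `T`. -/
def Ft (k : Type u) {R : Type u} [Field k] [CommRing R] [Algebra k R]
    {O : Type} [Fintype O] [LinearOrder O] {b : ℕ} (δ : O ⊕ Fin b → ℤ)
    (T : Set (O ⊕ Fin b)) (n : ℤ) : Submodule k (AA R O b) :=
  Pc (Cd δ T n fun _ => ⊤)

/-- Degree `n`, weight `p`, generators in `T`. -/
def Fw (𝒜 : ℕ → Submodule k R) (δ w : O ⊕ Fin b → ℤ) (T : Set (O ⊕ Fin b)) (n p : ℤ) :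
    Submodule k (AA R O b) :=
  Pc (Cd δ T n fun m => AZ 𝒜 (p - lin w m))

/-- Degree `n`, `K`-weight at least `q`, generators in `T`. -/
def Fq (𝒜 : ℕ → Submodule k R) (δ κ : O ⊕ Fin b → ℤ) (T : Set (O ⊕ Fin b)) (n q : ℤ) :
    Submodule k (AA R O b) :=
  Pc (Cd δ T n fun m => AGe 𝒜 (q - lin κ m))

/-- The values of a bihomogeneous differential. -/
structure Gr (𝒜 : ℕ → Submodule k R) (δ w : O ⊕ Fin b → ℤ) (T : DD R O b) : Prop where
  odd : ∀ i, Odd (δ (Sum.inl i))
  even : ∀ j, Even (δ (Sum.inr j))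
  pos : ∀ g, 1 ≤ δ g
  wpos : ∀ g, 1 ≤ w g
  val : ∀ g, T g ∈ Fw 𝒜 δ w Set.univ (δ g - 1) (w g)
  sq : ∀ g, T.d (T g) = 0

/-- The set of generators `S` is closed under the differential. -/
def Cl (k : Type u) {R : Type u} [Field k] [CommRing R] [Algebra k R]
    {O : Type} [Fintype O] [LinearOrder O] {b : ℕ} (δ : O ⊕ Fin b → ℤ)
    (T : DD R O b) (S : Set (O ⊕ Fin b)) : Prop :=
  ∀ g ∈ S, T g ∈ Ft k δ S (δ g - 1)

end

end Pool.Agent.Helper44.QB
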