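import Mathlib
import Pool.Agent.Helper44.QB.Fam
import Pool.Agent.Helper67.QB.Sup

/-!
PROJECT QB. The differential on the families, odd and even steps.
-/

set_option autoImplicit false

open scoped TensorProduct
open Pool.Agent.Helper44.QA

namespace Pool.Agent.Helper44.QB

universe u

variable {k R : Type u} [Field k] [CommRing R] [Algebra k R]
  {O : Type} [Fintype O] [LinearOrder O] {b : ℕ}

section Grading

variable (𝒜 : ℕ → Submodule k R)

theorem AZ_nat (p : ℕ) : AZ 𝒜 (p : ℤ) = 𝒜 p := by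
  unfold AZ
  rw [if_pos (by positivity), Int.toNat_natCast]

theorem AZ_neg {p : ℤ} (hp : p < 0) : AZ 𝒜 p = ⊥ := by
  unfold AZ
  rw [if_neg (by omega)]

theorem AZ_mul [GradedAlgebra 𝒜] {p q : ℤ} {r s : R} (hr : r ∈ AZ 𝒜 p) (hs : s ∈ AZ 𝒜 q) :
    r * s ∈ AZ 𝒜 (p + q) := by
  by_cases hp : 0 ≤ p
  · by_cases hq : 0 ≤ q
    · lift p to ℕ using hp
      lift q to ℕ using hq
      rw [AZ_nat] at hr hs
      rw [← Nat.cast_add, AZ_nat]
      exact SetLike.mul_mem_graded hr hs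
    · rw [AZ_neg 𝒜 (not_le.1 hq), Submodule.mem_bot] at hs
      rw [hs, mul_zero]
      exact Submodule.zero_mem _
  · rw [AZ_neg 𝒜 (not_le.1 hp), Submodule.mem_bot] at hr
    rw [hr, zero_mul]
    exact Submodule.zero_mem _

theorem AZ_le_AGe (p : ℤ) : AZ 𝒜 p ≤ AGe 𝒜 p := by
  by_cases hp : 0 ≤ p
  · lift p to ℕ using hp
    rw [AZ_nat]
    exact le_iSup₂_of_le p le_rfl le_rfl
  · rw [AZ_neg 𝒜 (not_le.1 hp)]
    exact bot_le

theorem AGe_mono {p q : ℤ} (h : p ≤ q) : AGe 𝒜 q ≤ AGe 𝒜 p :=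
  iSup_mono fun _ => iSup_le fun hs => le_iSup_of_le (h.trans hs) le_rfl

theorem AGe_mul [GradedAlgebra 𝒜] {p q : ℤ} {r s : R} (hr : r ∈ AZ 𝒜 p) (hs : s ∈ AGe 𝒜 q) :
    r * s ∈ AGe 𝒜 (p + q) := by
  have h : AGe 𝒜 q ≤ (AGe 𝒜 (p + q)).comap (LinearMap.mulLeft k r) := by
    refine iSup_le fun i => iSup_le fun hi x hx => ?_
    rw [Submodule.mem_comap, LinearMap.mulLeft_apply]
    refine AGe_mono 𝒜 (p := p + q) (q := p + i) (by omega) (AZ_le_AGe 𝒜 _ (AZ_mul 𝒜 hr ?_))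
    rwa [AZ_nat]
  exact h hs

theorem AGe_ideal [GradedAlgebra 𝒜] {q : ℤ} (r : R) {s : R} (hs : s ∈ AGe 𝒜 q) :
    r * s ∈ AGe 𝒜 q := by
  induction r using DirectSum.Decomposition.inductionOn 𝒜 with
  | zero => rw [zero_mul]; exact Submodule.zero_mem _
  | homogeneous r =>
    rename_i i
    refine AGe_mono 𝒜 (q := (i : ℤ) + q) (by omega) (AGe_mul 𝒜 ?_ hs)
    rw [AZ_nat]
    exact r.2
  | add a b ha hb => rw [add_mul]; exact Submodule.add_mem _ ha hb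

theorem AGe_zero [GradedAlgebra 𝒜] {q : ℤ} (hq : q ≤ 0) (r : R) : r ∈ AGe 𝒜 q := by
  have h1 : (1 : R) ∈ AGe 𝒜 q :=
    AGe_mono 𝒜 hq (AZ_le_AGe 𝒜 0 (by
      have := AZ_nat 𝒜 0
      rw [Nat.cast_zero] at this
      rw [this]
      exact SetLike.one_mem_graded 𝒜))
  have := AGe_ideal 𝒜 r h1
  rwa [mul_one] at this

end Grading

variable {δ w : O ⊕ Fin b → ℤ} {T : DD R O b} {S : Set (O ⊕ Fin b)} {n : ℤ}

omit [Fintype O] [LinearOrder O] in
theorem lin_eq_zero (h : ∀ g, 1 ≤ δ g) {m : Mo O b} (hm : lin δ m = 0) : m = (∅, 0) := by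
  unfold lin at hm
  have h1 : 0 ≤ ∑ i ∈ m.1, δ (Sum.inl i) :=
    Finset.sum_nonneg fun i _ => (zero_le_one.trans (h _))
  have h2 : 0 ≤ ∑ j, (m.2 j : ℤ) * δ (Sum.inr j) :=
    Finset.sum_nonneg fun j _ => mul_nonneg (by positivity) (zero_le_one.trans (h _))
  have h3 : ∑ i ∈ m.1, δ (Sum.inl i) = 0 := by omega
  have h4 : ∑ j, (m.2 j : ℤ) * δ (Sum.inr j) = 0 := by omega
  rw [Finset.sum_eq_zero_iff_of_nonneg fun i _ => (zero_le_one.trans (h _))] at h3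
  rw [Finset.sum_eq_zero_iff_of_nonneg fun j _ => mul_nonneg (by positivity)
    (zero_le_one.trans (h _))] at h4
  refine Prod.ext ?_ ?_
  · refine Finset.eq_empty_of_forall_notMem fun i hi => ?_
    have := h3 i hi
    have := h (Sum.inl i)
    omega
  · ext j
    have h5 := h4 j (Finset.mem_univ _)
    rcases mul_eq_zero.1 h5 with h6 | h6
    · exact_mod_cast h6
    · have := h (Sum.inr j)
      omega

/-- The differential maps the families to themselves. -/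
theorem d_mem {ψ : O ⊕ Fin b → Mo O b → Submodule k R} {φ : Mo O b → Submodule k R}
    (hS : ∀ g ∈ S, T g ∈ Pc (Cd δ S (δ g - 1) (ψ g)))
    (h : ∀ g ∈ S, ∀ m m', Disjoint m.1 m'.1 → Fre g m' → lin δ m = δ g - 1 →
      ∀ r ∈ ψ g m, ∀ r' ∈ φ (ins g m'), r * r' ∈ φ (madd m m')) {x : AA R O b}
    (hx : x ∈ Pc (Cd δ S n φ)) : T.d x ∈ Pc (Cd δ S (n - 1) φ) := by
  classical
  unfold DD.d
  rw [LinearMap.sum_apply]
  refine Submodule.sum_mem _ fun g _ => ?_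
  rw [LinearMap.comp_apply, LinearMap.mulLeft_apply]
  by_cases hg : g ∈ S
  · have h1 : dd g x ∈ Pc (Cd δ S (n - δ g) fun m => if Fre g m then φ (ins g m) else ⊥) := by
      refine dd_mem (fun m hm => ?_) hx
      rw [if_pos hm]
    refine Pc_mul ?_ (hS g hg) h1
    intro m m' hd r hr r' hr'
    obtain ⟨h3, h4⟩ := mem_Cd.1 hr
    obtain ⟨h5, h6⟩ := mem_Cd.1 hr'
    by_cases hr0 : r * r' = 0
    · rw [hr0]
      exact Submodule.zero_mem _
    · have h7 := h3 (left_ne_zero_of_mul hr0)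
      have h8 := h5 (right_ne_zero_of_mul hr0)
      refine mem_Cd.2 ⟨fun _ => ⟨suppIn_madd h7.1 h8.1, ?_⟩, ?_⟩
      · rw [lin_madd δ hd, h7.2, h8.2]
        ring
      · by_cases hf : Fre g m'
        · rw [if_pos hf] at h6
          exact h g hg m m' hd hf h7.2 r h4 r' h6
        · rw [if_neg hf, Submodule.mem_bot] at h6
          rw [h6, mul_zero] at hr0
          exact absurd rfl hr0
  · rw [dd_eq_zero hg hx, mul_zero]
    exact Submodule.zero_mem _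

theorem d_Ft (hS : Cl k δ T S) {x : AA R O b} (hx : x ∈ Ft k δ S n) :
    T.d x ∈ Ft k δ S (n - 1) :=
  d_mem (ψ := fun _ _ => ⊤) hS (fun _ _ _ _ _ _ _ _ _ _ _ => Submodule.mem_top) hx

variable {𝒜 : ℕ → Submodule k R}

/-- The values of a graded differential on a closed set. -/
theorem Gr.val' (hT : Gr 𝒜 δ w T) (hS : Cl k δ T S) {g : O ⊕ Fin b} (hg : g ∈ S) :
    T g ∈ Fw 𝒜 δ w S (δ g - 1) (w g) := by
  intro m
  exact mem_Cd.2 ⟨(mem_Cd.1 (hS g hg m)).1, (mem_Cd.1 (hT.val g m)).2⟩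

theorem d_Fw [GradedAlgebra 𝒜] (hT : Gr 𝒜 δ w T) (hS : Cl k δ T S) {p : ℤ} {x : AA R O b}
    (hx : x ∈ Fw 𝒜 δ w S n p) : T.d x ∈ Fw 𝒜 δ w S (n - 1) p := by
  refine d_mem (ψ := fun g m => AZ 𝒜 (w g - lin w m)) (fun g hg => hT.val' hS hg) ?_ hx
  intro g hg m m' hd hf hm r hr r' hr'
  have := AZ_mul 𝒜 hr hr'
  rw [lin_ins w hf] at this
  rw [lin_madd w hd]
  rwa [show w g - lin w m + (p - (lin w m' + w g)) = p - (lin w m + lin w m') by ring] at this

theorem d_Fq [GradedAlgebra 𝒜] (hT : Gr 𝒜 δ w T) (hS : Cl k δ T S) {κ : O ⊕ Fin b → ℤ}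
    (hκ0 : ∀ g, 0 ≤ κ g) (hκ1 : ∀ g, δ g = 1 → κ g = w g) (hκ : ∀ g, δ g ≠ 1 → κ g = 0) {q : ℤ}
    {x : AA R O b} (hx : x ∈ Fq 𝒜 δ κ S n q) : T.d x ∈ Fq 𝒜 δ κ S (n - 1) q := by
  refine d_mem (ψ := fun g m => AZ 𝒜 (w g - lin w m)) (fun g hg => hT.val' hS hg) ?_ hx
  intro g hg m m' hd hf hm r hr r' hr'
  rw [lin_ins κ hf] at hr'
  rw [lin_madd κ hd]
  by_cases h1 : δ g = 1
  · rw [h1, sub_self] at hm
    have hm0 := lin_eq_zero hT.pos hm
    subst hm0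
    have := AGe_mul 𝒜 hr hr'
    rw [hκ1 g h1] at this
    refine AGe_mono 𝒜 ?_ this
    have h2 : lin w ((∅, 0) : Mo O b) = 0 := by unfold lin; simp
    have h3 : lin κ ((∅, 0) : Mo O b) = 0 := by unfold lin; simp
    rw [h2, h3]
    linarith
  · rw [hκ g h1, add_zero] at hr'
    refine AGe_mono 𝒜 ?_ (AGe_ideal 𝒜 r hr')
    have := lin_nonneg hκ0 m
    linarith

theorem even_sum_odd {ι : Type*} (f : ι → ℤ) (ho : ∀ i, Odd (f i)) (A : Finset ι) :
    Even (∑ i ∈ A, f i) ↔ Even A.card := by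
  classical
  induction A using Finset.induction_on with
  | empty => simp
  | insert a A ha ih =>
    rw [Finset.sum_insert ha, Finset.card_insert_of_notMem ha, Int.even_add, Nat.even_add_one,
      ← ih]
    have := Int.not_even_iff_odd.2 (ho a)
    tauto

omit [Fintype O] [LinearOrder O] in
theorem neg_one_pow_lin (ho : ∀ i, Odd (δ (Sum.inl i))) (he : ∀ j, Even (δ (Sum.inr j)))
    (m : Mo O b) : Even (lin δ m) ↔ Even m.1.card := by
  unfold lin
  have h2 : Even (∑ j, (m.2 j : ℤ) * δ (Sum.inr j)) :=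
    Finset.even_sum _ fun j _ => (he j).mul_left _
  rw [Int.even_add, iff_true_right h2]
  exact even_sum_odd _ ho _

theorem evenEl_of (ho : ∀ i, Odd (δ (Sum.inl i))) (he : ∀ j, Even (δ (Sum.inr j)))
    (hn : Even n) {φ : Mo O b → Submodule k R} {x : AA R O b} (hx : x ∈ Pc (Cd δ S n φ)) :
    EvenEl x := by
  intro m h0
  rw [← neg_one_pow_lin ho he, ((mem_Cd.1 (hx m)).1 h0).2]
  exact hn

theorem oddEl_of (ho : ∀ i, Odd (δ (Sum.inl i))) (he : ∀ j, Even (δ (Sum.inr j)))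
    (hn : Odd n) {φ : Mo O b → Submodule k R} {x : AA R O b} (hx : x ∈ Pc (Cd δ S n φ)) :
    OddEl x := by
  intro m h0
  rw [← Nat.not_even_iff_odd, ← neg_one_pow_lin ho he, ((mem_Cd.1 (hx m)).1 h0).2,
    Int.not_even_iff_odd]
  exact hn

theorem Gr.par (hT : Gr 𝒜 δ w T) : T.Par where
  ev i := evenEl_of hT.odd hT.even ((hT.odd i).sub_odd odd_one) (hT.val (Sum.inl i))
  od j := oddEl_of hT.odd hT.even ((hT.even j).sub_odd odd_one) (hT.val (Sum.inr j))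

theorem Gr.dd_sq (hT : Gr 𝒜 δ w T) (x : AA R O b) : T.d (T.d x) = 0 := d_sq hT.par hT.sq x

/-- Odd step. -/
theorem oddStep [CharZero k] (hT : Gr 𝒜 δ w T) {i : O} (hg : Sum.inl i ∉ S)
    {φ : Mo O b → Submodule k R}
    (hφ : ∀ m, Fre (Sum.inl i) m → φ (ins (Sum.inl i) m) = φ m)
    (hd : ∀ n, ∀ x ∈ Pc (Cd δ S n φ), T.d x ∈ Pc (Cd δ S (n - 1) φ))
    (hz : ∀ n, ∀ x ∈ Pc (Cd δ S n φ),
      T (Sum.inl i) * x ∈ Pc (Cd δ S (n + δ (Sum.inl i) - 1) φ)) :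
    Pool.Agent.Helper67.QB.OddStep T.d.toAddMonoidHom
      (fun n => (Pc (Cd δ S n φ)).toAddSubgroup)
      (fun n => (Pc (Cd δ (insert (Sum.inl i) S) n φ)).toAddSubgroup)
      (LinearMap.mulLeft R (gg (Sum.inl i))).toAddMonoidHom
      (LinearMap.mulLeft R (T (Sum.inl i))).toAddMonoidHom (δ (Sum.inl i)) := by
  have hpar := hT.par
  have hsub : ∀ n, ∀ x ∈ Pc (Cd δ S n φ), x ∈ Pc (Cd δ (insert (Sum.inl i) S) n φ) :=
    fun n x hx => Pc_mono (Set.subset_insert _ _) (fun m _ _ => le_rfl) hx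
  have hdiff : insert (Sum.inl i) S \ {Sum.inl i} = S := by
    rw [Set.insert_sdiff_of_mem _ (Set.mem_singleton _), Set.sdiff_singleton_eq_self hg]
  have hyB : ∀ n, ∀ x ∈ Pc (Cd δ S n φ), gg (Sum.inl i) * x ∈
      Pc (Cd δ (insert (Sum.inl i) S) (n + δ (Sum.inl i)) φ) := fun n x hx =>
    gg_mul_mem (Set.mem_insert _ _) (fun m hm => (hφ m hm).ge) (hsub n x hx)
  have hdy : ∀ x : AA R O b, dd (Sum.inl i) (gg (Sum.inl i) * x) =
      x - gg (Sum.inl i) * dd (Sum.inl i) x := by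
    intro x
    change con _ (xx _ * x) = x - xx _ * con _ x
    rw [con_xx_mul]
    change (Pi.single i (1 : R) : O → R) i • _ - _ = _
    rw [Pi.single_eq_same, one_smul]
  refine ⟨hd, hsub, hyB, hz, ?_, ?_, ?_, ?_⟩
  · intro n x _
    exact d_gg_inl_mul hpar i x
  · intro n x _
    change T.d (T (Sum.inl i) * x) = T (Sum.inl i) * T.d x
    rw [d_mul hpar, hT.sq, zero_mul, zero_add, (hpar.ev i).eps]
  · intro n x hx
    have h1 : dd (Sum.inl i) x ∈ Pc (Cd δ (insert (Sum.inl i) S) (n - δ (Sum.inl i)) φ) :=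
      dd_mem (fun m hm => (hφ m hm).le) hx
    have h2 : dd (Sum.inl i) (dd (Sum.inl i) x) = 0 := con_self _ _
    have h3 := ker_dd h1 h2
    rw [hdiff] at h3
    have h4 : x - gg (Sum.inl i) * dd (Sum.inl i) x ∈ Pc (Cd δ (insert (Sum.inl i) S) n φ) := by
      refine Submodule.sub_mem _ hx ?_
      have := hyB _ _ h3
      rwa [sub_add_cancel] at this
    have h5 : dd (Sum.inl i) (x - gg (Sum.inl i) * dd (Sum.inl i) x) = 0 := by
      rw [map_sub, hdy, h2, mul_zero, sub_zero, sub_self]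
    have h6 := ker_dd h4 h5
    rw [hdiff] at h6
    exact ⟨_, h6, _, h3, (sub_add_cancel _ _).symm⟩
  · intro n a ha c hc h
    have h1 : dd (Sum.inl i) a = 0 := dd_eq_zero hg ha
    have h2 : dd (Sum.inl i) c = 0 := dd_eq_zero hg hc
    have h3 : c = 0 := by
      have h4 : a + gg (Sum.inl i) * c = 0 := h
      have := congrArg (dd (Sum.inl i)) h4
      rwa [map_add, h1, hdy, h2, mul_zero, sub_zero, zero_add, map_zero] at this
    refine ⟨?_, h3⟩
    have h4 : a + gg (Sum.inl i) * c = 0 := h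
    rwa [h3, mul_zero, add_zero] at h4

/-- Even step: the hypotheses of `isSup_even` and of `acy_even`. -/
theorem evenStep [CharZero k] [Algebra ℚ R] {j : Fin b} (hg : Sum.inr j ∉ S)
    (hS : Cl k δ T S) (hTg : T (Sum.inr j) ∈ Ft k δ S (δ (Sum.inr j) - 1))
    {φ : Mo O b → Submodule k R} (hφ : ∀ m, φ (ins (Sum.inr j) m) = φ m) :
    (∀ n, ∀ x ∈ Pc (Cd δ (insert (Sum.inr j) S) n φ),
      dd (Sum.inr j) (T.d x) = T.d (dd (Sum.inr j) x)) ∧
    (∀ n, ∀ x ∈ Pc (Cd δ (insert (Sum.inr j) S) n φ),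
      dd (Sum.inr j) x ∈ Pc (Cd δ (insert (Sum.inr j) S) (n - δ (Sum.inr j)) φ)) ∧
    (∀ n x, x ∈ Pc (Cd δ S n φ) ↔
      x ∈ Pc (Cd δ (insert (Sum.inr j) S) n φ) ∧ dd (Sum.inr j) x = 0) ∧
    (∀ n, ∀ x ∈ Pc (Cd δ (insert (Sum.inr j) S) (n - δ (Sum.inr j)) φ),
      ∃ y ∈ Pc (Cd δ (insert (Sum.inr j) S) n φ), dd (Sum.inr j) y = x) := by
  have hdiff : insert (Sum.inr j) S \ {Sum.inr j} = S := by
    rw [Set.insert_sdiff_of_mem _ (Set.mem_singleton _), Set.sdiff_singleton_eq_self hg]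
  refine ⟨?_, ?_, ?_, ?_⟩
  · intro n x hx
    refine dd_d_inr j x fun h => ?_
    by_cases hh : h ∈ insert (Sum.inr j) S
    · left
      rcases hh with rfl | hh
      · exact dd_eq_zero hg hTg
      · exact dd_eq_zero hg (hS h hh)
    · right
      exact dd_eq_zero hh hx
  · intro n x hx
    exact dd_mem (fun m _ => (hφ m).le) hx
  · intro n x
    constructor
    · intro hx
      exact ⟨Pc_mono (Set.subset_insert _ _) (fun m _ _ => le_rfl) hx, dd_eq_zero hg hx⟩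
    · rintro ⟨hx, h0⟩
      have := ker_dd hx h0
      rwa [hdiff] at this
  · intro n x hx
    refine ⟨int j x, ?_, dd_int j x⟩
    have := int_mem (Set.mem_insert _ _) (fun m => (hφ m).ge) hx
    rwa [sub_add_cancel] at this

end Pool.Agent.Helper44.QB
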