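import Mathlib
import Pool.Agent.Helper44.QB.Step

/-!
PROJECT QB. Adding generators of degree one: the homology stays bounded.
-/

set_option autoImplicit false

open scoped TensorProduct
open Pool.Agent.Helper44.QA
open Pool.Agent.Helper67.QB (Ex)

namespace Pool.Agent.Helper44.QB

universe u

variable {k R : Type u} [Field k] [CommRing R] [Algebra k R]
  {O : Type} [Fintype O] [LinearOrder O] {b : ℕ}
  {𝒜 : ℕ → Submodule k R} {δ w : O ⊕ Fin b → ℤ} {T : DD R O b} {S : Set (O ⊕ Fin b)}

theorem Cl.union_one (hT : Gr 𝒜 δ w T) (hS : Cl k δ T S) (P : Set (O ⊕ Fin b))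
    (hP : ∀ g ∈ P, δ g = 1) : Cl k δ T (S ∪ P) := by
  intro g hg
  rcases hg with hg | hg
  · exact Pc_mono Set.subset_union_left (fun _ _ _ => le_rfl) (hS g hg)
  · intro m
    refine mem_Cd.2 ⟨fun h0 => ?_, Submodule.mem_top⟩
    have h1 := (mem_Cd.1 (hT.val g m)).1 h0
    rw [hP g hg, sub_self] at h1 ⊢
    have h2 := lin_eq_zero hT.pos h1.2
    subst h2
    exact ⟨⟨fun i hi => absurd hi (Finset.notMem_empty i), fun j hj => absurd rfl hj⟩, h1.2⟩

/-- Adding a finite set of generators of degree one to a closed set `S`. -/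
theorem bdd_union [CharZero k] (hT : Gr 𝒜 δ w T) (hS : Cl k δ T S)
    (h : ∀ n, 1 ≤ n → Ex T.d.toAddMonoidHom (fun n => (Ft k δ S n).toAddSubgroup) n)
    (P : Finset (O ⊕ Fin b)) (hP : ∀ g ∈ P, δ g = 1) :
    ∀ n, (P.card : ℤ) < n →
      Ex T.d.toAddMonoidHom (fun n => (Ft k δ (S ∪ P) n).toAddSubgroup) n := by
  classical
  induction P using Finset.induction_on with
  | empty =>
    intro n hn
    rw [Finset.coe_empty, Set.union_empty]
    exact h n (by
      rw [Finset.card_empty] at hn
      push_cast at hn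
      omega)
  | insert g P hg ih =>
    intro n hn
    have hP' : ∀ g ∈ P, δ g = 1 := fun g hg => hP g (Finset.mem_insert_of_mem hg)
    have ih' := ih hP'
    rw [Finset.card_insert_of_notMem hg] at hn
    rw [Finset.coe_insert, Set.union_insert]
    by_cases hgS : g ∈ S
    · have hin : g ∈ S ∪ (P : Set (O ⊕ Fin b)) := Or.inl hgS
      rw [Set.insert_eq_of_mem hin]
      exact ih' n (by push_cast at hn; omega)
    · have hgSP : g ∉ S ∪ (P : Set (O ⊕ Fin b)) := by
        rintro (h1 | h1)
        · exact hgS h1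
        · exact hg h1
      have hcl : Cl k δ T (S ∪ (P : Set (O ⊕ Fin b))) := hS.union_one hT _ hP'
      have hg1 := hP g (Finset.mem_insert_self g P)
      cases g with
      | inr j =>
        obtain ⟨e, he⟩ := hT.even j
        omega
      | inl i =>
        have hTg : T (Sum.inl i) ∈ Ft k δ (S ∪ (P : Set (O ⊕ Fin b))) (δ (Sum.inl i) - 1) := by
          intro m
          refine mem_Cd.2 ⟨fun h0 => ?_, Submodule.mem_top⟩
          have h1 := (mem_Cd.1 (hT.val (Sum.inl i) m)).1 h0
          rw [hg1, sub_self] at h1 ⊢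
          have h2 := lin_eq_zero hT.pos h1.2
          subst h2
          exact ⟨⟨fun i hi => absurd hi (Finset.notMem_empty i),
            fun j hj => absurd rfl hj⟩, h1.2⟩
        have hst := oddStep (φ := fun _ => ⊤) hT hgSP (fun _ _ => rfl)
          (fun n x hx => d_Ft hcl hx) (fun n x hx => by
            have := mul_mem (φ'' := fun _ => ⊤) (fun _ _ _ _ _ _ _ => Submodule.mem_top) hTg hx
            rwa [show δ (Sum.inl i) - 1 + n = n + δ (Sum.inl i) - 1 by ring] at this)
        rw [hg1] at hst
        exact hst.above le_rfl ih' n (by push_cast at hn; omega)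

end Pool.Agent.Helper44.QB
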