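import Mathlib
import Pool.Agent.Helper59.QB.TrEx
import Pool.Agent.Helper44.QB.Bdd

/-!
PROJECT QB, step (G): the ambient algebra with `c` further generators of degree one with given
values in `R`.
-/

set_option autoImplicit false

open scoped TensorProduct
open Pool.Agent.Helper44.QA
open Pool.Agent.Helper67.QB (Ex)
open Pool.Agent.Helper59.QB

namespace Pool.Agent.Helper44.QB

noncomputable section

variable {k R : Type} [Field k] [CommRing R] [Algebra k R] {a b c : ℕ}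

/-- The embedding of the old odd generators. -/
def bι (a c : ℕ) : Fin a ↪ Fin (a + c) := Fin.castAddEmb c

/-- The extended degrees or weights. -/
def bz (δ : Fin a ⊕ Fin b → ℤ) (e : Fin c → ℤ) : Fin (a + c) ⊕ Fin b → ℤ :=
  Sum.elim (Fin.append (fun i => δ (Sum.inl i)) e) (fun j => δ (Sum.inr j))

/-- The extended values. -/
def bT (T : DD R (Fin a) b) (r : Fin c → R) : DD R (Fin (a + c)) b :=
  Sum.elim (Fin.append (fun i => em (bι a c) (T (Sum.inl i))) (fun l => r l • (1 : AA R (Fin (a + c)) b)))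
    (fun j => em (bι a c) (T (Sum.inr j)))

/-- The new generators. -/
def bσ (a b : ℕ) {c : ℕ} (l : Fin c) : Fin (a + c) ⊕ Fin b := Sum.inl (Fin.natAdd a l)

theorem bz_em (δ : Fin a ⊕ Fin b → ℤ) (e : Fin c → ℤ) (g : Fin a ⊕ Fin b) :
    bz δ e (eG (bι a c) g) = δ g := by
  cases g with
  | inl i =>
    exact Fin.append_left (fun i => δ (Sum.inl i)) e i
  | inr j => rfl

theorem bz_σ (δ : Fin a ⊕ Fin b → ℤ) (e : Fin c → ℤ) (l : Fin c) : bz δ e (bσ a b l) = e l := by
  exact Fin.append_right (fun i => δ (Sum.inl i)) e l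

theorem bT_em (T : DD R (Fin a) b) (r : Fin c → R) (g : Fin a ⊕ Fin b) :
    bT T r (eG (bι a c) g) = em (bι a c) (T g) := by
  cases g with
  | inl i =>
    exact Fin.append_left (fun i => em (bι a c) (T (Sum.inl i)))
      (fun l => r l • (1 : AA R (Fin (a + c)) b)) i
  | inr j => rfl

theorem bT_σ (T : DD R (Fin a) b) (r : Fin c → R) (l : Fin c) : bT T r (bσ a b l) = r l • 1 := by
  exact Fin.append_right (fun i => em (bι a c) (T (Sum.inl i)))
      (fun l => r l • (1 : AA R (Fin (a + c)) b)) l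

theorem g_cases (g' : Fin (a + c) ⊕ Fin b) :
    (∃ g : Fin a ⊕ Fin b, eG (bι a c) g = g') ∨ ∃ l : Fin c, bσ a b l = g' := by
  cases g' with
  | inl i =>
    refine Fin.addCases (motive := fun i => (∃ g : Fin a ⊕ Fin b, eG (bι a c) g = Sum.inl i) ∨
      ∃ l : Fin c, bσ a b l = Sum.inl i) (fun i => Or.inl ⟨Sum.inl i, rfl⟩)
      (fun l => Or.inr ⟨l, rfl⟩) i
  | inr j => exact Or.inl ⟨Sum.inr j, rfl⟩

theorem em_ne_σ (g : Fin a ⊕ Fin b) (l : Fin c) : eG (bι a c) g ≠ bσ a b l := by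
  cases g with
  | inl i =>
    intro h
    have h1 : Fin.castAdd c i = Fin.natAdd a l := Sum.inl.inj h
    have h2 := congrArg Fin.val h1
    rw [Fin.val_castAdd, Fin.val_natAdd] at h2
    have := i.2
    omega
  | inr j =>
    intro h
    exact absurd h (by simp [eG, bσ])

theorem bσ_injective : Function.Injective (bσ a b : Fin c → Fin (a + c) ⊕ Fin b) := by
  intro l l' h
  exact Fin.natAdd_injective c a (Sum.inl.inj h)

theorem gr_big {𝒜 : ℕ → Submodule k R} [GradedAlgebra 𝒜] {δ w : Fin a ⊕ Fin b → ℤ}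
    {T : DD R (Fin a) b} (hT : Gr 𝒜 δ w T) (r : Fin c → R) (e : Fin c → ℕ)
    (hr : ∀ l, 0 < e l ∧ r l ∈ 𝒜 (e l)) :
    Gr 𝒜 (bz δ fun _ => 1) (bz w fun l => (e l : ℤ)) (bT T r) where
  odd i' := by
    rcases g_cases (a := a) (c := c) (b := b) (Sum.inl i') with ⟨g, hg⟩ | ⟨l, hl⟩
    · rw [← hg, bz_em]
      cases g with
      | inl i => exact hT.odd i
      | inr j => exact absurd hg (by simp [eG])
    · rw [← hl, bz_σ]
      exact odd_one
  even j := hT.even j
  pos g' := by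
    rcases g_cases g' with ⟨g, rfl⟩ | ⟨l, rfl⟩
    · rw [bz_em]
      exact hT.pos g
    · rw [bz_σ]
  wpos g' := by
    rcases g_cases g' with ⟨g, rfl⟩ | ⟨l, rfl⟩
    · rw [bz_em]
      exact hT.wpos g
    · rw [bz_σ]
      exact_mod_cast (hr l).1
  val g' := by
    rcases g_cases g' with ⟨g, rfl⟩ | ⟨l, rfl⟩
    · rw [bz_em, bz_em, bT_em]
      have := (em_mem_Fw (ι := bι a c) (𝒜 := 𝒜) (δ := δ) (δ' := bz δ fun _ => 1) (w := w)
        (w' := bz w fun l => (e l : ℤ)) (bz_em _ _) (bz_em _ _) Set.univ (δ g - 1) (w g)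
        (T g)).2 (hT.val g)
      exact Pc_mono (Set.subset_univ _) (fun _ _ _ => le_rfl) this
    · rw [bz_σ, bz_σ, bT_σ, ← mon_zero]
      have h0 : ∀ δ' : Fin (a + c) ⊕ Fin b → ℤ, lin δ' ((∅, 0) : Mo (Fin (a + c)) b) = 0 :=
        fun δ' => by unfold lin; simp
      refine smul_mon_mem (mem_Cd.2 ⟨fun _ => ⟨⟨fun _ _ => Set.mem_univ _,
        fun _ _ => Set.mem_univ _⟩, by rw [h0]; norm_num⟩, ?_⟩)
      rw [h0, sub_zero, AZ_nat]
      exact (hr l).2
  sq g' := by
    rcases g_cases g' with ⟨g, rfl⟩ | ⟨l, rfl⟩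
    · rw [bT_em, d_em (bι a c) T (bT T r) (bT_em T r), hT.sq, map_zero]
    · rw [bT_σ, map_smul, d_one, smul_zero]

theorem co_zero_bσ (T : DD R (Fin a) b) (r : Fin c → R) (l : Fin c) :
    co (∅, 0) (bT T r (bσ a b l)) = r l := by
  rw [bT_σ, map_smul, ← mon_zero, co_mon, if_pos rfl, smul_eq_mul, mul_one]

/-- The coefficients of the extended values. -/
theorem co_eM_big (m : Mo (Fin a) b) (x : AA R (Fin a) b) :
    ∃ u : ℤˣ, co (eM (bι a c) m) (em (bι a c) x) = u • co m x := by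
  obtain ⟨u, hu⟩ := co_em (R := R) (bι a c) m
  exact ⟨u, hu x⟩

end

end Pool.Agent.Helper44.QB
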