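import Mathlib
import Pool.Agent.Helper44.QB.Step
import Pool.Agent.Helper28.QB.NM

/-!
PROJECT QB, step (8): the minimality argument.
-/

set_option autoImplicit false

open scoped TensorProduct
open Pool.Agent.Helper44.QA
open Pool.Agent.Helper67.QB (Ex)

namespace Pool.Agent.Helper44.QB

universe u

variable {k R : Type u} [Field k] [CommRing R] [Algebra k R]
  {O : Type} [Fintype O] [LinearOrder O] {b : ℕ}
  {𝒜 : ℕ → Submodule k R} {δ w : O ⊕ Fin b → ℤ} {T : DD R O b} {S : Set (O ⊕ Fin b)}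

omit [Fintype O] [LinearOrder O] in
theorem le_lin (h : ∀ g, 1 ≤ δ g) {m : Mo O b} :
    (∀ i ∈ m.1, δ (Sum.inl i) ≤ lin δ m) ∧ ∀ j, m.2 j ≠ 0 → δ (Sum.inr j) ≤ lin δ m := by
  have h1 : ∀ i ∈ m.1, 0 ≤ δ (Sum.inl i) := fun i _ => zero_le_one.trans (h _)
  have h2 : ∀ j ∈ Finset.univ, 0 ≤ (m.2 j : ℤ) * δ (Sum.inr j) :=
    fun j _ => mul_nonneg (by positivity) (zero_le_one.trans (h _))
  unfold lin
  constructor
  · intro i hi
    have h3 := Finset.single_le_sum h1 hi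
    have h4 := Finset.sum_nonneg h2
    linarith
  · intro j hj
    have h3 := Finset.single_le_sum h2 (Finset.mem_univ j)
    have h4 := Finset.sum_nonneg h1
    have h5 : (1 : ℤ) ≤ (m.2 j : ℤ) := by
      have : m.2 j ≥ 1 := Nat.one_le_iff_ne_zero.2 hj
      exact_mod_cast this
    have h6 := h (Sum.inr j)
    nlinarith

/-- An element of degree `n` involves only generators of degree at most `n`. -/
theorem mem_Ft_of_lt (h : ∀ g, 1 ≤ δ g) {n : ℤ} {x : AA R O b} (hx : x ∈ Ft k δ S n)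
    (S' : Set (O ⊕ Fin b)) (hS' : ∀ g ∈ S, δ g ≤ n → g ∈ S') : x ∈ Ft k δ S' n := by
  intro m
  obtain ⟨h1, h2⟩ := mem_Cd.1 (hx m)
  refine mem_Cd.2 ⟨fun h0 => ?_, h2⟩
  obtain ⟨h3, h4⟩ := h1 h0
  have h5 := le_lin h (m := m)
  rw [h4] at h5
  exact ⟨⟨fun i hi => hS' _ (h3.1 i hi) (h5.1 i hi), fun j hj => hS' _ (h3.2 j hj) (h5.2 j hj)⟩, h4⟩

omit [Fintype O] in
theorem suppIn_ins_self {S' : Set (O ⊕ Fin b)} (v : O ⊕ Fin b)
    (h : SuppIn S' (ins v ((∅, 0) : Mo O b))) : v ∈ S' :=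
  (suppIn_ins.1 h).1

theorem gg_eq_mon (g : O ⊕ Fin b) : (gg g : AA R O b) = mon (ins g (∅, 0)) := by
  cases g with
  | inl i => exact gg_inl i
  | inr j =>
    rw [gg_inr]
    unfold ins
    simp

/-- The minimality argument. -/
theorem final_step [GradedAlgebra 𝒜] [Nontrivial R] (hT : Gr 𝒜 δ w T) (hS : Cl k δ T S)
    (h2 : ∀ n, 1 ≤ n → Ex T.d.toAddMonoidHom
      (fun n => (Ft k δ {g | g ∈ S ∧ δ g ≤ 2} n).toAddSubgroup) n)
    (h : ∀ n, 1 ≤ n → Ex T.d.toAddMonoidHom (fun n => (Ft k δ S n).toAddSubgroup) n)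
    (hmin : ∀ v ∈ S, ∀ g, 3 ≤ δ v → δ g = δ v + 1 → co (ins v (∅, 0)) (T g) ∈ AGe 𝒜 1) :
    ∀ g ∈ S, δ g ≤ 2 := by
  classical
  by_contra hcon
  push Not at hcon
  obtain ⟨g0, hg0, hδ0⟩ := hcon
  let P : Finset (O ⊕ Fin b) := Finset.univ.filter fun g => g ∈ S ∧ 3 ≤ δ g
  have hP : P.Nonempty := ⟨g0, Finset.mem_filter.2 ⟨Finset.mem_univ _, hg0, by omega⟩⟩
  obtain ⟨v, hv, hmv⟩ := P.exists_min_image δ hP
  obtain ⟨-, hvS, hv3⟩ := Finset.mem_filter.1 hv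
  have hlow : ∀ g ∈ S, δ g ≤ δ v - 1 → g ∈ {g | g ∈ S ∧ δ g ≤ 2} := by
    intro g hg hgv
    refine ⟨hg, ?_⟩
    by_contra h3
    have := hmv g (Finset.mem_filter.2 ⟨Finset.mem_univ _, hg, by omega⟩)
    omega
  have hTv : T v ∈ Ft k δ {g | g ∈ S ∧ δ g ≤ 2} (δ v - 1) :=
    mem_Ft_of_lt hT.pos (hS v hvS) _ hlow
  obtain ⟨z', hz', hdz'⟩ := h2 (δ v - 1) (by omega) (T v) hTv (hT.sq v)
  rw [sub_add_cancel] at hz'
  have hz'S : z' ∈ Ft k δ S (δ v) := Pc_mono (fun g hg => hg.1) (fun _ _ _ => le_rfl) hz'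
  have hgv : (gg v : AA R O b) ∈ Ft k δ S (δ v) := gg_mem hvS Submodule.mem_top
  obtain ⟨w', hw', hdw'⟩ := h (δ v) (by omega) (gg v - z') (Submodule.sub_mem _ hgv hz'S) (by
    change T.d (gg v - z') = 0
    rw [map_sub, d_gg]
    exact sub_eq_zero.2 hdz'.symm)
  have hw'u : w' ∈ Ft k δ Set.univ (δ v + 1) :=
    Pc_mono (Set.subset_univ _) (fun _ _ _ => le_rfl) hw'
  have h5 := Helper28.QB.co_ins_d_mem 𝒜 hT hw'u (hmin v hvS · hv3 ·)
  have h6 : co (ins v (∅, 0)) (T.d w') = 1 := by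
    have h7 : T.d w' = gg v - z' := hdw'
    rw [h7, map_sub, gg_eq_mon, co_mon, if_pos rfl]
    have h8 : co (ins v (∅, 0)) z' = 0 := by
      by_contra h9
      have := suppIn_ins_self v ((mem_Cd.1 (hz' (ins v (∅, 0)))).1 h9).1
      have := this.2
      omega
    rw [h8, sub_zero]
  rw [h6] at h5
  exact Helper28.QB.one_notMem_AGe 𝒜 h5

end Pool.Agent.Helper44.QB
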