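import Mathlib
import Pool.Agent.Helper44.QB.Final

/-!
PROJECT QB, the minimality argument, one degree at a time.
-/

set_option autoImplicit false

open scoped TensorProduct
open Pool.Agent.Helper44.QA
open Pool.Agent.Helper67.QB (Ex)

namespace Pool.Agent.Helper44.QB

universe u

variable {k R : Type u} [Field k] [CommRing R] [Algebra k R]
  {O : Type} [Fintype O] [LinearOrder O] {b : ℕ}
  {𝒜 : ℕ → Submodule k R} {δ w : O ⊕ Fin b → ℤ} {T : DD R O b} {S : Set (O ⊕ Fin b)}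

/-- If `v` is a generator of the least degree `≥ 3` then the homology of the part of degree `≤ 2`
does not vanish in degree `δ v - 1`. -/
theorem min_step [GradedAlgebra 𝒜] [Nontrivial R] (hT : Gr 𝒜 δ w T) (hS : Cl k δ T S)
    {v : O ⊕ Fin b} (hvS : v ∈ S) (hv3 : 3 ≤ δ v) (hmv : ∀ g ∈ S, 3 ≤ δ g → δ v ≤ δ g)
    (h2 : Ex T.d.toAddMonoidHom
      (fun n => (Ft k δ {g | g ∈ S ∧ δ g ≤ 2} n).toAddSubgroup) (δ v - 1))
    (h : Ex T.d.toAddMonoidHom (fun n => (Ft k δ S n).toAddSubgroup) (δ v))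
    (hmin : ∀ g, δ g = δ v + 1 → co (ins v (∅, 0)) (T g) ∈ AGe 𝒜 1) : False := by
  classical
  have hlow : ∀ g ∈ S, δ g ≤ δ v - 1 → g ∈ {g | g ∈ S ∧ δ g ≤ 2} := by
    intro g hg hgv
    refine ⟨hg, ?_⟩
    by_contra h3
    have := hmv g hg (by omega)
    omega
  have hTv : T v ∈ Ft k δ {g | g ∈ S ∧ δ g ≤ 2} (δ v - 1) :=
    mem_Ft_of_lt hT.pos (hS v hvS) _ hlow
  obtain ⟨z', hz', hdz'⟩ := h2 (T v) hTv (hT.sq v)
  rw [sub_add_cancel] at hz'
  have hz'S : z' ∈ Ft k δ S (δ v) := Pc_mono (fun g hg => hg.1) (fun _ _ _ => le_rfl) hz'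
  have hgv : (gg v : AA R O b) ∈ Ft k δ S (δ v) := gg_mem hvS Submodule.mem_top
  obtain ⟨w', hw', hdw'⟩ := h (gg v - z') (Submodule.sub_mem _ hgv hz'S) (by
    change T.d (gg v - z') = 0
    rw [map_sub, d_gg]
    exact sub_eq_zero.2 hdz'.symm)
  have hw'u : w' ∈ Ft k δ Set.univ (δ v + 1) :=
    Pc_mono (Set.subset_univ _) (fun _ _ _ => le_rfl) hw'
  have h5 := Helper28.QB.co_ins_d_mem 𝒜 hT hw'u hmin
  have h6 : co (ins v (∅, 0)) (T.d w') = 1 := by
    have h7 : T.d w' = gg v - z' := hdw'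
    rw [h7, map_sub, gg_eq_mon, co_mon, if_pos rfl]
    have h8 : co (ins v (∅, 0)) z' = 0 := by
      by_contra h9
      have := suppIn_ins_self v ((mem_Cd.1 (hz' (ins v (∅, 0)))).1 h9).1
      have := this.2
      omega
    rw [h8, sub_zero]
  rw [h6] at h5
  exact Helper28.QB.one_notMem_AGe 𝒜 h5

/-- The arithmetic of the least degree `m ≥ 3`. -/
theorem min_arith {m ε μ : ℕ} (h3 : 3 ≤ m) (hε : m ≤ ε + 1)
    (h : ∀ v0 : ℤ, 2 ≤ v0 → (Odd m → v0 ≤ m) → (Even m → v0 + 1 ≤ m) → (v0 - 1) * ε ≤ μ * v0) :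
    m ≤ μ + 2 ∧ (Odd m → m ≤ μ + 1) := by
  have hε' : (m : ℤ) - 1 ≤ ε := by omega
  rcases Nat.even_or_odd m with hm | hm
  · have h1 := h ((m : ℤ) - 1) (by omega) (fun _ => by omega) (fun _ => by omega)
    have h2 : ((m : ℤ) - 2) * (m - 1) ≤ μ * (m - 1) := by
      have : ((m : ℤ) - 2) * (m - 1) ≤ (m - 2) * ε :=
        mul_le_mul_of_nonneg_left hε' (by omega)
      have h4 : ((m : ℤ) - 1 - 1) * ε = (m - 2) * ε := by ring
      linarith
    have h3 : (m : ℤ) - 2 ≤ μ := le_of_mul_le_mul_right h2 (by omega)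
    exact ⟨by omega, fun h => absurd hm (Nat.not_even_iff_odd.2 h)⟩
  · have h1 := h (m : ℤ) (by omega) (fun _ => le_rfl)
      (fun h => absurd h (Nat.not_even_iff_odd.2 hm))
    have h2 : ((m : ℤ) - 1) * (m - 1) ≤ μ * m := by
      have : ((m : ℤ) - 1) * (m - 1) ≤ (m - 1) * ε :=
        mul_le_mul_of_nonneg_left hε' (by omega)
      linarith
    have h4 : (m : ℤ) ≤ μ + 1 := by
      by_contra hc
      push Not at hc
      nlinarith
    exact ⟨by omega, fun _ => by omega⟩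

end Pool.Agent.Helper44.QB
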