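import Mathlib
import Pool.Agent.Helper44.QA.Defs

/-!
PROJECT QB (MP_6cd5f1_al). The statement: definitions in plain terms.
-/

set_option autoImplicit false

open scoped TensorProduct

namespace Pool.Agent.Helper44.QB

noncomputable section

/-- The free graded commutative `R`-algebra on `a` odd and `b` even variables: exterior algebra of
`R^a` tensor polynomial ring in `b` variables. -/
abbrev FreeG (R : Type) [CommRing R] (a b : ℕ) : Type := QA.BB R b (Fin a → R)

/-- The variables: `Sum.inl i` the odd ones, `Sum.inr j` the even ones. -/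
def var (R : Type) [CommRing R] (a b : ℕ) (g : Fin a ⊕ Fin b) : FreeG R a b :=
  Sum.elim (fun i => QA.xx (Pi.single i 1)) (fun j => QA.XX j) g

/-- The ring structure of the tensor product of algebras (Mathlib). -/
abbrev fRing (R : Type) [CommRing R] (a b : ℕ) : Ring (FreeG R a b) :=
  (Algebra.TensorProduct.instRing :
    Ring (ExteriorAlgebra R (Fin a → R) ⊗[R] MvPolynomial (Fin b) R))

/-- The algebra structure of the tensor product of algebras (Mathlib). -/
abbrev fAlg (R : Type) [CommRing R] (a b : ℕ) :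
    @Algebra R (FreeG R a b) _ (fRing R a b).toSemiring :=
  (Algebra.TensorProduct.leftAlgebra :
    Algebra R (ExteriorAlgebra R (Fin a → R) ⊗[R] MvPolynomial (Fin b) R))

section

variable {k R B : Type} [Field k] [CommRing R] [Algebra k R] [Ring B] [Algebra R B] {a b : ℕ}

/-- The elements of degree `n` and weight `p`: sums of elements `r g₁ ⋯ g_l`, `r` homogeneous in
`R = ⨁ 𝒜 s`, `g_i` variables, `n` the sum of the degrees of the `g_i`, `p` the sum of the degree of
`r` and of the weights of the `g_i`. -/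
def piece (𝒜 : ℕ → Submodule k R) (v : Fin a ⊕ Fin b → B) (deg wt : Fin a ⊕ Fin b → ℕ)
    (n p : ℕ) : AddSubgroup B :=
  AddSubgroup.closure {z | ∃ (l : List (Fin a ⊕ Fin b)) (s : ℕ) (r : R), r ∈ 𝒜 s ∧
    (l.map deg).sum = n ∧ s + (l.map wt).sum = p ∧ z = r • (l.map v).prod}

/-- `𝔪 B + B₊ B₊`: sums of multiples of homogeneous elements of `R` of positive degree and of
multiples of products of two variables. -/
def decomp (𝒜 : ℕ → Submodule k R) (v : Fin a ⊕ Fin b → B) : AddSubgroup B :=
  AddSubgroup.closure ({z | ∃ s, 0 < s ∧ ∃ r ∈ 𝒜 s, ∃ y, z = r • y} ∪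
    {z | ∃ g g' y, z = v g * (v g' * y)})

/-- `𝔪 B + (odd variables) B`. -/
def oddIdeal (𝒜 : ℕ → Submodule k R) (v : Fin a ⊕ Fin b → B) : AddSubgroup B :=
  AddSubgroup.closure ({z | ∃ s, 0 < s ∧ ∃ r ∈ 𝒜 s, ∃ y, z = r • y} ∪
    {z | ∃ i y, z = v (Sum.inl i) * y})

/-- `d` is a differential on the graded commutative `R`-algebra `B` with odd variables `v (inl i)`
and even variables `v (inr j)` of the given degrees (in the homological grading) and weights (in the
grading given by the grading `𝒜` of `R`): an `R`-linear derivation of degree `-1` and weight `0` with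
`d d = 0`; `B` is a resolution of `B₀ / d B₁` (every cycle is a scalar plus a boundary) and `d` is
minimal (`d v ∈ 𝔪 B + B₊ B₊` for every variable `v`). -/
structure IsGDG (𝒜 : ℕ → Submodule k R) (v : Fin a ⊕ Fin b → B) (deg wt : Fin a ⊕ Fin b → ℕ)
    (d : B → B) : Prop where
  lin : IsLinearMap R d
  sq : ∀ w, d (d w) = 0
  one : d 1 = 0
  leibOdd : ∀ i w, d (v (Sum.inl i) * w) = d (v (Sum.inl i)) * w - v (Sum.inl i) * d w
  leibEven : ∀ j w, d (v (Sum.inr j) * w) = d (v (Sum.inr j)) * w + v (Sum.inr j) * d w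
  odd : ∀ i, Odd (deg (Sum.inl i))
  even : ∀ j, Even (deg (Sum.inr j)) ∧ 0 < deg (Sum.inr j)
  pos : ∀ g, 0 < wt g
  hom : ∀ g, d (v g) ∈ piece 𝒜 v deg wt (deg g - 1) (wt g)
  exact : ∀ w, d w = 0 → ∃ (ρ : R) (y : B), w = ρ • 1 + d y
  minimal : ∀ g, d (v g) ∈ decomp 𝒜 v

end

/-- `R = ⨁ 𝒜 n` is a positively graded algebra over the field `𝒜 0 = k` with
`dim R - depth R ≤ μ`: there are homogeneous elements `θ` and `η₁, ..., η_μ` of positive degree such
that `θ` is a regular sequence and `R / (θ, η)` is a finite dimensional vector space over `k`. -/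
structure DimDepth {k R : Type} [Field k] [CommRing R] [Algebra k R]
    (𝒜 : ℕ → Submodule k R) (μ : ℕ) : Prop where
  zero : ∀ r ∈ 𝒜 0, ∃ c : k, algebraMap k R c = r
  dep : ∃ (D : ℕ) (θ : Fin D → R) (e : Fin D → ℕ) (η : Fin μ → R) (e' : Fin μ → ℕ),
    (∀ j, 0 < e j ∧ θ j ∈ 𝒜 (e j)) ∧ (∀ j, 0 < e' j ∧ η j ∈ 𝒜 (e' j)) ∧
    RingTheory.Sequence.IsRegular R (List.ofFn θ) ∧
    Module.Finite k (R ⧸ (Ideal.span (Set.range θ) ⊔ Ideal.span (Set.range η)))

/-- `d` makes the free graded commutative algebra `FreeG R a b` (with the multiplication of the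
tensor product of algebras) a minimal bigraded DG algebra resolution. -/
def IsGModel {k R : Type} [Field k] [CommRing R] [Algebra k R] (𝒜 : ℕ → Submodule k R) {a b : ℕ}
    (deg wt : Fin a ⊕ Fin b → ℕ) (d : FreeG R a b → FreeG R a b) : Prop :=
  @IsGDG k R (FreeG R a b) _ _ _ (fRing R a b) (fAlg R a b) a b 𝒜 (var R a b) deg wt d

end

end Pool.Agent.Helper44.QB
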