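import Mathlib
import Pool.Agent.Helper44.QB.Stmt
import Pool.Agent.Helper44.QB.Step

/-!
PROJECT QB. From the statement to the data of the proof.
-/

set_option autoImplicit false

open scoped TensorProduct
open Pool.Agent.Helper44.QA

namespace Pool.Agent.Helper44.QB

section Ind

variable {R : Type} [CommRing R] {O : Type} [Fintype O] [LinearOrder O] {b : ℕ}

omit [Fintype O] in
theorem ins_inr_eq (j : Fin b) (m : Mo O b) (hj : m.2 j ≠ 0) :
    m = ins (Sum.inr j) (m.1, m.2 - Finsupp.single j 1) := by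
  refine Prod.ext rfl ?_
  change m.2 = m.2 - Finsupp.single j 1 + Finsupp.single j 1
  rw [tsub_add_cancel_of_le]
  rw [Finsupp.single_le_iff]
  omega

omit [Fintype O] in
/-- Induction on monomials. -/
theorem mo_ind {P : Mo O b → Prop} (h0 : P (∅, 0)) (hE : ∀ j m, P m → P (ins (Sum.inr j) m))
    (hO : ∀ i m, i ∉ m.1 → P m → P (ins (Sum.inl i) m)) (m : Mo O b) : P m := by
  have h1 : ∀ N : ℕ, ∀ α : Fin b →₀ ℕ, ∑ j, α j = N → P (∅, α) := by
    intro N
    induction N with
    | zero =>
      intro α hα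
      have : α = 0 := by
        ext j
        exact Finset.sum_eq_zero_iff.1 hα j (Finset.mem_univ _)
      rw [this]
      exact h0
    | succ N ih =>
      intro α hα
      obtain ⟨j, -, hj⟩ : ∃ j ∈ Finset.univ, α j ≠ 0 := by
        by_contra h
        push Not at h
        rw [Finset.sum_eq_zero h] at hα
        omega
      have h2 := ins_inr_eq (O := O) j (∅, α) hj
      rw [h2]
      refine hE j _ (ih _ ?_)
      have h3 : ∀ i, α i = (α - Finsupp.single j 1 : Fin b →₀ ℕ) i + (if j = i then 1 else 0) := by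
        intro i
        rw [Finsupp.tsub_apply, Finsupp.single_apply]
        split_ifs with h
        · subst h
          have : α j ≠ 0 := hj
          omega
        · omega
      rw [Finset.sum_congr rfl fun i _ => h3 i, Finset.sum_add_distrib, Finset.sum_ite_eq,
        if_pos (Finset.mem_univ _)] at hα
      exact Nat.succ_injective hα
  obtain ⟨A, α⟩ := m
  induction A using Finset.induction_on with
  | empty => exact h1 _ α rfl
  | insert i A hi ih => exact hO i (A, α) hi ih

theorem mon_ins_inr (j : Fin b) (m : Mo O b) :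
    mon (R := R) (ins (Sum.inr j) m) = gg (Sum.inr j) * mon m :=
  (gg_inr_mul_mon (R := R) j m).symm

theorem mon_ins_inl (i : O) (m : Mo O b) (hi : i ∉ m.1) :
    ∃ u : ℤˣ, mon (R := R) (ins (Sum.inl i) m) = u • (gg (Sum.inl i) * mon m) :=
  mon_insert (R := R) i m.1 m.2 hi

end Ind

variable {k R : Type} [Field k] [CommRing R] [Algebra k R] {a b : ℕ}

/-- Integral versions. -/
abbrev zz (f : Fin a ⊕ Fin b → ℕ) (g : Fin a ⊕ Fin b) : ℤ := (f g : ℤ)

variable {𝒜 : ℕ → Submodule k R}

theorem prod_mem [GradedAlgebra 𝒜] (deg wt : Fin a ⊕ Fin b → ℕ) (l : List (Fin a ⊕ Fin b)) :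
    ((l.map fun g => (gg g : AA R (Fin a) b)).prod) ∈
      Fw 𝒜 (zz deg) (zz wt) Set.univ ((l.map deg).sum : ℕ) ((l.map wt).sum : ℕ) := by
  induction l with
  | nil =>
    have h : lin (zz wt) ((∅, 0) : Mo (Fin a) b) = 0 := by unfold lin; simp
    have := one_mem (k := k) (R := R) (δ := zz deg) (T := Set.univ)
      (φ := fun m => AZ 𝒜 ((((([] : List (Fin a ⊕ Fin b)).map wt).sum : ℕ) : ℤ) -
        lin (zz wt) m)) (by
        rw [h]
        have := AZ_nat 𝒜 0
        simp only [List.map_nil, List.sum_nil, Nat.cast_zero, sub_zero] at this ⊢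
        rw [this]
        exact SetLike.one_mem_graded 𝒜)
    exact this
  | cons g l ih =>
    have h1 := gg_mul_mem (φ' := fun m => AZ 𝒜 (((((g :: l).map wt).sum : ℕ) : ℤ) -
        lin (zz wt) m)) (Set.mem_univ g) (fun m hm => by
        rw [lin_ins _ hm]
        apply le_of_eq
        congr 1
        rw [List.map_cons, List.sum_cons]
        push_cast
        ring) ih
    have h2 : ((((g :: l).map deg).sum : ℕ) : ℤ) = ((l.map deg).sum : ℕ) + zz deg g := by
      rw [List.map_cons, List.sum_cons]
      push_cast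
      ring
    rw [h2]
    exact h1

theorem piece_le [GradedAlgebra 𝒜] {deg wt : Fin a ⊕ Fin b → ℕ} {n p : ℕ} {z : AA R (Fin a) b}
    (hz : z ∈ piece 𝒜 (fun g => (gg g : AA R (Fin a) b)) deg wt n p) :
    z ∈ Fw 𝒜 (zz deg) (zz wt) Set.univ n p := by
  unfold piece at hz
  refine AddSubgroup.closure_induction (p := fun z _ => z ∈ Fw 𝒜 (zz deg) (zz wt) Set.univ n p)
    ?_ ?_ ?_ ?_ hz
  · rintro z ⟨l, s, r, hr, hn, hp, rfl⟩
    intro m
    have h1 := mem_Cd.1 (prod_mem (𝒜 := 𝒜) (R := R) deg wt l m)
    rw [map_smul, smul_eq_mul]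
    refine mem_Cd.2 ⟨fun h0 => ?_, ?_⟩
    · have h2 := h1.1 (right_ne_zero_of_mul h0)
      rwa [hn] at h2
    · have h3 := AZ_mul 𝒜 (p := s) (by rwa [AZ_nat]) h1.2
      rw [← hp, Nat.cast_add]
      rwa [← add_sub_assoc] at h3
  · exact Submodule.zero_mem _
  · intro x y _ _ hx hy
    exact Submodule.add_mem _ hx hy
  · intro x _ hx
    exact Submodule.neg_mem _ hx

section Main

variable {deg wt : Fin a ⊕ Fin b → ℕ} {d : AA R (Fin a) b → AA R (Fin a) b}

/-- The differential is the derivation with its values on the generators. -/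
theorem d_eq [GradedAlgebra 𝒜]
    (hd : IsGDG 𝒜 (fun g => (gg g : AA R (Fin a) b)) deg wt d) (w : AA R (Fin a) b) :
    d w = DD.d (fun g => d (gg g)) w := by
  set T : DD R (Fin a) b := fun g => d (gg g) with hT
  have hval : ∀ g, T g ∈ Fw 𝒜 (zz deg) (zz wt) Set.univ (zz deg g - 1) (zz wt g) := by
    intro g
    have h1 : 1 ≤ deg g := by
      cases g with
      | inl i => exact (hd.odd i).pos
      | inr j => exact (hd.even j).2
    have := piece_le (hd.hom g)
    rwa [Nat.cast_sub h1, Nat.cast_one] at this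
  have ho : ∀ i, Odd (zz deg (Sum.inl i)) := fun i => by exact_mod_cast (hd.odd i)
  have he : ∀ j, Even (zz deg (Sum.inr j)) := fun j => by exact_mod_cast (hd.even j).1
  have hpar : T.Par :=
    { ev := fun i => evenEl_of ho he ((ho i).sub_odd odd_one) (hval (Sum.inl i))
      od := fun j => oddEl_of ho he ((he j).sub_odd odd_one) (hval (Sum.inr j)) }
  refine lin_ext (f := hd.lin.mk' d) (g := T.d) ?_ w
  intro m
  change d (mon m) = T.d (mon m)
  induction m using mo_ind with
  | h0 => rw [mon_zero, hd.one, d_one]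
  | hE j m ih => rw [mon_ins_inr, d_gg_inr_mul hpar, ← ih]; exact hd.leibEven j _
  | hO i m hi ih =>
    obtain ⟨u, hu⟩ := mon_ins_inl (R := R) i m hi
    have h1 : d (gg (Sum.inl i) * mon m) = T.d (gg (Sum.inl i) * mon m) := by
      rw [d_gg_inl_mul hpar, ← ih]
      exact hd.leibOdd i _
    rw [hu]
    rcases Int.units_eq_one_or u with rfl | rfl
    · rw [one_smul, h1]
    · rw [Units.neg_smul, one_smul, map_neg, ← h1]
      exact (hd.lin.mk' d).map_neg _

/-- The values are graded data. -/
theorem gr_of [GradedAlgebra 𝒜]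
    (hd : IsGDG 𝒜 (fun g => (gg g : AA R (Fin a) b)) deg wt d) :
    Gr 𝒜 (zz deg) (zz wt) (fun g => d (gg g)) where
  odd i := by exact_mod_cast (hd.odd i)
  even j := by exact_mod_cast (hd.even j).1
  pos g := by
    cases g with
    | inl i => exact_mod_cast (hd.odd i).pos
    | inr j => exact_mod_cast (hd.even j).2
  wpos g := by exact_mod_cast hd.pos g
  val g := by
    have h1 : 1 ≤ deg g := by
      cases g with
      | inl i => exact (hd.odd i).pos
      | inr j => exact (hd.even j).2
    have := piece_le (hd.hom g)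
    rwa [Nat.cast_sub h1, Nat.cast_one] at this
  sq g := by
    rw [← d_eq hd]
    exact hd.sq _

theorem mem_AGe_one {s : ℕ} (hs : 0 < s) {r : R} (hr : r ∈ 𝒜 s) : r ∈ AGe 𝒜 1 := by
  refine AGe_mono 𝒜 (p := 1) (q := s) (by exact_mod_cast hs) (AZ_le_AGe 𝒜 _ ?_)
  rwa [AZ_nat]

theorem co_gg_empty (g : Fin a ⊕ Fin b) (y : AA R (Fin a) b) :
    co ((∅, 0) : Mo (Fin a) b) (gg g * y) = 0 := by
  cases g with
  | inl i => exact co_gg_inl_zero i _ (Finset.notMem_empty i) y
  | inr j => exact co_gg_inr_zero j _ rfl y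

/-- The coefficient of a single variable in an element of `𝔪 B + B₊ B₊` lies in `𝔪`. -/
theorem co_decomp [GradedAlgebra 𝒜] {z : AA R (Fin a) b}
    (hz : z ∈ decomp 𝒜 (fun g => (gg g : AA R (Fin a) b))) (v : Fin a ⊕ Fin b) :
    co (ins v (∅, 0)) z ∈ AGe 𝒜 1 := by
  unfold decomp at hz
  refine AddSubgroup.closure_induction (p := fun z _ => co (ins v (∅, 0)) z ∈ AGe 𝒜 1)
    ?_ ?_ ?_ ?_ hz
  · rintro z (⟨s, hs, r, hr, y, rfl⟩ | ⟨g, g', y, rfl⟩)
    · rw [map_smul, smul_eq_mul, mul_comm]
      exact AGe_ideal 𝒜 _ (mem_AGe_one hs hr)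
    · have h0 : co (ins v (∅, 0)) (gg g * (gg g' * y)) = 0 := by
        have h1 := co_gg_empty (R := R) (b := b) g' y
        generalize gg g' * y = u at h1 ⊢
        cases g with
        | inl i =>
          by_cases hi : i ∈ (ins v ((∅, 0) : Mo (Fin a) b)).1
          · have hv : v = Sum.inl i := by
              cases v with
              | inl i' =>
                have : i = i' := by simpa [ins] using hi
                rw [this]
              | inr j => simp [ins] at hi
            subst hv
            obtain ⟨e, he⟩ := co_gg_inl (R := R) (b := b) i (∅, 0) (Finset.notMem_empty i)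
            rw [he, h1, smul_zero]
          · exact co_gg_inl_zero i _ hi u
        | inr j =>
          by_cases hj : (ins v ((∅, 0) : Mo (Fin a) b)).2 j = 0
          · exact co_gg_inr_zero j _ hj u
          · have hv : v = Sum.inr j := by
              cases v with
              | inl i' => simp [ins] at hj
              | inr j' =>
                have : j' = j := by
                  by_contra h
                  apply hj
                  change ((0 : Fin b →₀ ℕ) + Finsupp.single j' 1 : Fin b →₀ ℕ) j = 0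
                  rw [zero_add, Finsupp.single_eq_of_ne' h]
                rw [this]
            subst hv
            rw [co_gg_inr, h1]
      rw [h0]
      exact Submodule.zero_mem _
  · rw [map_zero]
    exact Submodule.zero_mem _
  · intro x y _ _ hx hy
    rw [map_add]
    exact Submodule.add_mem _ hx hy
  · intro x _ hx
    rw [map_neg]
    exact Submodule.neg_mem _ hx

/-- The constant coefficient of an element of `𝔪 B + B₊ B₊` lies in `𝔪`. -/
theorem co_decomp_zero [GradedAlgebra 𝒜] {z : AA R (Fin a) b}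
    (hz : z ∈ decomp 𝒜 (fun g => (gg g : AA R (Fin a) b))) :
    co ((∅, 0) : Mo (Fin a) b) z ∈ AGe 𝒜 1 := by
  unfold decomp at hz
  refine AddSubgroup.closure_induction (p := fun z _ => co ((∅, 0) : Mo (Fin a) b) z ∈ AGe 𝒜 1)
    ?_ ?_ ?_ ?_ hz
  · rintro z (⟨s, hs, r, hr, y, rfl⟩ | ⟨g, g', y, rfl⟩)
    · rw [map_smul, smul_eq_mul, mul_comm]
      exact AGe_ideal 𝒜 _ (mem_AGe_one hs hr)
    · rw [co_gg_empty]
      exact Submodule.zero_mem _
  · rw [map_zero]
    exact Submodule.zero_mem _
  · intro x y _ _ hx hy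
    rw [map_add]
    exact Submodule.add_mem _ hx hy
  · intro x _ hx
    rw [map_neg]
    exact Submodule.neg_mem _ hx

/-- The pure even coefficients of an element of `𝔪 B + (odd variables) B` lie in `𝔪`. -/
theorem co_oddIdeal [GradedAlgebra 𝒜] {z : AA R (Fin a) b}
    (hz : z ∈ oddIdeal 𝒜 (fun g => (gg g : AA R (Fin a) b))) (α : Fin b →₀ ℕ) :
    co ((∅, α) : Mo (Fin a) b) z ∈ AGe 𝒜 1 := by
  unfold oddIdeal at hz
  refine AddSubgroup.closure_induction (p := fun z _ => co ((∅, α) : Mo (Fin a) b) z ∈ AGe 𝒜 1)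
    ?_ ?_ ?_ ?_ hz
  · rintro z (⟨s, hs, r, hr, y, rfl⟩ | ⟨i, y, rfl⟩)
    · rw [map_smul, smul_eq_mul, mul_comm]
      exact AGe_ideal 𝒜 _ (mem_AGe_one hs hr)
    · rw [co_gg_inl_zero i _ (Finset.notMem_empty i)]
      exact Submodule.zero_mem _
  · rw [map_zero]
    exact Submodule.zero_mem _
  · intro x y _ _ hx hy
    rw [map_add]
    exact Submodule.add_mem _ hx hy
  · intro x _ hx
    rw [map_neg]
    exact Submodule.neg_mem _ hx

end Main

end Pool.Agent.Helper44.QB
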