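import Mathlib
import Pool.Agent.Helper44.QB.Conv
import Pool.Agent.Helper64.QB.Exa
import Pool.Agent.Helper72.QB.Ser
import Pool.Agent.Helper28.QB.Hil
import Pool.Agent.Helper28.QB.NM

/-!
PROJECT QB. The parameters `r`: as many as the order of the pole of the Hilbert series.
-/

set_option autoImplicit false

open scoped TensorProduct
open Pool.Agent.Helper44.QA Module
open Pool.Agent.Helper67.QB (Ex ps hser)
open Pool.Agent.Helper72.QB (JJ wZ)

namespace Pool.Agent.Helper44.QB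

variable {k R : Type} [Field k] [CommRing R] [Algebra k R] {a b : ℕ}
  {𝒜 : ℕ → Submodule k R} {deg wt : Fin a ⊕ Fin b → ℕ} {d : AA R (Fin a) b → AA R (Fin a) b}

theorem co_val [GradedAlgebra 𝒜]
    (hT : Gr 𝒜 (zz deg) (zz wt) (fun g => d (gg g))) {g : Fin a ⊕ Fin b} (_ : zz deg g = 1) :
    co (∅, 0) (d (gg g)) ∈ 𝒜 (wt g) := by
  have h := (mem_Cd.1 (hT.val g (∅, 0))).2
  rw [Pool.Agent.Helper72.QB.lin_zero_mono, sub_zero] at h
  rwa [AZ_nat] at h

theorem JJ_homog [GradedAlgebra 𝒜]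
    (hT : Gr 𝒜 (zz deg) (zz wt) (fun g => d (gg g))) (S : Set (Fin a ⊕ Fin b)) :
    (JJ (zz deg) (fun g => d (gg g)) S).IsHomogeneous 𝒜 := by
  refine Ideal.homogeneous_span 𝒜 _ ?_
  rintro r ⟨g, -, hg, rfl⟩
  exact ⟨wt g, co_val hT hg⟩

theorem JJ_le [GradedAlgebra 𝒜]
    (hT : Gr 𝒜 (zz deg) (zz wt) (fun g => d (gg g))) (S : Set (Fin a ⊕ Fin b)) {r : R}
    (hr : r ∈ JJ (zz deg) (fun g => d (gg g)) S) : r ∈ AGe 𝒜 1 := by
  unfold JJ at hr
  induction hr using Submodule.span_induction with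
  | mem x hx =>
    obtain ⟨g, -, hg, rfl⟩ := hx
    exact mem_AGe_one (by exact_mod_cast hT.wpos g) (co_val hT hg)
  | zero => exact Submodule.zero_mem _
  | add x y _ _ hx hy => exact Submodule.add_mem _ hx hy
  | smul r x _ hx =>
    rw [smul_eq_mul]
    exact AGe_ideal 𝒜 r hx

theorem finrank_zero [GradedAlgebra 𝒜] [Nontrivial R]
    (h0 : ∀ r ∈ 𝒜 0, ∃ c : k, algebraMap k R c = r) : finrank k (𝒜 0) = 1 := by
  have h1 : (1 : R) ∈ 𝒜 0 := SetLike.one_mem_graded 𝒜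
  refine finrank_eq_one (⟨1, h1⟩ : 𝒜 0) ?_ ?_
  · intro h
    have := congrArg Subtype.val h
    exact one_ne_zero (α := R) this
  · rintro ⟨r, hr⟩
    obtain ⟨c, rfl⟩ := h0 r hr
    refine ⟨c, Subtype.ext ?_⟩
    change c • (1 : R) = _
    rw [← Algebra.algebraMap_eq_smul_one]

theorem inf_bot [GradedAlgebra 𝒜] [Nontrivial R]
    (h0 : ∀ r ∈ 𝒜 0, ∃ c : k, algebraMap k R c = r) (J : Ideal R)
    (hJ : ∀ r ∈ J, r ∈ AGe 𝒜 1) : (J.restrictScalars k ⊓ 𝒜 0 : Submodule k R) = ⊥ := by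
  rw [eq_bot_iff]
  rintro r ⟨hr, hr0⟩
  obtain ⟨c, rfl⟩ := h0 r hr0
  rw [Submodule.mem_bot]
  by_contra hc
  have hc0 : c ≠ 0 := by
    rintro rfl
    exact hc (map_zero _)
  have h2 := AGe_ideal 𝒜 (algebraMap k R c⁻¹) (hJ _ hr)
  rw [← map_mul, inv_mul_cancel₀ hc0, map_one] at h2
  exact Helper28.QB.one_notMem_AGe 𝒜 h2

theorem exists_r [CharZero k] [Algebra ℚ R] [GradedAlgebra 𝒜] [IsNoetherianRing R] [Nontrivial R]
    (h0 : ∀ r ∈ 𝒜 0, ∃ c : k, algebraMap k R c = r)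
    (hd : IsGDG 𝒜 (fun g => (gg g : AA R (Fin a) b)) deg wt d)
    {D : ℕ} (eθ : Fin D → ℕ) (heθ : ∀ j, 0 < eθ j) (f : Polynomial ℤ)
    (hf : (PowerSeries.mk fun p => (finrank k (𝒜 p) : ℤ)) * ps eθ = (f : PowerSeries ℤ)) :
    a ≤ b + D ∧ ∃ (r : Fin (b + D - a) → R) (e : Fin (b + D - a) → ℕ),
      (∀ i, 0 < e i ∧ r i ∈ 𝒜 (e i)) ∧ Module.Finite k
        (R ⧸ (JJ (zz deg) (fun g => d (gg g)) Set.univ ⊔ Ideal.span (Set.range r))) := by
  classical
  have hT := gr_of hd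
  have hfd := Helper28.QB.finite_piece 𝒜 h0
  have hex := Pool.Agent.Helper64.QB.Ex_Fw hT (fun x hx => by
    obtain ⟨ρ, y, h⟩ := hd.exact x (by rw [d_eq hd]; exact hx)
    exact ⟨ρ, y, by rw [← d_eq hd]; exact h⟩)
  have hw : ∀ g, 1 ≤ wt g := fun g => hd.pos g
  have hser1 := Pool.Agent.Helper72.QB.ser_prod 𝒜 hfd hT.pos hw hT.odd hT.even Finset.univ
  rw [Finset.coe_univ, Pool.Agent.Helper72.QB.ser_empty 𝒜 hT.pos,
    Pool.Agent.Helper72.QB.ser_exact 𝒜 hfd hT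
    (Pool.Agent.Helper64.QB.cl_univ hT) (fun n p hn z hz h => hex p n hn z hz h)] at hser1
  set J := JJ (zz deg) (fun g => d (gg g)) Set.univ with hJ
  set HS : PowerSeries ℤ := PowerSeries.mk fun p => ((finrank k (𝒜 p) : ℤ) -
      finrank k (J.restrictScalars k ⊓ 𝒜 p : Submodule k R)) with hHS
  have hE : ∏ g ∈ (Finset.univ : Finset (Fin a ⊕ Fin b)).filter (fun g => g.isRight = true),
      (1 - PowerSeries.X ^ wt g : PowerSeries ℤ) = ps (fun j : Fin b => wt (Sum.inr j)) := by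
    rw [Pool.Agent.Helper67.QB.ps_eq, Finset.prod_filter, Fintype.prod_sum_type]
    simp
  have hO : ∏ g ∈ (Finset.univ : Finset (Fin a ⊕ Fin b)).filter (fun g => ¬ g.isRight = true),
      (1 - PowerSeries.X ^ wt g : PowerSeries ℤ) = ps (fun i : Fin a => wt (Sum.inl i)) := by
    rw [Pool.Agent.Helper67.QB.ps_eq, Finset.prod_filter, Fintype.prod_sum_type]
    simp
  rw [hE, hO] at hser1
  have hJA : ∀ r ∈ J, r ∈ AGe 𝒜 1 := fun r hr => JJ_le hT _ hr
  obtain ⟨h1, g, hg, u, hu⟩ := Pool.Agent.Helper67.QB.pole_data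
    (fun i : Fin a => wt (Sum.inl i)) (fun j : Fin b => wt (Sum.inr j)) eθ
    (fun j => hw _) (fun j => heθ j) HS (by
      intro n
      rw [hHS, PowerSeries.coeff_mk]
      have := hfd n
      have h2 : finrank k (J.restrictScalars k ⊓ 𝒜 n : Submodule k R) ≤ finrank k (𝒜 n) :=
        Submodule.finrank_mono inf_le_right
      have h3 : (finrank k (J.restrictScalars k ⊓ 𝒜 n : Submodule k R) : ℤ) ≤
        (finrank k (𝒜 n) : ℤ) := by exact_mod_cast h2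
      linarith) (by
      rw [hHS, PowerSeries.coeff_mk, finrank_zero h0, inf_bot h0 J hJA, finrank_bot]
      norm_num) f (by
      rw [← hf, hser1]
      ring)
  rw [Fintype.card_fin, Fintype.card_fin, Fintype.card_fin] at h1
  refine ⟨h1, ?_⟩
  rw [Fintype.card_fin, Fintype.card_fin, Fintype.card_fin] at hu
  exact Helper28.QB.exists_params' 𝒜 h0 J (JJ_homog hT _) g hg u _ hu

end Pool.Agent.Helper44.QB
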