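import Mathlib
import Pool.Agent.Helper44.QB.Big
import Pool.Agent.Helper44.QB.Min
import Pool.Agent.Helper44.QB.Par
import Pool.Agent.Helper65.QB.Nak
import Pool.Agent.Helper62.QB.Serre

/-!
PROJECT QB. Preparations for the assembly.
-/

set_option autoImplicit false

open scoped TensorProduct
open Pool.Agent.Helper44.QA Module
open Pool.Agent.Helper67.QB (Ex IsSup ps)
open Pool.Agent.Helper72.QB (JJ)
open Pool.Agent.Helper59.QB

namespace Pool.Agent.Helper44.QB

section Gen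

variable {k R : Type} [Field k] [CommRing R] [Algebra k R]
  {O : Type} [Fintype O] [LinearOrder O] {b : ℕ}
  {𝒜 : ℕ → Submodule k R} {δ w : O ⊕ Fin b → ℤ} {T : DD R O b} {S : Set (O ⊕ Fin b)}

theorem Cl.le (hT : Gr 𝒜 δ w T) (hS : Cl k δ T S) (q : ℤ) :
    Cl k δ T {g | g ∈ S ∧ δ g ≤ q} := by
  rintro g ⟨hg, hq⟩
  exact mem_Ft_of_lt hT.pos (hS g hg) _ fun g' hg' h => ⟨hg', by omega⟩

end Gen

variable {k R : Type} [Field k] [CommRing R] [Algebra k R] {a b : ℕ}
  {𝒜 : ℕ → Submodule k R} {deg wt : Fin a ⊕ Fin b → ℕ} {d : AA R (Fin a) b → AA R (Fin a) b}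

/-- Even monomials of degree two. -/
theorem even_two (hev : ∀ j, Even (deg (Sum.inr j)) ∧ 0 < deg (Sum.inr j)) (α : Fin b →₀ ℕ)
    (h : lin (zz deg) ((∅, α) : Mo (Fin a) b) = 2) :
    ∃ j, ((∅, α) : Mo (Fin a) b) = ins (Sum.inr j) (∅, 0) := by
  have hge : ∀ j, 2 ≤ deg (Sum.inr j) := by
    intro j
    obtain ⟨⟨e, he⟩, h2⟩ := hev j
    omega
  have hsum : ∑ j, α j * deg (Sum.inr j) = 2 := by
    unfold lin at h
    simp only [Finset.sum_empty, zero_add] at h
    exact_mod_cast h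
  have hne : ∃ j, α j ≠ 0 := by
    by_contra hc
    push Not at hc
    rw [Finset.sum_eq_zero (fun j _ => by rw [hc j, zero_mul])] at hsum
    omega
  obtain ⟨j, hj⟩ := hne
  refine ⟨j, ?_⟩
  have h1 := Finset.add_sum_erase Finset.univ (fun j => α j * deg (Sum.inr j)) (Finset.mem_univ j)
  rw [hsum] at h1
  have h2 := hge j
  have h3 : 1 ≤ α j := Nat.one_le_iff_ne_zero.2 hj
  have h4 : 2 ≤ α j * deg (Sum.inr j) := by nlinarith
  have h5 : α j = 1 := by
    by_contra hc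
    have h6 : 2 ≤ α j := by omega
    have h7 : 2 * 2 ≤ α j * deg (Sum.inr j) := Nat.mul_le_mul h6 h2
    omega
  have h6 : ∑ j' ∈ Finset.univ.erase j, α j' * deg (Sum.inr j') = 0 := by omega
  have h7 : α = Finsupp.single j 1 := by
    ext j'
    by_cases hjj : j' = j
    · subst hjj
      rw [Finsupp.single_eq_same, h5]
    · have h8 := (Finset.sum_eq_zero_iff.1 h6) j' (Finset.mem_erase.2 ⟨hjj, Finset.mem_univ _⟩)
      have h9 := hge j'
      rw [Finsupp.single_eq_of_ne hjj]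
      rcases Nat.mul_eq_zero.1 h8 with h | h
      · exact h
      · omega
  rw [h7]
  unfold ins
  simp

/-- The pure even part of the values on odd variables of degree `3`. -/
theorem pure_three [GradedAlgebra 𝒜] (hd : IsGDG 𝒜 (fun g => (gg g : AA R (Fin a) b)) deg wt d)
    (i : Fin a) (hdeg : deg (Sum.inl i) = 3) (α : Fin b →₀ ℕ) :
    co ((∅, α) : Mo (Fin a) b) (d (gg (Sum.inl i))) ∈ AGe 𝒜 1 := by
  by_cases h0 : co ((∅, α) : Mo (Fin a) b) (d (gg (Sum.inl i))) = 0
  · rw [h0]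
    exact Submodule.zero_mem _
  · have h1 := ((mem_Cd.1 ((gr_of hd).val (Sum.inl i) (∅, α))).1 h0).2
    have h2 : lin (zz deg) ((∅, α) : Mo (Fin a) b) = 2 := by
      rw [h1]
      unfold zz
      rw [hdeg]
      norm_num
    obtain ⟨j, hj⟩ := even_two hd.even α h2
    rw [hj]
    exact co_decomp (hd.minimal _) _

/-- The pure even part of the values on odd variables of degree `≥ 3`. -/
theorem pure_of [GradedAlgebra 𝒜] (hd : IsGDG 𝒜 (fun g => (gg g : AA R (Fin a) b)) deg wt d)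
    (hodd : ∀ i, 5 ≤ deg (Sum.inl i) →
      d (gg (Sum.inl i)) ∈ oddIdeal 𝒜 (fun g => (gg g : AA R (Fin a) b)))
    (i : Fin a) (h3 : 3 ≤ deg (Sum.inl i)) (α : Fin b →₀ ℕ) :
    co ((∅, α) : Mo (Fin a) b) (d (gg (Sum.inl i))) ∈ AGe 𝒜 1 := by
  by_cases h5 : 5 ≤ deg (Sum.inl i)
  · exact co_oddIdeal (hodd i h5) α
  · exact pure_three hd i (by
      obtain ⟨e, he⟩ := hd.odd i
      omega) α

section Big

variable {c : ℕ}

theorem range_eq : Set.range (eG (b := b) (bι a c)) =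
    ((Finset.univ.image (eG (b := b) (bι a c)) : Finset (Fin (a + c) ⊕ Fin b)) :
      Set (Fin (a + c) ⊕ Fin b)) := by
  rw [Finset.coe_image, Finset.coe_univ, Set.image_univ]

theorem le_two_eq (δ : Fin a ⊕ Fin b → ℤ) (e : Fin c → ℤ) (q : ℤ) :
    {g | g ∈ Set.range (eG (b := b) (bι a c)) ∧ bz δ e g ≤ q} =
      eG (bι a c) '' {g | g ∈ Set.univ ∧ δ g ≤ q} := by
  ext g'
  constructor
  · rintro ⟨⟨g, rfl⟩, h⟩
    rw [bz_em] at h
    exact ⟨g, ⟨Set.mem_univ _, h⟩, rfl⟩
  · rintro ⟨g, ⟨-, h⟩, rfl⟩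
    exact ⟨⟨g, rfl⟩, by rw [bz_em]; exact h⟩

end Big

section Main

variable {s D : ℕ}

/-- The old generators. -/
def sB (a b c : ℕ) : Finset (Fin (a + c) ⊕ Fin b) := Finset.univ.image (eG (b := b) (bι a c))

/-- The generators of the parameters `r`. -/
def sτ (a b s D : ℕ) : Finset (Fin (a + (s + D)) ⊕ Fin b) :=
  Finset.univ.image fun l : Fin s => bσ a b (Fin.castAdd D l)

theorem mem_sB {c : ℕ} {g' : Fin (a + c) ⊕ Fin b} : g' ∈ sB a b c ↔ ∃ g, eG (bι a c) g = g' := by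
  unfold sB
  simp

theorem mem_sτ {g' : Fin (a + (s + D)) ⊕ Fin b} :
    g' ∈ sτ a b s D ↔ ∃ l : Fin s, bσ a b (Fin.castAdd D l) = g' := by
  unfold sτ
  simp

theorem σ_notMem (j : Fin D) : bσ a b (Fin.natAdd s j) ∉ sB a b (s + D) ∪ sτ a b s D := by
  rw [Finset.mem_union]
  rintro (h | h)
  · obtain ⟨g, hg⟩ := mem_sB.1 h
    exact em_ne_σ g _ hg
  · obtain ⟨l, hl⟩ := mem_sτ.1 h
    have h1 := bσ_injective hl
    have h2 := congrArg Fin.val h1
    rw [Fin.val_castAdd, Fin.val_natAdd] at h2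
    have := l.2
    omega

theorem card_odd (δ : Fin (a + (s + D)) ⊕ Fin b → ℤ) (hev : ∀ j, Even (δ (Sum.inr j))) :
    ((sB a b (s + D) ∪ sτ a b s D).filter fun g => Odd (δ g)).card ≤ a + s := by
  have hsub : ((sB a b (s + D) ∪ sτ a b s D).filter fun g => Odd (δ g)) ⊆
      (Finset.univ.image fun i : Fin a => eG (b := b) (bι a (s + D)) (Sum.inl i)) ∪
        sτ a b s D := by
    intro g' hg'
    obtain ⟨h1, h2⟩ := Finset.mem_filter.1 hg'
    rcases Finset.mem_union.1 h1 with h | h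
    · obtain ⟨g, rfl⟩ := mem_sB.1 h
      cases g with
      | inl i => exact Finset.mem_union_left _ (Finset.mem_image_of_mem _ (Finset.mem_univ i))
      | inr j => exact absurd (hev j) (Int.not_even_iff_odd.2 h2)
    · exact Finset.mem_union_right _ h
  refine (Finset.card_le_card hsub).trans ((Finset.card_union_le _ _).trans ?_)
  refine Nat.add_le_add ?_ ?_
  · exact Finset.card_image_le.trans (by rw [Finset.card_univ, Fintype.card_fin])
  · exact Finset.card_image_le.trans (by rw [Finset.card_univ, Fintype.card_fin])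

theorem card_even (δ : Fin (a + (s + D)) ⊕ Fin b → ℤ) (hev : ∀ j, Even (δ (Sum.inr j))) :
    b ≤ ((sB a b (s + D) ∪ sτ a b s D).filter fun g => Even (δ g)).card := by
  have h1 : (Finset.univ.image fun j : Fin b => eG (bι a (s + D)) (Sum.inr j)).card = b := by
    rw [Finset.card_image_of_injective _ (fun j j' h => Sum.inr.inj ((eG_injective _) h)),
      Finset.card_univ, Fintype.card_fin]
  conv_lhs => rw [← h1]
  refine Finset.card_le_card ?_
  intro g' hg'
  obtain ⟨j, -, rfl⟩ := Finset.mem_image.1 hg'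
  exact Finset.mem_filter.2 ⟨Finset.mem_union_left _ (mem_sB.2 ⟨_, rfl⟩), hev j⟩

end Main

end Pool.Agent.Helper44.QB
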