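import Mathlib
import Pool.Agent.Helper44.QB.Asm

/-!
PROJECT QB. The pure even part modulo the maximal ideal.
-/

set_option autoImplicit false

open scoped TensorProduct
open Pool.Agent.Helper44.QA Module

namespace Pool.Agent.Helper44.QB

universe u
variable {k R : Type u} [Field k] [CommRing R] [Algebra k R]
  {O : Type} [Fintype O] [LinearOrder O] {b : ℕ}
  {𝒜 : ℕ → Submodule k R} {δ w : O ⊕ Fin b → ℤ} {T : DD R O b}

/-- The ideal of the elements of positive degree. -/
def mI (𝒜 : ℕ → Submodule k R) [GradedAlgebra 𝒜] : Ideal R where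
  carrier := {r | r ∈ AGe 𝒜 1}
  add_mem' := fun {x y} h h' => (AGe 𝒜 1).add_mem (x := x) (y := y) h h'
  zero_mem' := (Submodule.zero_mem (AGe 𝒜 1) : (0 : R) ∈ AGe 𝒜 1)
  smul_mem' := fun r _ h => AGe_ideal 𝒜 r h

noncomputable section

/-- The pure even part. -/
def pr (R : Type u) [CommRing R] (O : Type) (b : ℕ) : AA R O b →ₐ[R] MvPolynomial (Fin b) R :=
  Algebra.TensorProduct.lift
    ((Algebra.ofId R (MvPolynomial (Fin b) R)).comp
      (ExteriorAlgebra.algebraMapInv : ExteriorAlgebra R (O → R) →ₐ[R] R))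
    (AlgHom.id R (MvPolynomial (Fin b) R)) (fun _ _ => Commute.all _ _)

theorem pr_tm (x : ExteriorAlgebra R (O → R)) (p : MvPolynomial (Fin b) R) :
    pr R O b (tm x p) = MvPolynomial.C (ExteriorAlgebra.algebraMapInv x) * p := by
  unfold pr tm
  erw [Algebra.TensorProduct.lift_tmul]
  rfl

theorem pr_gg_inl (i : O) : pr R O b (gg (Sum.inl i)) = 0 := by
  change pr R O b (tm (ExteriorAlgebra.ι R _) 1) = 0
  rw [pr_tm]
  have : ExteriorAlgebra.algebraMapInv (ExteriorAlgebra.ι R (Pi.single i (1 : R) : O → R)) = 0 := by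
    simp [ExteriorAlgebra.algebraMapInv]
  rw [this, map_zero, zero_mul]

theorem pr_mon (m : Mo O b) :
    pr R O b (mon m) = if m.1 = ∅ then MvPolynomial.monomial m.2 1 else 0 := by
  obtain ⟨S, α⟩ := m
  induction S using Finset.induction_on with
  | empty =>
    rw [if_pos rfl]
    unfold mon
    rw [bas_empty, pr_tm, map_one, map_one, one_mul]
  | insert a S ha ih =>
    obtain ⟨v, hv⟩ := mon_insert (R := R) a S α ha
    rw [hv, if_neg (Finset.insert_ne_empty a S)]
    rcases Int.units_eq_one_or v with rfl | rfl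
    · rw [one_smul, map_mul, pr_gg_inl, zero_mul]
    · rw [Units.neg_smul, one_smul, map_neg, map_mul, pr_gg_inl, zero_mul, neg_zero]

theorem coeff_pr (α : Fin b →₀ ℕ) (x : AA R O b) :
    MvPolynomial.coeff α (pr R O b x) = co (∅, α) x := by
  refine lin_ext (f := (MvPolynomial.lcoeff R α) ∘ₗ (pr R O b).toLinearMap)
    (g := co (∅, α)) (fun m => ?_) x
  change MvPolynomial.coeff α (pr R O b (mon m)) = co (∅, α) (mon m)
  rw [pr_mon, co_mon]
  by_cases h : m.1 = ∅
  · rw [if_pos h, MvPolynomial.coeff_monomial]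
    by_cases h2 : m.2 = α
    · rw [if_pos h2, if_pos (Prod.ext h h2)]
    · rw [if_neg h2, if_neg (fun h3 => h2 (congrArg Prod.snd h3))]
  · rw [if_neg h, if_neg (fun h3 => h (congrArg Prod.fst h3)), MvPolynomial.coeff_zero]

theorem pr_par (l : Fin b) (x : AA R O b) :
    pr R O b (par l x) = MvPolynomial.pderiv l (pr R O b x) := by
  induction x using tm_ind with
  | hadd x y hx hy => rw [map_add, map_add, hx, hy, map_add, map_add]
  | ht x p => rw [par_tm, pr_tm, pr_tm, MvPolynomial.pderiv_C_mul]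

variable [GradedAlgebra 𝒜]

/-- The pure even part modulo the maximal ideal. -/
def phi (𝒜 : ℕ → Submodule k R) [GradedAlgebra 𝒜] (O : Type) [Fintype O] [LinearOrder O] (b : ℕ) :
    AA R O b →+* MvPolynomial (Fin b) (R ⧸ mI 𝒜) :=
  (MvPolynomial.map (Ideal.Quotient.mk (mI 𝒜))).comp (pr R O b).toRingHom

theorem coeff_phi (α : Fin b →₀ ℕ) (x : AA R O b) :
    MvPolynomial.coeff α (phi 𝒜 O b x) = Ideal.Quotient.mk (mI 𝒜) (co (∅, α) x) := by
  change MvPolynomial.coeff α (MvPolynomial.map _ (pr R O b x)) = _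
  rw [MvPolynomial.coeff_map, coeff_pr]

theorem phi_dd (l : Fin b) (x : AA R O b) :
    phi 𝒜 O b (dd (Sum.inr l) x) = MvPolynomial.pderiv l (phi 𝒜 O b x) := by
  change MvPolynomial.map _ (pr R O b (par l x)) = MvPolynomial.pderiv l (MvPolynomial.map _ _)
  rw [pr_par, MvPolynomial.pderiv_map]
  rfl

theorem phi_zero_iff (x : AA R O b) :
    phi 𝒜 O b x = 0 ↔ ∀ α, co ((∅, α) : Mo O b) x ∈ AGe 𝒜 1 := by
  rw [MvPolynomial.ext_iff]
  refine forall_congr' fun α => ?_
  rw [coeff_phi, MvPolynomial.coeff_zero, Ideal.Quotient.eq_zero_iff_mem]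
  rfl

theorem phi_odd (ho : ∀ i, Odd (δ (Sum.inl i))) (he : ∀ j, Even (δ (Sum.inr j)))
    {S : Set (O ⊕ Fin b)} {n : ℤ} (hn : Odd n) {x : AA R O b} (hx : x ∈ Ft k δ S n) :
    phi 𝒜 O b x = 0 := by
  rw [phi_zero_iff]
  intro α
  by_cases h0 : co ((∅, α) : Mo O b) x = 0
  · rw [h0]
    exact Submodule.zero_mem _
  · have h1 := ((mem_Cd.1 (hx (∅, α))).1 h0).2
    have h2 := (neg_one_pow_lin ho he ((∅, α) : Mo O b)).2 (by simp)
    rw [h1] at h2
    exact absurd hn (Int.not_odd_iff_even.2 h2)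

theorem phi_d (hpos : ∀ g, 1 ≤ δ g) {q : ℤ} {y : AA R O b} (hy : y ∈ Ft k δ Set.univ q)
    (h : ∀ g, δ g ≤ q → phi 𝒜 O b (T g) = 0) : phi 𝒜 O b (T.d y) = 0 := by
  have hy' : y ∈ Ft k δ {g | δ g ≤ q} q := mem_Ft_of_lt hpos hy _ fun g _ hg => hg
  unfold DD.d
  rw [LinearMap.sum_apply, map_sum]
  refine Finset.sum_eq_zero fun g _ => ?_
  rw [LinearMap.comp_apply, LinearMap.mulLeft_apply, map_mul]
  by_cases hg : δ g ≤ q
  · rw [h g hg, zero_mul]
  · rw [dd_eq_zero (T := {g | δ g ≤ q}) hg hy', map_zero, mul_zero]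

end

theorem pure_arg {A : Type*} [CommRing A] [Algebra ℚ A] (p : MvPolynomial (Fin b) A)
    (e : Fin b → ℤ) (v j : ℤ) (hv : 0 ≤ v) (hvj : ∀ l, j < e l → v ≤ 2 * e l)
    (hp : ∀ α, MvPolynomial.coeff α p ≠ 0 → ∑ l, (α l : ℤ) * e l = v - 1 ∧ 2 ≤ ∑ l, α l)
    (hj : ∀ l, e l ≠ j)
    (h : ∀ l0, e l0 < j → ∃ c : Fin b → MvPolynomial (Fin b) A, c l0 = 1 ∧
      (∀ l, l ≠ l0 → e l < j → c l = 0) ∧ (∀ l, j < e l → MvPolynomial.coeff 0 (c l) = 0) ∧
      ∑ l, c l * MvPolynomial.pderiv l p = 0) : p = 0 := by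
  classical
  by_contra hp0
  obtain ⟨α, hα, hmin⟩ := p.support.exists_min_image (fun α => ∑ l, α l)
    (MvPolynomial.support_nonempty.2 hp0)
  have hα' := MvPolynomial.mem_support_iff.1 hα
  obtain ⟨h1, h2⟩ := hp α hα'
  -- a small variable
  have h3 : ∃ l0, α l0 ≠ 0 ∧ e l0 < j := by
    by_contra hcon
    push Not at hcon
    have h4 : ∀ l, (α l : ℤ) * v ≤ 2 * ((α l : ℤ) * e l) := by
      intro l
      by_cases hl : α l = 0
      · rw [hl]; simp
      · have h5 := hcon l hl
        have h6 := hvj l (lt_of_le_of_ne h5 (hj l).symm)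
        have h7 : (0 : ℤ) ≤ (α l : ℤ) := by positivity
        nlinarith
    have h5 := Finset.sum_le_sum fun l (_ : l ∈ Finset.univ) => h4 l
    rw [← Finset.sum_mul, ← Finset.mul_sum, h1] at h5
    have h6 : (2 : ℤ) ≤ ∑ l, (α l : ℤ) := by exact_mod_cast h2
    nlinarith
  obtain ⟨l0, hl0, hl0j⟩ := h3
  obtain ⟨c, hc1, hc2, hc3, hc4⟩ := h l0 hl0j
  set β := α - Finsupp.single l0 1 with hβ
  have hαβ : β + Finsupp.single l0 1 = α := by
    rw [hβ, tsub_add_cancel_of_le]
    rw [Finsupp.single_le_iff]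
    omega
  have hlen : ∑ l, β l + 1 = ∑ l, α l := by
    rw [← hαβ]
    simp only [Finsupp.add_apply, Finset.sum_add_distrib]
    congr 1
    rw [Finset.sum_eq_single l0 (fun l _ hl => Finsupp.single_eq_of_ne hl)
      (fun h => absurd (Finset.mem_univ _) h), Finsupp.single_eq_same]
  have h4 := congrArg (MvPolynomial.coeff β) hc4
  rw [MvPolynomial.coeff_sum, MvPolynomial.coeff_zero, Finset.sum_eq_single l0, hc1, one_mul,
    MvPolynomial.coeff_pderiv, hαβ] at h4
  · apply hα'
    have h5 : ((β l0 : A) + 1) * algebraMap ℚ A (((β l0 : ℚ) + 1)⁻¹) = 1 := by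
      have h6 : ((β l0 : A) + 1) = algebraMap ℚ A ((β l0 : ℚ) + 1) := by
        rw [map_add, map_natCast, map_one]
      rw [h6, ← map_mul, mul_inv_cancel₀ (by positivity), map_one]
    calc MvPolynomial.coeff α p
        = MvPolynomial.coeff α p * ((β l0 : A) + 1) * algebraMap ℚ A (((β l0 : ℚ) + 1)⁻¹) := by
          rw [mul_assoc, h5, mul_one]
      _ = 0 := by rw [h4, zero_mul]
  · intro l _ hl
    by_cases hlj : e l < j
    · rw [hc2 l hl hlj, zero_mul, MvPolynomial.coeff_zero]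
    · have h5 : j < e l := lt_of_le_of_ne (not_lt.1 hlj) (hj l).symm
      rw [MvPolynomial.coeff_mul]
      refine Finset.sum_eq_zero fun x hx => ?_
      replace hx := Finset.HasAntidiagonal.mem_antidiagonal.1 hx
      by_cases hx1 : x.1 = 0
      · rw [hx1, hc3 l h5, zero_mul]
      · rw [MvPolynomial.coeff_pderiv]
        have h6 : MvPolynomial.coeff (x.2 + Finsupp.single l 1) p = 0 := by
          by_contra hne
          have h7 := hmin _ (MvPolynomial.mem_support_iff.2 hne)
          have h8 : ∑ l, x.1 l + ∑ l, x.2 l = ∑ l, β l := by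
            rw [← hx, ← Finset.sum_add_distrib]
            rfl
          have h9 : ∑ l', (x.2 + Finsupp.single l 1 : Fin b →₀ ℕ) l' = ∑ l, x.2 l + 1 := by
            simp only [Finsupp.add_apply, Finset.sum_add_distrib]
            congr 1
            rw [Finset.sum_eq_single l (fun l' _ hl => Finsupp.single_eq_of_ne hl)
              (fun h => absurd (Finset.mem_univ _) h), Finsupp.single_eq_same]
          have h10 : 1 ≤ ∑ l, x.1 l := by
            by_contra h11
            apply hx1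
            ext l'
            have : ∑ l, x.1 l = 0 := by omega
            exact (Finset.sum_eq_zero_iff.1 this) l' (Finset.mem_univ _)
          omega
        rw [h6]
        ring
  · intro h
    exact absurd (Finset.mem_univ _) h

end Pool.Agent.Helper44.QB
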