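import Mathlib
import Pool.Agent.Helper44.QB.Final
import Pool.Agent.Helper67.QB.Cx

/-!
PROJECT QB. If no generator has degree `j` then the Kähler differentials split: existence of a
retraction onto the part of the generators of degree `< j`.
-/

set_option autoImplicit false

open scoped TensorProduct
open Pool.Agent.Helper44.QA
open Pool.Agent.Helper67.QB (Ex)
open Pool.Agent.Helper67.QB.Cx

namespace Pool.Agent.Helper44.QB

universe u

variable {k R : Type u} [Field k] [CommRing R] [Algebra k R]
  {O : Type} [Fintype O] [LinearOrder O] {b : ℕ}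
  {𝒜 : ℕ → Submodule k R} {δ w : O ⊕ Fin b → ℤ} {T : DD R O b}

theorem T_mem (hT : Gr 𝒜 δ w T) (g : O ⊕ Fin b) : T g ∈ Ft k δ Set.univ (δ g - 1) :=
  Pc_mono (Set.subset_univ _) (fun _ _ _ => le_top) (hT.val g)

theorem dd_T_zero (hT : Gr 𝒜 δ w T) {g g' : O ⊕ Fin b} (h : δ g ≤ δ g') : dd g' (T g) = 0 := by
  have h1 : T g ∈ Ft k δ {h | δ h ≤ δ g - 1} (δ g - 1) :=
    mem_Ft_of_lt hT.pos (T_mem hT g) _ fun h _ hh => hh
  refine dd_eq_zero (T := {h | δ h ≤ δ g - 1}) ?_ h1
  intro h2
  have h3 : δ g' ≤ δ g - 1 := h2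
  omega

theorem dd_T_mem (hT : Gr 𝒜 δ w T) (g g' : O ⊕ Fin b) :
    dd g' (T g) ∈ Ft k δ Set.univ (δ g - 1 - δ g') :=
  dd_mem (fun _ _ => le_rfl) (T_mem hT g)

theorem mul_Ft {n n' : ℤ} {x y : AA R O b} (hx : x ∈ Ft k δ Set.univ n)
    (hy : y ∈ Ft k δ Set.univ n') : x * y ∈ Ft k δ Set.univ (n + n') :=
  mul_mem (φ'' := fun _ => ⊤) (fun _ _ _ _ _ _ _ => Submodule.mem_top) hx hy

theorem units_mem' (C : Submodule k (AA R O b)) (u : ℤˣ) {x : AA R O b} (h : x ∈ C) :
    u • x ∈ C := by
  rcases Int.units_eq_one_or u with rfl | rfl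
  · rwa [one_smul]
  · rw [Units.neg_smul, one_smul]
    exact C.neg_mem h

theorem cl_u (hT : Gr 𝒜 δ w T) : Cl k δ T Set.univ := fun g _ => T_mem hT g

theorem DW_mem (hT : Gr 𝒜 δ w T) {q : ℤ} {c : O ⊕ Fin b → AA R O b}
    (hc : ∀ g', c g' ∈ Ft k δ Set.univ (q - δ g')) (g'' : O ⊕ Fin b) :
    DW T c g'' ∈ Ft k δ Set.univ (q - 1 - δ g'') := by
  unfold DW
  refine Submodule.add_mem _ (Submodule.sum_mem _ fun g' _ => ?_) (units_mem' _ _ ?_)
  · have := mul_Ft (dd_T_mem hT g' g'') (hc g')
    rwa [show δ g' - 1 - δ g'' + (q - δ g') = q - 1 - δ g'' by ring] at this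
  · have := d_Ft (cl_u hT) (hc g'')
    rwa [show q - δ g'' - 1 = q - 1 - δ g'' by ring] at this

theorem DW_sub (T : DD R O b) (c c' : O ⊕ Fin b → AA R O b) :
    DW T (c - c') = DW T c - DW T c' := by
  funext g
  unfold DW
  simp only [Pi.sub_apply, mul_sub, Finset.sum_sub_distrib, map_sub, smul_sub]
  abel

theorem DW_add (T : DD R O b) (c c' : O ⊕ Fin b → AA R O b) :
    DW T (c + c') = DW T c + DW T c' := by
  funext g
  unfold DW
  simp only [Pi.add_apply, mul_add, Finset.sum_add_distrib, map_add, smul_add]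
  abel

theorem DW_zero (T : DD R O b) : DW T (0 : O ⊕ Fin b → AA R O b) = 0 := by
  have := DW_sub T 0 0
  rwa [sub_zero, sub_self] at this

/-- (X), by induction on the largest degree that occurs. -/
theorem exact_DW (hT : Gr 𝒜 δ w T)
    (hEx : ∀ n, 1 ≤ n → Ex T.d.toAddMonoidHom (fun n => (Ft k δ Set.univ n).toAddSubgroup) n)
    {j q : ℤ} (hq : j ≤ q) (l : ℕ) : ∀ c : O ⊕ Fin b → AA R O b,
      (∀ g', c g' ∈ Ft k δ Set.univ (q - δ g')) → (∀ g', j ≤ δ g' → c g' = 0) →
      (∀ g', (l : ℤ) < δ g' → c g' = 0) → DW T c = 0 →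
      ∃ y : O ⊕ Fin b → AA R O b, (∀ g', y g' ∈ Ft k δ Set.univ (q + 1 - δ g')) ∧
        (∀ g', j ≤ δ g' → y g' = 0) ∧ DW T y = c := by
  classical
  induction l with
  | zero =>
    intro c _ _ hl _
    have hc : c = 0 := by
      funext g'
      exact hl g' (by
        have := hT.pos g'
        push_cast
        omega)
    exact ⟨0, fun _ => Submodule.zero_mem _, fun _ _ => rfl, by rw [DW_zero, hc]⟩
  | succ l ih =>
    intro c hc hcj hl hD
    push_cast at hl
    have hDc : ∀ g', δ g' = l + 1 → T.d (c g') = 0 := by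
      intro g' hg'
      have h1 := congrFun hD g'
      change ∑ g, dd g' (T g) * c g + sg g' • T.d (c g') = 0 at h1
      rw [Finset.sum_eq_zero, zero_add] at h1
      · have h2 := congrArg (fun z => sg g' • z) h1
        simp only [smul_smul, Int.units_mul_self, one_smul, smul_zero] at h2
        exact h2
      · intro g _
        by_cases h3 : (l : ℤ) + 1 < δ g
        · rw [hl g h3, mul_zero]
        · rw [dd_T_zero hT (by omega), zero_mul]
    have hch : ∀ g', ∃ y : AA R O b, y ∈ Ft k δ Set.univ (q + 1 - δ g') ∧ (j ≤ δ g' → y = 0) ∧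
        (δ g' ≠ l + 1 → y = 0) ∧ (δ g' = l + 1 → T.d y = c g') := by
      intro g'
      by_cases h1 : δ g' = l + 1
      · by_cases h2 : j ≤ δ g'
        · exact ⟨0, Submodule.zero_mem _, fun _ => rfl, fun _ => rfl, fun _ => by
            rw [map_zero, hcj g' h2]⟩
        · obtain ⟨y, hy, hyc⟩ := hEx (q - δ g') (by omega) (c g') (hc g') (hDc g' h1)
          refine ⟨y, ?_, fun h => absurd h h2, fun h => absurd h1 h, fun _ => hyc⟩
          rwa [show q - δ g' + 1 = q + 1 - δ g' by ring] at hy
      · exact ⟨0, Submodule.zero_mem _, fun _ => rfl, fun _ => rfl, fun h => absurd h h1⟩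
    choose y hy1 hy2 hy3 hy4 using hch
    set y1 : O ⊕ Fin b → AA R O b := fun g' => sg g' • y g' with hy1def
    have hy1m : ∀ g', y1 g' ∈ Ft k δ Set.univ (q + 1 - δ g') := fun g' => units_mem' _ _ (hy1 g')
    have hy1z : ∀ g', δ g' ≠ l + 1 → y1 g' = 0 := fun g' h => by
      rw [hy1def]
      simp only
      rw [hy3 g' h, smul_zero]
    have hDy : ∀ g', (l : ℤ) + 1 ≤ δ g' → DW T y1 g' = if δ g' = l + 1 then c g' else 0 := by
      intro g' hg'
      unfold DW
      rw [Finset.sum_eq_zero, zero_add]
      · by_cases h1 : δ g' = l + 1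
        · rw [if_pos h1, hy1def]
          simp only
          rw [map_units, smul_smul, Int.units_mul_self, one_smul, hy4 g' h1]
        · rw [if_neg h1, hy1z g' h1, map_zero, smul_zero]
      · intro g _
        by_cases h3 : δ g = l + 1
        · rw [dd_T_zero hT (by omega), zero_mul]
        · rw [hy1z g h3, mul_zero]
    obtain ⟨y2, hy2m, hy2z, hy2D⟩ := ih (c - DW T y1)
      (fun g' => by
        have := DW_mem hT hy1m g'
        rw [add_sub_cancel_right] at this
        exact Submodule.sub_mem _ (hc g') this)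
      (fun g' hg' => by
        rw [Pi.sub_apply, hcj g' hg']
        by_cases h1 : (l : ℤ) + 1 ≤ δ g'
        · rw [hDy g' h1]
          split_ifs
          · rw [hcj g' hg', sub_zero]
          · rw [sub_zero]
        · -- `DW T y1 g' = 0` because all `y1 g = 0`
          have h2 : ∀ g, y1 g = 0 := by
            intro g
            by_cases h3 : δ g = l + 1
            · rw [hy1def]
              simp only
              rw [hy2 g (by omega), smul_zero]
            · exact hy1z g h3
          have h4 : y1 = 0 := funext h2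
          rw [h4, DW_zero, Pi.zero_apply, sub_zero])
      (fun g' hg' => by
        rw [Pi.sub_apply, hDy g' (by omega)]
        split_ifs with h1
        · rw [sub_self]
        · rw [hl g' (by omega), sub_zero])
      (by rw [DW_sub, hD, DW_DW hT, sub_zero])
    refine ⟨y1 + y2, fun g' => Submodule.add_mem _ (hy1m g') (hy2m g'), fun g' hg' => ?_, ?_⟩
    · rw [Pi.add_apply, hy2z g' hg', hy1def]
      simp only
      rw [hy2 g' hg', smul_zero, add_zero]
    · rw [DW_add, hy2D, add_sub_cancel]

/-- The conditions below `j`. -/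
theorem E_small (hT : Gr 𝒜 δ w T) {j : ℤ} {W : O ⊕ Fin b → O ⊕ Fin b → AA R O b}
    (hW1 : ∀ h, δ h < j → ∀ g', W h g' = if g' = h then 1 else 0) {h : O ⊕ Fin b} (hh : δ h < j)
    (g'' : O ⊕ Fin b) : ∑ g, W g g'' * dd g (T h) =
      ∑ g', dd g'' (T g') * W h g' + sg g'' • T.d (W h g'') := by
  classical
  have h1 : ∀ g, W g g'' * dd g (T h) = if g'' = g then dd g (T h) else 0 := by
    intro g
    by_cases hg : δ h ≤ δ g
    · rw [dd_T_zero hT hg, mul_zero, ite_self]
    · rw [hW1 g (by omega)]
      split_ifs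
      · rw [one_mul]
      · rw [zero_mul]
  have h2 : ∀ g', dd g'' (T g') * W h g' = if h = g' then dd g'' (T g') else 0 := by
    intro g'
    rw [hW1 h hh]
    by_cases h3 : g' = h
    · rw [if_pos h3, if_pos h3.symm, mul_one]
    · rw [if_neg h3, if_neg (fun h4 => h3 h4.symm), mul_zero]
  rw [Finset.sum_congr rfl fun g _ => h1 g, Finset.sum_congr rfl fun g' _ => h2 g',
    Finset.sum_ite_eq, Finset.sum_ite_eq, if_pos (Finset.mem_univ _), if_pos (Finset.mem_univ _),
    hW1 h hh]
  split_ifs
  · rw [d_one, smul_zero, add_zero]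
  · rw [map_zero, smul_zero, add_zero]

/-- The retraction. -/
theorem exists_W (hT : Gr 𝒜 δ w T)
    (hEx : ∀ n, 1 ≤ n → Ex T.d.toAddMonoidHom (fun n => (Ft k δ Set.univ n).toAddSubgroup) n)
    (j : ℤ) (hj : ∀ g, δ g ≠ j) :
    ∃ W : O ⊕ Fin b → O ⊕ Fin b → AA R O b,
      (∀ h, δ h < j → ∀ g', W h g' = if g' = h then 1 else 0) ∧
      (∀ h g', W h g' ∈ Ft k δ Set.univ (δ h - δ g')) ∧
      (∀ h g', j ≤ δ g' → W h g' = 0) ∧
      (∀ h g'', ∑ g, W g g'' * dd g (T h) =
        ∑ g', dd g'' (T g') * W h g' + sg g'' • T.d (W h g'')) := by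
  classical
  have key : ∀ n : ℕ, ∃ W : O ⊕ Fin b → O ⊕ Fin b → AA R O b,
      (∀ h, δ h < j → ∀ g', W h g' = if g' = h then 1 else 0) ∧
      (∀ h g', W h g' ∈ Ft k δ Set.univ (δ h - δ g')) ∧
      (∀ h g', j ≤ δ g' → W h g' = 0) ∧
      (∀ h, δ h ≤ n → ∀ g'', ∑ g, W g g'' * dd g (T h) =
        ∑ g', dd g'' (T g') * W h g' + sg g'' • T.d (W h g'')) := by
    intro n
    induction n with
    | zero =>
      refine ⟨fun h g' => if δ h < j then (if g' = h then 1 else 0) else 0, ?_, ?_, ?_, ?_⟩
      · intro h hh g'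
        simp only
        rw [if_pos hh]
      · intro h g'
        simp only
        split_ifs with h1 h2
        · rw [h2, sub_self]
          exact one_mem Submodule.mem_top
        · exact Submodule.zero_mem _
        · exact Submodule.zero_mem _
      · intro h g' hg'
        simp only
        split_ifs with h1 h2
        · rw [h2] at hg'
          omega
        · rfl
        · rfl
      · intro h hh
        have := hT.pos h
        push_cast at hh
        omega
    | succ n ih =>
      obtain ⟨W, hW1, hW2, hW3, hW4⟩ := ih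
      have hsm : ∀ h, ∀ g'', sig W (T h) g'' ∈ Ft k δ Set.univ (δ h - 1 - δ g'') := by
        intro h g''
        refine Submodule.sum_mem _ fun g _ => ?_
        have := mul_Ft (hW2 g g'') (dd_T_mem hT h g)
        rwa [show δ g - δ g'' + (δ h - 1 - δ g) = δ h - 1 - δ g'' by ring] at this
      obtain ⟨N, hN⟩ := (Set.finite_range δ).bddAbove
      have hNN : ∀ g, δ g ≤ N := fun g => hN ⟨g, rfl⟩
      have hsol : ∀ h, ∃ y : O ⊕ Fin b → AA R O b, δ h = n + 1 → j < δ h →
          (∀ g', y g' ∈ Ft k δ Set.univ (δ h - δ g')) ∧ (∀ g', j ≤ δ g' → y g' = 0) ∧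
            DW T y = sig W (T h) := by
        intro h
        by_cases h1 : δ h = n + 1
        · by_cases h2 : j < δ h
          · obtain ⟨y, hy1, hy2, hy3⟩ := exact_DW hT hEx (j := j) (q := (n : ℤ)) (by omega)
              N.toNat (sig W (T h)) (fun g' => by
                have := hsm h g'
                rwa [h1, add_sub_cancel_right] at this)
              (fun g' hg' => by
                unfold sig
                exact Finset.sum_eq_zero fun g _ => by rw [hW3 g g' hg', zero_mul])
              (fun g' hg' => by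
                have h3 := hNN g'
                have h4 := hT.pos g'
                omega)
              (by
                rw [← sig_d hT hW2, hT.sq]
                · funext g''
                  unfold sig
                  exact Finset.sum_eq_zero fun g _ => by rw [map_zero, mul_zero]
                · intro h' hh'
                  refine hW4 h' ?_
                  by_contra h3
                  exact hh' (dd_T_zero hT (by omega)))
            exact ⟨y, fun _ _ => ⟨fun g' => by rw [h1]; exact hy1 g', hy2, hy3⟩⟩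
          · exact ⟨0, fun _ h => absurd h h2⟩
        · exact ⟨0, fun h => absurd h h1⟩
      choose y hy using hsol
      have hagree : ∀ (h : O ⊕ Fin b), δ h ≤ n →
          (fun h g' => if δ h = n + 1 ∧ j < δ h then y h g' else W h g') h = W h := by
        intro h hh
        funext g'
        simp only
        rw [if_neg]
        rintro ⟨h1, -⟩
        omega
      have hLHS : ∀ h, δ h ≤ n + 1 → ∀ g'', ∑ g, (if δ g = n + 1 ∧ j < δ g then y g g''
          else W g g'') * dd g (T h) = ∑ g, W g g'' * dd g (T h) := by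
        intro h hh g''
        refine Finset.sum_congr rfl fun g _ => ?_
        by_cases hg : δ h ≤ δ g
        · rw [dd_T_zero hT hg, mul_zero, mul_zero]
        · rw [if_neg]
          rintro ⟨h1, -⟩
          omega
      refine ⟨fun h g' => if δ h = n + 1 ∧ j < δ h then y h g' else W h g', ?_, ?_, ?_, ?_⟩
      · intro h hh g'
        simp only
        rw [if_neg (by omega), hW1 h hh]
      · intro h g'
        simp only
        split_ifs with h1
        · exact (hy h h1.1 h1.2).1 g'
        · exact hW2 h g'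
      · intro h g' hg'
        simp only
        split_ifs with h1
        · exact (hy h h1.1 h1.2).2.1 g' hg'
        · exact hW3 h g' hg'
      · intro h hh g''
        push_cast at hh
        simp only
        rw [hLHS h hh]
        by_cases h1 : δ h = n + 1 ∧ j < δ h
        · simp only [if_pos h1]
          exact (congrFun (hy h h1.1 h1.2).2.2 g'').symm
        · simp only [if_neg h1]
          by_cases h2 : δ h ≤ n
          · exact hW4 h h2 g''
          · exact E_small hT hW1 (by
              have := hj h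
              omega) g''
  obtain ⟨N, hN⟩ := (Set.finite_range δ).bddAbove
  obtain ⟨W, hW1, hW2, hW3, hW4⟩ := key N.toNat
  exact ⟨W, hW1, hW2, hW3, fun h g'' => hW4 h (by
    have h3 : δ h ≤ N := hN ⟨h, rfl⟩
    have h4 := hT.pos h
    omega) g''⟩

end Pool.Agent.Helper44.QB
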