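import Mathlib
import Pool.Agent.Helper44.QB.Pur
import Pool.Agent.Helper44.QB.WEx

/-!
PROJECT QB. If no generator has degree `j < v`, and `v ≤ 2 e` for all even degrees `e > j`, then the
value on an odd generator of degree `v` has no pure even part modulo the maximal ideal.
-/

set_option autoImplicit false

open scoped TensorProduct
open Pool.Agent.Helper44.QA Module
open Pool.Agent.Helper67.QB (Ex IsSup ps)

namespace Pool.Agent.Helper44.QB

universe u
variable {k R : Type u} [Field k] [CommRing R] [Algebra k R]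
  {O : Type} [Fintype O] [LinearOrder O] {b : ℕ}
  {𝒜 : ℕ → Submodule k R} [GradedAlgebra 𝒜] {δ w : O ⊕ Fin b → ℤ} {T : DD R O b}

theorem mem_AGe_of_w {r : R} {p : ℤ} (hp : 1 ≤ p) (hr : r ∈ AZ 𝒜 p) : r ∈ AGe 𝒜 1 :=
  AGe_mono 𝒜 hp (AZ_le_AGe 𝒜 _ hr)

/-- Degree one and even generators. -/
theorem phi_T_of (hT : Gr 𝒜 δ w T) (v : ℤ)
    (IH : ∀ i, δ (Sum.inl i) < v → 3 ≤ δ (Sum.inl i) → ∀ α, co (∅, α) (T (Sum.inl i)) ∈ AGe 𝒜 1)
    (g : O ⊕ Fin b) (hg : δ g < v) : phi 𝒜 O b (T g) = 0 := by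
  cases g with
  | inr l =>
    exact phi_odd hT.odd hT.even ((hT.even l).sub_odd odd_one)
      (Pc_mono (Set.subset_univ _) (fun _ _ _ => le_top) (hT.val (Sum.inr l)) :
        T (Sum.inr l) ∈ Ft k δ Set.univ (δ (Sum.inr l) - 1))
  | inl i =>
    rw [phi_zero_iff]
    intro α
    by_cases h3 : 3 ≤ δ (Sum.inl i)
    · exact IH i hg h3 α
    · have h1 : δ (Sum.inl i) = 1 := by
        have h2 := hT.pos (Sum.inl i)
        obtain ⟨e, he⟩ := hT.odd i
        omega
      have h4 := mem_Cd.1 (hT.val (Sum.inl i) (∅, α))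
      by_cases h0 : co ((∅, α) : Mo O b) (T (Sum.inl i)) = 0
      · rw [h0]
        exact Submodule.zero_mem _
      · have h5 := (h4.1 h0).2
        rw [h1, sub_self] at h5
        have h6 := lin_eq_zero hT.pos h5
        have h7 := h4.2
        rw [h6] at h7 ⊢
        have h8 : lin w ((∅, 0) : Mo O b) = 0 := by unfold lin; simp
        rw [h8, sub_zero] at h7
        exact mem_AGe_of_w (hT.wpos _) h7

theorem pure_gap [Algebra ℚ R] (hT : Gr 𝒜 δ w T)
    (hEx : ∀ n, 1 ≤ n → Ex T.d.toAddMonoidHom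
      (fun n => (Ft k δ Set.univ n).toAddSubgroup) n)
    (hmin : ∀ g g', co (ins g' (∅, 0)) (T g) ∈ AGe 𝒜 1) (i0 : O) (hv : 3 ≤ δ (Sum.inl i0))
    (IH : ∀ i, δ (Sum.inl i) < δ (Sum.inl i0) → 3 ≤ δ (Sum.inl i) →
      ∀ α, co (∅, α) (T (Sum.inl i)) ∈ AGe 𝒜 1)
    (j : ℤ) (hvj : ∀ l, j < δ (Sum.inr l) → δ (Sum.inl i0) ≤ 2 * δ (Sum.inr l)) (hjv : j < δ (Sum.inl i0)) (hj : ∀ g, δ g ≠ j) :
    ∀ α, co (∅, α) (T (Sum.inl i0)) ∈ AGe 𝒜 1 := by
  classical
  rw [← phi_zero_iff]
  set v := δ (Sum.inl i0) with hvdef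
  obtain ⟨W, hW1, hW2, hW3, hW4⟩ := exists_W hT hEx j hj
  have hlow := phi_T_of hT v IH
  refine pure_arg (phi 𝒜 O b (T (Sum.inl i0))) (fun l => δ (Sum.inr l)) v j (by omega) hvj ?_
    (fun l => hj _) ?_
  · intro α hα
    rw [coeff_phi] at hα
    have h0 : co ((∅, α) : Mo O b) (T (Sum.inl i0)) ≠ 0 := by
      intro h
      rw [h, map_zero] at hα
      exact hα rfl
    have h1 := ((mem_Cd.1 (hT.val (Sum.inl i0) (∅, α))).1 h0).2
    have h2 : ∑ l, (α l : ℤ) * δ (Sum.inr l) = v - 1 := by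
      rw [← h1]
      unfold lin
      simp
    refine ⟨h2, ?_⟩
    by_contra hcon
    push Not at hcon
    have h3 : ∑ l, α l = 0 ∨ ∑ l, α l = 1 := by omega
    rcases h3 with h3 | h3
    · rw [Finset.sum_eq_zero (fun l hl => by
        rw [(Finset.sum_eq_zero_iff.1 h3) l hl]; simp)] at h2
      omega
    · have h4 : ∃ l, α l ≠ 0 := by
        by_contra hc
        push Not at hc
        rw [Finset.sum_eq_zero (fun l _ => hc l)] at h3
        omega
      obtain ⟨l, hl⟩ := h4
      have h5 : ∑ l' ∈ Finset.univ.erase l, α l' = 0 ∧ α l = 1 := by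
        have := Finset.add_sum_erase Finset.univ (fun l => α l) (Finset.mem_univ l)
        omega
      have h6 : α = Finsupp.single l 1 := by
        ext l'
        by_cases hll : l' = l
        · subst hll
          rw [Finsupp.single_eq_same, h5.2]
        · rw [Finsupp.single_eq_of_ne hll]
          exact (Finset.sum_eq_zero_iff.1 h5.1) l' (Finset.mem_erase.2 ⟨hll, Finset.mem_univ _⟩)
      have h7 : ((∅, α) : Mo O b) = ins (Sum.inr l) (∅, 0) := by
        rw [h6]
        unfold ins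
        simp
      apply hα
      rw [Ideal.Quotient.eq_zero_iff_mem, h7]
      exact hmin _ _
  · intro l0 hl0
    refine ⟨fun l => phi 𝒜 O b (W (Sum.inr l) (Sum.inr l0)), ?_, ?_, ?_, ?_⟩
    · simp only
      rw [hW1 _ hl0, if_pos rfl, map_one]
    · intro l hl hlj
      simp only
      rw [hW1 _ hlj, if_neg (fun h => hl (Sum.inr.inj h).symm), map_zero]
    · intro l hlj
      simp only
      rw [coeff_phi]
      have h1 : co ((∅, 0) : Mo O b) (W (Sum.inr l) (Sum.inr l0)) = 0 := by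
        by_contra h0
        have h2 := ((mem_Cd.1 (hW2 (Sum.inr l) (Sum.inr l0) (∅, 0))).1 h0).2
        have h8 : lin δ ((∅, 0) : Mo O b) = 0 := by unfold lin; simp
        rw [h8] at h2
        omega
      rw [h1, map_zero]
    · have h1 := congrArg (phi 𝒜 O b) (hW4 (Sum.inl i0) (Sum.inr l0))
      rw [map_add, map_sum, map_sum] at h1
      have h2 : phi 𝒜 O b (T.d (W (Sum.inl i0) (Sum.inr l0))) = 0 := by
        refine phi_d hT.pos (hW2 _ _) fun g hg => hlow g ?_
        have := hT.pos (Sum.inr l0)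
        omega
      have h2' : phi 𝒜 O b (Pool.Agent.Helper67.QB.Cx.sg (Sum.inr l0 : O ⊕ Fin b) •
          T.d (W (Sum.inl i0) (Sum.inr l0))) = 0 := by
        change phi 𝒜 O b ((1 : ℤˣ) • T.d (W (Sum.inl i0) (Sum.inr l0))) = 0
        rw [one_smul, h2]
      rw [h2', add_zero] at h1
      have h3 : ∀ g', phi 𝒜 O b (dd (Sum.inr l0) (T g') * W (Sum.inl i0) g') = 0 := by
        intro g'
        by_cases hg' : j ≤ δ g'
        · rw [hW3 _ _ hg', mul_zero, map_zero]
        · rw [map_mul, phi_dd, hlow g' (by omega), map_zero, zero_mul]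
      rw [Finset.sum_eq_zero (fun g' _ => h3 g'), Fintype.sum_sum_type] at h1
      rw [Finset.sum_eq_zero (fun i _ => by
        rw [map_mul, phi_odd hT.odd hT.even ((hT.odd i).sub_even (hT.even l0)) (hW2 _ _),
          zero_mul]), zero_add] at h1
      rw [← h1]
      refine Finset.sum_congr rfl fun l _ => ?_
      rw [map_mul, phi_dd]

end Pool.Agent.Helper44.QB
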