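import Mathlib
import Pool.Agent.Helper44.QB.Asm
import Pool.Agent.Helper67.QB.CoreGen

/-!
PROJECT QB (MP_6cd5f1_al). The main theorem: the least degree `≥ 3` of a variable.
-/

set_option autoImplicit false

open scoped TensorProduct
open Pool.Agent.Helper44.QA Module
open Pool.Agent.Helper67.QB (Ex IsSup ps core_gen)
open Pool.Agent.Helper72.QB (JJ)
open Pool.Agent.Helper59.QB

namespace Pool.Agent.Helper44.QB

variable {k R : Type} [Field k] [CommRing R] [Algebra k R] {a b : ℕ}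
  {𝒜 : ℕ → Submodule k R} {deg wt : Fin a ⊕ Fin b → ℕ} {d : AA R (Fin a) b → AA R (Fin a) b}

/-- Let `v` be a variable of the least degree `≥ 3`. -/
theorem main [CharZero k] [Algebra ℚ R] [GradedAlgebra 𝒜] [IsNoetherianRing R] [Nontrivial R]
    (h0 : ∀ r ∈ 𝒜 0, ∃ c : k, algebraMap k R c = r)
    (hd : IsGDG 𝒜 (fun g => (gg g : AA R (Fin a) b)) deg wt d)
    {D μ : ℕ} (θ : Fin D → R) (η : Fin μ → R) (eθ : Fin D → ℕ) (eη : Fin μ → ℕ)
    (hθ : ∀ j, 0 < eθ j ∧ θ j ∈ 𝒜 (eθ j)) (hη : ∀ j, 0 < eη j ∧ η j ∈ 𝒜 (eη j))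
    (hreg : RingTheory.Sequence.IsWeaklyRegular R (List.ofFn θ))
    (hfin : Module.Finite k (R ⧸ (Ideal.span (Set.range θ) ⊔ Ideal.span (Set.range η))))
    (hpure : ∀ i, 3 ≤ deg (Sum.inl i) → ∀ α,
      co ((∅, α) : Mo (Fin a) b) (d (gg (Sum.inl i))) ∈ AGe 𝒜 1)
    (v : Fin a ⊕ Fin b) (hv3 : 3 ≤ deg v) (hmv : ∀ g, 3 ≤ deg g → deg v ≤ deg g) :
    deg v ≤ μ + 2 ∧ (Odd (deg v) → deg v ≤ μ + 1) := by
  classical
  have hT := gr_of hd
  have hEx := Pool.Agent.Helper64.QB.Ex_Ft hT (fun x hx => by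
    obtain ⟨ρ, y, h⟩ := hd.exact x (by rw [d_eq hd]; exact hx)
    exact ⟨ρ, y, by rw [← d_eq hd]; exact h⟩)
  -- the Hilbert series
  have hspan : Ideal.span (Set.range (Fin.append θ η)) =
      Ideal.span (Set.range θ) ⊔ Ideal.span (Set.range η) := by
    rw [← Ideal.span_union]
    congr 1
    ext x
    simp only [Set.mem_range, Set.mem_union]
    constructor
    · rintro ⟨i, rfl⟩
      refine Fin.addCases (motive := fun i => (∃ y, θ y = Fin.append θ η i) ∨
        ∃ y, η y = Fin.append θ η i) (fun i => Or.inl ⟨i, by rw [Fin.append_left]⟩)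
        (fun i => Or.inr ⟨i, by rw [Fin.append_right]⟩) i
    · rintro (⟨i, rfl⟩ | ⟨i, rfl⟩)
      · exact ⟨_, Fin.append_left _ _ i⟩
      · exact ⟨_, Fin.append_right _ _ i⟩
  have happ : ∀ {m n : ℕ} (x : Fin m → R) (y : Fin n → R) (e : Fin m → ℕ) (e' : Fin n → ℕ),
      (∀ j, 0 < e j ∧ x j ∈ 𝒜 (e j)) → (∀ j, 0 < e' j ∧ y j ∈ 𝒜 (e' j)) →
      ∀ j, 0 < Fin.append e e' j ∧ Fin.append x y j ∈ 𝒜 (Fin.append e e' j) := by
    intro m n x y e e' h1 h2 j
    refine Fin.addCases (motive := fun j => 0 < Fin.append e e' j ∧ Fin.append x y j ∈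
      𝒜 (Fin.append e e' j)) (fun j => ?_) (fun j => ?_) j
    · rw [Fin.append_left, Fin.append_left]
      exact h1 j
    · rw [Fin.append_right, Fin.append_right]
      exact h2 j
  have hθη := happ θ η eθ eη hθ hη
  obtain ⟨f, hf⟩ := Pool.Agent.Helper62.QB.theta_series' 𝒜 h0 (Fin.append θ η)
    (Fin.append eθ eη) hθη (by rw [hspan]; exact hfin)
  obtain ⟨hab, r, er, hr, hrfin⟩ := exists_r h0 hd (Fin.append eθ eη) (fun j => (hθη j).1) f hf
  generalize hs : b + (D + μ) - a = s at r er hr hrfin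
  -- the ambient algebra
  set e : Fin (s + D) → ℕ := Fin.append er eθ with he
  set c : Fin (s + D) → R := Fin.append r θ with hc
  have hce := happ r θ er eθ hr hθ
  set T : DD R (Fin a) b := fun g => d (gg g) with hTdef
  set T' := bT T c with hT'def
  set δ' := bz (c := s + D) (zz deg) (fun _ => 1) with hδ'
  set w' := bz (zz wt) (fun l => (e l : ℤ)) with hw'
  have hT' : Gr 𝒜 δ' w' T' := gr_big hT c e hce
  have hδem : ∀ g, δ' (eG (bι a (s + D)) g) = zz deg g := bz_em _ _
  have hTem : ∀ g, T' (eG (bι a (s + D)) g) = em (bι a (s + D)) (T g) := bT_em _ _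
  have hcoeB : ((sB a b (s + D) : Finset _) : Set (Fin (a + (s + D)) ⊕ Fin b)) =
      eG (bι a (s + D)) '' Set.univ := by
    unfold sB
    rw [Finset.coe_image, Finset.coe_univ]
  have hClB : Cl k δ' T' ((sB a b (s + D) : Finset _) : Set (Fin (a + (s + D)) ⊕ Fin b)) := by
    rw [hcoeB]
    exact (Cl_em hδem hTem Set.univ).2 (Pool.Agent.Helper64.QB.cl_univ hT)
  have hExB : ∀ n : ℤ, 1 ≤ n → Ex T'.d.toAddMonoidHom (fun n => (Ft k δ'
      ((sB a b (s + D) : Finset _) : Set (Fin (a + (s + D)) ⊕ Fin b)) n).toAddSubgroup) n := by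
    intro n hn
    rw [hcoeB]
    exact (Ex_Ft_em hδem hTem Set.univ n).2 (hEx n hn)
  have hτ1 : ∀ g ∈ sτ a b s D, δ' g = 1 := by
    intro g hg
    obtain ⟨l, rfl⟩ := mem_sτ.1 hg
    exact bz_σ _ _ _
  have hcoeS : ((sB a b (s + D) ∪ sτ a b s D : Finset _) : Set (Fin (a + (s + D)) ⊕ Fin b)) =
      ((sB a b (s + D) : Finset _) : Set (Fin (a + (s + D)) ⊕ Fin b)) ∪
        ((sτ a b s D : Finset _) : Set (Fin (a + (s + D)) ⊕ Fin b)) := Finset.coe_union _ _
  have hClS : Cl k δ' T' ((sB a b (s + D) ∪ sτ a b s D : Finset _) :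
      Set (Fin (a + (s + D)) ⊕ Fin b)) := by
    rw [hcoeS]
    exact hClB.union_one hT' _ hτ1
  have hval : ∀ l, co (∅, 0) (T' (bσ a b l)) = c l := co_zero_bσ T c
  have hcθ : (fun j : Fin D => co (∅, 0) (T' (bσ a b (Fin.natAdd s j)))) = θ := by
    funext j
    rw [hval, hc, Fin.append_right]
  have hevδ : ∀ j, Even (δ' (Sum.inr j)) := hT'.even
  obtain ⟨ε, hε, hbound⟩ := core_gen hT' (sB a b (s + D) ∪ sτ a b s D) hClS
    (fun j : Fin D => bσ a b (Fin.natAdd s j))
    (fun j j' h => Fin.natAdd_injective D s (bσ_injective h))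
    (fun j => bz_σ _ _ _) (fun j => σ_notMem j)
    (by
      intro j x hx
      have h1 := congrFun hcθ j
      rw [hcθ] at hx ⊢
      rw [h1] at hx
      exact _root_.Helper28.QB.reg_of_isWeaklyRegular hreg j x hx)
    (by
      have hfin' := hrfin
      obtain ⟨n0, hn0⟩ := @_root_.Helper28.QB.large_of_finite k R _ _ _ 𝒜 _
        (JJ (zz deg) T Set.univ ⊔ Ideal.span (Set.range r))
        ((JJ_homog hT _).sup (Ideal.homogeneous_span 𝒜 _ (by
          rintro _ ⟨i, rfl⟩
          exact ⟨er i, (hr i).2⟩))) hfin'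
      refine ⟨n0, fun n hn x hx => ?_⟩
      refine (sup_le ?_ ?_ : JJ (zz deg) T Set.univ ⊔ Ideal.span (Set.range r) ≤ _) (hn0 n hn x hx)
      · unfold JJ
        refine Ideal.span_le.2 ?_
        rintro _ ⟨g, -, hg, rfl⟩
        -- the value of the coefficient up to a sign
        obtain ⟨u, hu⟩ := co_eM_big (c := s + D) ((∅, 0) : Mo (Fin a) b) (T g)
        have hem : eM (bι a (s + D)) ((∅, 0) : Mo (Fin a) b) = (∅, 0) := rfl
        rw [hem, ← hTem] at hu
        have hin : co (∅, 0) (T' (eG (bι a (s + D)) g)) ∈ Ideal.span {r | ∃ g ∈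
            (sB a b (s + D) ∪ sτ a b s D), δ' g = 1 ∧ r = co (∅, 0) (T' g)} :=
          Ideal.subset_span ⟨_, Finset.mem_union_left _ (mem_sB.2 ⟨g, rfl⟩), by
            rw [hδem]; exact hg, rfl⟩
        rw [hu] at hin
        rcases Int.units_eq_one_or u with rfl | rfl
        · rwa [one_smul] at hin
        · rw [Units.neg_smul, one_smul, neg_mem_iff] at hin
          exact hin
      · refine Ideal.span_le.2 ?_
        rintro _ ⟨l, rfl⟩
        refine Ideal.subset_span ⟨bσ a b (Fin.castAdd D l), Finset.mem_union_right _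
          (mem_sτ.2 ⟨l, rfl⟩), bz_σ _ _ _, ?_⟩
        rw [hval, hc, Fin.append_left])
    (by
      intro i' hi' h3 α
      rcases Finset.mem_union.1 hi' with h | h
      · obtain ⟨g, hg⟩ := mem_sB.1 h
        cases g with
        | inr j => exact absurd hg (by simp [eG])
        | inl i =>
          rw [← hg, hδem] at h3
          rw [← hg, hTem]
          obtain ⟨u, hu⟩ := co_eM_big (c := s + D) ((∅, α) : Mo (Fin a) b) (T (Sum.inl i))
          have hem : eM (bι a (s + D)) ((∅, α) : Mo (Fin a) b) = (∅, α) := rfl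
          rw [hem] at hu
          rw [hu, units_mem_iff]
          exact hpure i (by exact_mod_cast h3) α
      · rw [hτ1 _ h] at h3
        omega)
    ⟨(sτ a b s D).card, fun n hn => by
      rw [hcoeS]
      exact bdd_union hT' hClB hExB _ hτ1 n hn⟩ μ
    (by
      have h1 := card_odd (a := a) (s := s) (D := D) δ' hevδ
      have h2 := card_even (a := a) (s := s) (D := D) δ' hevδ
      omega)
  -- the homology of the part of degree at most two of the model itself
  have hsmall : ∀ n : ℤ, (ε : ℤ) < n → Ex T.d.toAddMonoidHom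
      (fun n => (Ft k (zz deg) {g | g ∈ Set.univ ∧ zz deg g ≤ 2} n).toAddSubgroup) n := by
    intro n hn
    rw [← Ex_Ft_em hδem hTem]
    have h1 := hε.above n hn
    have hset : {g | g ∈ (sB a b (s + D) ∪ sτ a b s D) ∧ δ' g ≤ 2} =
        {g | g ∈ ((sB a b (s + D) : Finset _) : Set (Fin (a + (s + D)) ⊕ Fin b)) ∧ δ' g ≤ 2} ∪
          ((sτ a b s D : Finset _) : Set (Fin (a + (s + D)) ⊕ Fin b)) := by
      ext g
      simp only [Set.mem_ofPred_eq, Finset.mem_union, Set.mem_union, Finset.mem_coe]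
      constructor
      · rintro ⟨h | h, h'⟩
        · exact Or.inl ⟨h, h'⟩
        · exact Or.inr h
      · rintro (⟨h, h'⟩ | h)
        · exact ⟨Or.inl h, h'⟩
        · exact ⟨Or.inr h, by rw [hτ1 g h]; norm_num⟩
    rw [hset] at h1
    have h2 := Pool.Agent.Helper65.QB.ex_of_union hT' (hClB.le hT' 2) (sτ a b s D) hτ1 h1
    have hset2 : {g | g ∈ ((sB a b (s + D) : Finset _) : Set (Fin (a + (s + D)) ⊕ Fin b)) ∧
        δ' g ≤ 2} = eG (bι a (s + D)) '' {g | g ∈ Set.univ ∧ zz deg g ≤ 2} := by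
      rw [hcoeB, Set.image_univ]
      exact le_two_eq (zz deg) (fun _ => 1) 2
    rw [hset2] at h2
    exact h2
  refine min_arith (ε := ε) hv3 ?_ ?_
  · by_contra hcon
    push Not at hcon
    refine min_step hT (Pool.Agent.Helper64.QB.cl_univ hT) (Set.mem_univ v)
      (by exact_mod_cast hv3) (fun g _ hg => by
        have := hmv g (by exact_mod_cast hg)
        exact_mod_cast this) (hsmall _ (by unfold zz; omega)) (hEx _ (by unfold zz; omega)) ?_
    intro g _
    exact co_decomp (hd.minimal g) v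
  · intro v0 hv0 hod hev
    refine hbound v0 hv0 ?_
    intro g' hg' h3
    rcases Finset.mem_union.1 hg' with h | h
    · obtain ⟨g, rfl⟩ := mem_sB.1 h
      rw [hδem] at h3 ⊢
      have h4 : deg v ≤ deg g := hmv g (by exact_mod_cast h3)
      unfold zz at *
      rcases Nat.even_or_odd (deg v) with hm | hm
      · have h5 := hev hm
        exact ⟨fun _ => by omega, fun _ => by omega⟩
      · have h5 := hod hm
        refine ⟨fun _ => by omega, fun h6 => ?_⟩
        have h7 : deg g ≠ deg v := by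
          intro h8
          rw [h8] at h6
          exact absurd hm (Nat.not_odd_iff_even.2 (by exact_mod_cast h6))
        omega
    · rw [hτ1 _ h] at h3
      omega

end Pool.Agent.Helper44.QB
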