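import Mathlib
import Pool.Agent.Helper44.QB.Gap

/-!
PROJECT QB. The values on the odd variables have no pure even part modulo the maximal ideal: by
hypothesis or by a gap in the degrees.
-/

set_option autoImplicit false

open scoped TensorProduct
open Pool.Agent.Helper44.QA Module
open Pool.Agent.Helper67.QB (Ex)

namespace Pool.Agent.Helper44.QB

variable {k R : Type} [Field k] [CommRing R] [Algebra k R] {a b : ℕ}
  {𝒜 : ℕ → Submodule k R} {deg wt : Fin a ⊕ Fin b → ℕ} {d : AA R (Fin a) b → AA R (Fin a) b}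

theorem ex_of [GradedAlgebra 𝒜] (hd : IsGDG 𝒜 (fun g => (gg g : AA R (Fin a) b)) deg wt d) :
    ∀ n : ℤ, 1 ≤ n → Ex (DD.d (fun g => d (gg g))).toAddMonoidHom
      (fun n => (Ft k (zz deg) Set.univ n).toAddSubgroup) n :=
  Pool.Agent.Helper64.QB.Ex_Ft (gr_of hd) (fun x hx => by
    obtain ⟨ρ, y, h⟩ := hd.exact x (by rw [d_eq hd]; exact hx)
    exact ⟨ρ, y, by rw [← d_eq hd]; exact h⟩)

theorem pure_of_gap [Algebra ℚ R] [GradedAlgebra 𝒜]
    (hd : IsGDG 𝒜 (fun g => (gg g : AA R (Fin a) b)) deg wt d)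
    (hodd : ∀ i, 5 ≤ deg (Sum.inl i) →
      (∀ j, 2 * ((deg (Sum.inl i) - 1) / 4) ≤ j → j < deg (Sum.inl i) → ∃ g, deg g = j) →
      d (gg (Sum.inl i)) ∈ oddIdeal 𝒜 (fun g => (gg g : AA R (Fin a) b))) :
    ∀ i, 3 ≤ deg (Sum.inl i) → ∀ α, co ((∅, α) : Mo (Fin a) b) (d (gg (Sum.inl i))) ∈ AGe 𝒜 1 := by
  have key : ∀ n : ℕ, ∀ i, deg (Sum.inl i) = n → 3 ≤ n →
      ∀ α, co ((∅, α) : Mo (Fin a) b) (d (gg (Sum.inl i))) ∈ AGe 𝒜 1 := by
    intro n
    induction n using Nat.strong_induction_on with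
    | _ n ih =>
      intro i hi h3 α
      by_cases h5 : 5 ≤ n
      · by_cases hj : ∀ j, 2 * ((deg (Sum.inl i) - 1) / 4) ≤ j → j < deg (Sum.inl i) →
            ∃ g, deg g = j
        · exact co_oddIdeal (hodd i (by rw [hi]; exact h5) hj) α
        · push Not at hj
          obtain ⟨j, hj1, hj2, hj3⟩ := hj
          refine pure_gap (gr_of hd) (ex_of hd) (fun g g' => co_decomp (hd.minimal g) g') i
            (by unfold zz; omega) ?_ (j : ℤ) (by
              intro l hl
              obtain ⟨e, he⟩ := (hd.even l).1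
              unfold zz at hl ⊢
              rw [he] at hl ⊢
              push_cast at hl ⊢
              omega) (by unfold zz; omega)
            (fun g h => hj3 g (by unfold zz at h; exact_mod_cast h)) α
          intro i' h1 h2 β
          unfold zz at h1 h2
          exact ih (deg (Sum.inl i')) (by omega) i' rfl (by omega) β
      · exact pure_three hd i (by
          obtain ⟨e, he⟩ := hd.odd i
          omega) α
  intro i h3
  exact key _ i rfl h3

end Pool.Agent.Helper44.QB
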